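import Mathlib.LinearAlgebra.FreeModule.PID
import Mathlib.Topology.Sheaves.Presheaf
import Mathlib.RingTheory.Flat.TorsionFree
import Mathlib.Analysis.InnerProductSpace.ProdL2
import Mathlib.Algebra.Order.Archimedean.Real.Hom
import Mathlib.Algebra.Order.Chebyshev
import Mathlib.Algebra.Order.Star.Real
import Mathlib.Analysis.CStarAlgebra.Classes
import Mathlib.Analysis.Complex.ExponentialBounds
import Mathlib.Analysis.InnerProductSpace.Trace
import Mathlib.Analysis.SpecialFunctions.Trigonometric.Series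
import Mathlib.RingTheory.PiTensorProduct
import Mathlib.RingTheory.SimpleRing.Principal
import Mathlib.Tactic.Algebra.Basic

-- ======== part 0: formerly Pool.Agent.MP_c45dcf_an.Signs
section MrgPart0

/-!
Random signs: averages over a finite set, Walsh functions, second and fourth moments of
Rademacher sums in an inner product space, and exponential moments of real Rademacher sums.
-/

set_option autoImplicit false

namespace Pool.Agent.MP_c45dcf_an

open Finset

/-- average of a real function on a finite type -/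
noncomputable def av {X : Type} [Fintype X] (f : X → ℝ) : ℝ := (∑ x, f x) / (Fintype.card X : ℝ)

section av
variable {X : Type} [Fintype X]

lemma av_add (f g : X → ℝ) : av (fun x => f x + g x) = av f + av g := by
  unfold av; rw [Finset.sum_add_distrib, add_div]

lemma av_mono {f g : X → ℝ} (h : ∀ x, f x ≤ g x) : av f ≤ av g := by
  unfold av
  exact div_le_div_of_nonneg_right (Finset.sum_le_sum fun x _ => h x) (Nat.cast_nonneg _)

lemma av_nonneg {f : X → ℝ} (h : ∀ x, 0 ≤ f x) : 0 ≤ av f := by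
  unfold av
  exact div_nonneg (Finset.sum_nonneg fun x _ => h x) (Nat.cast_nonneg _)

lemma av_const [Nonempty X] (c : ℝ) : av (fun _ : X => c) = c := by
  unfold av
  have : (Fintype.card X : ℝ) ≠ 0 := by exact_mod_cast Fintype.card_ne_zero
  simp only [Finset.sum_const, Finset.card_univ, nsmul_eq_mul]
  field_simp

lemma av_const_mul (c : ℝ) (f : X → ℝ) : av (fun x => c * f x) = c * av f := by
  unfold av; rw [← Finset.mul_sum, mul_div_assoc]

lemma av_sum {ι : Type} (t : Finset ι) (f : ι → X → ℝ) :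
    av (fun x => ∑ i ∈ t, f i x) = ∑ i ∈ t, av (f i) := by
  unfold av; rw [Finset.sum_comm, Finset.sum_div]

lemma av_le_of_le [Nonempty X] {f : X → ℝ} {c : ℝ} (h : ∀ x, f x ≤ c) : av f ≤ c := by
  rw [← av_const (X := X) c]; exact av_mono h

lemma av_le_of_sq [Nonempty X] {f : X → ℝ} {a : ℝ} (ha : 0 < a)
    (h : av (fun x => f x ^ 2) ≤ a ^ 2) : av f ≤ a := by
  have h1 : ∀ x, f x ≤ (1 / (2 * a)) * f x ^ 2 + a / 2 := by
    intro x
    have : 0 ≤ (f x - a) ^ 2 / (2 * a) := by positivity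
    have e : (f x - a) ^ 2 / (2 * a) = (1 / (2 * a)) * f x ^ 2 + a / 2 - f x := by
      field_simp; ring
    linarith
  calc av f ≤ av (fun x => (1 / (2 * a)) * f x ^ 2 + a / 2) := av_mono h1
    _ = (1 / (2 * a)) * av (fun x => f x ^ 2) + a / 2 := by
        rw [av_add, av_const_mul, av_const]
    _ ≤ (1 / (2 * a)) * a ^ 2 + a / 2 := by gcongr
    _ = a := by field_simp; ring

lemma av_equiv {Y : Type} [Fintype Y] (e : X ≃ Y) (f : Y → ℝ) : av (fun x => f (e x)) = av f := by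
  unfold av
  rw [Fintype.card_congr e, Equiv.sum_comp e f]

lemma av_prod {Y : Type} [Fintype Y] (f : X × Y → ℝ) :
    av f = av (fun x => av (fun y => f (x, y))) := by
  unfold av
  rw [Fintype.sum_prod_type, ← Finset.sum_div, Fintype.card_prod, div_div]
  push_cast
  rw [mul_comm]

lemma av_comm {Y : Type} [Fintype Y] (f : X → Y → ℝ) :
    av (fun x => av (fun y => f x y)) = av (fun y => av (fun x => f x y)) := by
  unfold av
  rw [← Finset.sum_div, ← Finset.sum_div, Finset.sum_comm, div_div, div_div, mul_comm]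

lemma exp_av_le [Nonempty X] (f : X → ℝ) :
    Real.exp (av f) ≤ av (fun x => Real.exp (f x)) := by
  have h1 : ∀ x, Real.exp (av f) * (f x + (1 - av f)) ≤ Real.exp (f x) := by
    intro x
    have h := Real.add_one_le_exp (f x - av f)
    have e : Real.exp (f x) = Real.exp (av f) * Real.exp (f x - av f) := by
      rw [← Real.exp_add]; congr 1; ring
    rw [e]
    have := Real.exp_pos (av f)
    nlinarith
  have h2 := av_mono h1
  rw [av_const_mul, av_add, av_const] at h2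
  have e : av (fun x => f x) = av f := rfl
  rw [e] at h2
  simpa using h2

end av

/-- the sign attached to a Boolean -/
def sg (b : Bool) : ℝ := if b then 1 else -1

lemma sg_mul_self (b : Bool) : sg b * sg b = 1 := by cases b <;> simp [sg]
lemma sg_sq (b : Bool) : sg b ^ 2 = 1 := by cases b <;> simp [sg]
lemma abs_sg (b : Bool) : |sg b| = 1 := by cases b <;> simp [sg]
lemma sg_not (b : Bool) : sg (!b) = - sg b := by cases b <;> simp [sg]

section walsh
variable {ι : Type} [Fintype ι] [DecidableEq ι]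

/-- Walsh function -/
def wal (S : Finset ι) (s : ι → Bool) : ℝ := ∏ i ∈ S, sg (s i)

omit [Fintype ι] [DecidableEq ι] in
lemma wal_singleton (i : ι) (s : ι → Bool) : wal {i} s = sg (s i) := by simp [wal]

lemma av_pi (g : ι → Bool → ℝ) :
    av (fun s : ι → Bool => ∏ i, g i (s i)) = ∏ i, ((g i true + g i false) / 2) := by
  unfold av
  have h := Finset.prod_univ_sum (fun _ : ι => (Finset.univ : Finset Bool)) g
  rw [Fintype.piFinset_univ] at h
  rw [← h, Finset.prod_div_distrib]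
  simp

lemma av_wal_mul (S T : Finset ι) :
    av (fun s : ι → Bool => wal S s * wal T s) = if S = T then 1 else 0 := by
  have h : ∀ s : ι → Bool, wal S s * wal T s =
      ∏ i, ((if i ∈ S then sg (s i) else 1) * (if i ∈ T then sg (s i) else 1)) := by
    intro s
    rw [Finset.prod_mul_distrib, Finset.prod_ite_mem, Finset.prod_ite_mem]
    simp [wal]
  simp_rw [h]
  rw [av_pi (fun i b => (if i ∈ S then sg b else 1) * (if i ∈ T then sg b else 1))]
  split_ifs with hST
  · subst hST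
    refine Finset.prod_eq_one fun i _ => ?_
    by_cases hi : i ∈ S <;> simp [hi, sg]
  · have : ∃ i, ¬ (i ∈ S ↔ i ∈ T) := by
      by_contra hc
      push Not at hc
      exact hST (Finset.ext hc)
    obtain ⟨i, hi⟩ := this
    refine Finset.prod_eq_zero (Finset.mem_univ i) ?_
    by_cases h1 : i ∈ S <;> by_cases h2 : i ∈ T <;> simp_all [sg]

lemma av_sg_mul (i j : ι) :
    av (fun s : ι → Bool => sg (s i) * sg (s j)) = if i = j then 1 else 0 := by
  have h := av_wal_mul ({i} : Finset ι) {j}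
  simp only [wal_singleton, Finset.singleton_inj] at h
  exact h

lemma av_sg (i : ι) : av (fun s : ι → Bool => sg (s i)) = 0 := by
  have h := av_wal_mul ({i} : Finset ι) ∅
  simp only [wal_singleton, Finset.singleton_ne_empty, if_false] at h
  simpa [wal] using h

variable {H : Type} [NormedAddCommGroup H] [InnerProductSpace ℝ H]

lemma av_norm_sq_gen {X κ : Type} [Fintype X] [DecidableEq κ] (t : Finset κ) (e : κ → X → ℝ)
    (he : ∀ a b, av (fun x => e a x * e b x) = if a = b then 1 else 0) (y : κ → H) :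
    av (fun x => ‖∑ a ∈ t, e a x • y a‖ ^ 2) = ∑ a ∈ t, ‖y a‖ ^ 2 := by
  have h : ∀ x, ‖∑ a ∈ t, e a x • y a‖ ^ 2 =
      ∑ a ∈ t, ∑ b ∈ t, inner ℝ (y a) (y b) * (e a x * e b x) := by
    intro x
    rw [← real_inner_self_eq_norm_sq, sum_inner]
    refine Finset.sum_congr rfl fun a _ => ?_
    rw [inner_sum]
    refine Finset.sum_congr rfl fun b _ => ?_
    rw [real_inner_smul_left, real_inner_smul_right]; ring
  simp_rw [h]
  rw [av_sum]
  refine Finset.sum_congr rfl fun a ha => ?_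
  rw [av_sum]
  simp_rw [av_const_mul, he]
  simp [ha]

lemma av_norm_sq_wal (t : Finset (Finset ι)) (y : Finset ι → H) :
    av (fun s : ι → Bool => ‖∑ S ∈ t, wal S s • y S‖ ^ 2) = ∑ S ∈ t, ‖y S‖ ^ 2 :=
  av_norm_sq_gen t (fun S s => wal S s) av_wal_mul y

lemma av_norm_sq_sg (t : Finset ι) (y : ι → H) :
    av (fun s : ι → Bool => ‖∑ i ∈ t, sg (s i) • y i‖ ^ 2) = ∑ i ∈ t, ‖y i‖ ^ 2 :=
  av_norm_sq_gen t (fun i (s : ι → Bool) => sg (s i)) av_sg_mul y

/-- flipping one coordinate -/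
def flipAt (a : ι) : (ι → Bool) ≃ (ι → Bool) where
  toFun s := Function.update s a (!(s a))
  invFun s := Function.update s a (!(s a))
  left_inv s := by ext i; by_cases h : i = a <;> simp [h]
  right_inv s := by ext i; by_cases h : i = a <;> simp [h]

lemma av_norm_four (t : Finset ι) (y : ι → H) :
    av (fun s : ι → Bool => ‖∑ i ∈ t, sg (s i) • y i‖ ^ 4) ≤ 3 * (∑ i ∈ t, ‖y i‖ ^ 2) ^ 2 := by
  induction t using Finset.induction_on with
  | empty => simp [av]
  | insert a t ha ih =>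
    simp_rw [Finset.sum_insert ha]
    set S : (ι → Bool) → H := fun s => ∑ i ∈ t, sg (s i) • y i with hS
    have hfl : ∀ s, S (flipAt a s) = S s := by
      intro s
      refine Finset.sum_congr rfl fun i hi => ?_
      have : i ≠ a := fun h => ha (h ▸ hi)
      simp [flipAt, this]
    have e1 := av_equiv (flipAt a) (fun s => ‖sg (s a) • y a + S s‖ ^ 4)
    have e2 : ∀ s : ι → Bool, (flipAt a s) a = !(s a) := by intro s; simp [flipAt]
    simp_rw [hfl, e2, sg_not] at e1
    have key : ∀ s : ι → Bool, ‖sg (s a) • y a + S s‖ ^ 4 + ‖(-sg (s a)) • y a + S s‖ ^ 4 ≤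
        2 * ‖S s‖ ^ 4 + (12 * ‖y a‖ ^ 2) * ‖S s‖ ^ 2 + 2 * ‖y a‖ ^ 4 := by
      intro s
      have n1 : ‖sg (s a) • y a‖ = ‖y a‖ := by rw [norm_smul, Real.norm_eq_abs, abs_sg, one_mul]
      have a1 := norm_add_sq_real (sg (s a) • y a) (S s)
      have a2 : ‖(-sg (s a)) • y a + S s‖ ^ 2 =
          ‖y a‖ ^ 2 - 2 * inner ℝ (sg (s a) • y a) (S s) + ‖S s‖ ^ 2 := by
        rw [neg_smul, norm_add_sq_real, norm_neg, n1, inner_neg_left]; ring
      rw [n1] at a1
      have c := abs_real_inner_le_norm (sg (s a) • y a) (S s)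
      rw [n1] at c
      have c2 : (inner ℝ (sg (s a) • y a) (S s)) ^ 2 ≤ (‖y a‖ * ‖S s‖) ^ 2 :=
        sq_le_sq' (by linarith [neg_abs_le (inner ℝ (sg (s a) • y a) (S s))])
          (le_trans (le_abs_self _) c)
      have p1 : ‖sg (s a) • y a + S s‖ ^ 4 = (‖sg (s a) • y a + S s‖ ^ 2) ^ 2 := by ring
      have p2 : ‖(-sg (s a)) • y a + S s‖ ^ 4 = (‖(-sg (s a)) • y a + S s‖ ^ 2) ^ 2 := by ring
      rw [p1, p2, a1, a2]
      nlinarith
    have h3 := av_mono key
    rw [av_add, av_add, av_add, av_const_mul, av_const_mul, av_const, e1] at h3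
    have h4 := av_norm_sq_sg t y
    have h5 : av (fun s => ‖S s‖ ^ 2) = ∑ i ∈ t, ‖y i‖ ^ 2 := h4
    have h6 : av (fun s => ‖S s‖ ^ 4) ≤ 3 * (∑ i ∈ t, ‖y i‖ ^ 2) ^ 2 := ih
    rw [h5] at h3
    have : 0 ≤ ‖y a‖ ^ 4 := by positivity
    nlinarith

lemma av_exp_le (y : ι → ℝ) :
    av (fun s : ι → Bool => Real.exp (∑ i, sg (s i) * y i)) ≤ Real.exp ((∑ i, y i ^ 2) / 2) := by
  simp_rw [Real.exp_sum]
  rw [av_pi (fun i b => Real.exp (sg b * y i)), Finset.sum_div, Real.exp_sum]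
  refine Finset.prod_le_prod (fun i _ => by positivity) fun i _ => ?_
  have h := Real.cosh_le_exp_half_sq (y i)
  rw [Real.cosh_eq] at h
  simpa [sg] using h

end walsh

end Pool.Agent.MP_c45dcf_an

end MrgPart0

-- ======== part 1: formerly Pool.Agent.MP_c45dcf_an.Tail
section MrgPart1

/-!
Tail bounds for Rademacher sums and Rademacher quadratic forms, and a sequential
conditioning bound on finite product spaces.
-/

set_option autoImplicit false

namespace Pool.Agent.MP_c45dcf_an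

open Finset

open Classical in
/-- uniform probability of an event in a finite type -/
noncomputable def pr {X : Type} [Fintype X] (P : X → Prop) : ℝ :=
  av (fun x => if P x then (1 : ℝ) else 0)

section pr
variable {X : Type} [Fintype X]

lemma pr_nonneg (P : X → Prop) : 0 ≤ pr P :=
  av_nonneg fun x => by split_ifs <;> norm_num

lemma pr_le_av {P : X → Prop} {f : X → ℝ} (h0 : ∀ x, 0 ≤ f x) (h1 : ∀ x, P x → 1 ≤ f x) :
    pr P ≤ av f := by
  refine av_mono fun x => ?_
  split_ifs with h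
  · exact h1 x h
  · exact h0 x

lemma pr_mono {P Q : X → Prop} (h : ∀ x, P x → Q x) : pr P ≤ pr Q := by
  refine pr_le_av (fun x => by split_ifs <;> norm_num) fun x hx => ?_
  rw [if_pos (h x hx)]

lemma pr_or (P Q : X → Prop) : pr (fun x => P x ∨ Q x) ≤ pr P + pr Q := by
  unfold pr
  rw [← av_add]
  refine av_mono fun x => ?_
  by_cases h1 : P x <;> by_cases h2 : Q x <;> simp [h1, h2]

lemma pr_exists {κ : Type} (t : Finset κ) (P : κ → X → Prop) :
    pr (fun x => ∃ a ∈ t, P a x) ≤ ∑ a ∈ t, pr (P a) := by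
  classical
  unfold pr
  rw [← av_sum]
  refine av_mono fun x => ?_
  split_ifs with h
  · obtain ⟨a, ha, hx⟩ := h
    refine le_trans ?_ (Finset.single_le_sum (f := fun a => if P a x then (1 : ℝ) else 0)
      (fun b _ => by split_ifs <;> norm_num) ha)
    simp [hx]
  · exact Finset.sum_nonneg fun b _ => by split_ifs <;> norm_num

lemma pr_exists_le {κ : Type} (t : Finset κ) (P : κ → X → Prop) {p : ℝ}
    (h : ∀ a ∈ t, pr (P a) ≤ p) : pr (fun x => ∃ a ∈ t, P a x) ≤ t.card * p := by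
  refine (pr_exists t P).trans ?_
  have := Finset.sum_le_card_nsmul t (fun a => pr (P a)) p h
  simpa using this

lemma exists_not_of_pr_lt [Nonempty X] {P : X → Prop} (h : pr P < 1) : ∃ x, ¬ P x := by
  by_contra hc
  push Not at hc
  have : pr P = 1 := by
    unfold pr
    refine Eq.trans ?_ (av_const (X := X) 1)
    congr 1
    funext x
    exact if_pos (hc x)
  linarith

lemma pr_subg {f : X → ℝ} {V t : ℝ} (hV : 0 < V) (ht : 0 ≤ t)
    (h : ∀ l : ℝ, av (fun x => Real.exp (l * f x)) ≤ Real.exp (l ^ 2 * V / 2)) :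
    pr (fun x => t < |f x|) ≤ 2 * Real.exp (-(t ^ 2 / (2 * V))) := by
  have hl : 0 ≤ t / V := div_nonneg ht hV.le
  have e : Real.exp (-(t / V * t)) * Real.exp ((t / V) ^ 2 * V / 2) =
      Real.exp (-(t ^ 2 / (2 * V))) := by
    rw [← Real.exp_add]; congr 1; field_simp; ring
  have h1 := h (t / V)
  have h2 := h (-(t / V))
  rw [neg_sq] at h2
  calc pr (fun x => t < |f x|)
      ≤ av (fun x => Real.exp (-(t / V * t)) * Real.exp (t / V * f x) +
          Real.exp (-(t / V * t)) * Real.exp (-(t / V) * f x)) := by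
        refine pr_le_av (fun x => by positivity) fun x hx => ?_
        rw [← Real.exp_add, ← Real.exp_add]
        rcases lt_abs.mp hx with h' | h'
        · have : 1 ≤ Real.exp (-(t / V * t) + t / V * f x) :=
            Real.one_le_exp (by nlinarith)
          linarith [Real.exp_pos (-(t / V * t) + -(t / V) * f x)]
        · have : 1 ≤ Real.exp (-(t / V * t) + -(t / V) * f x) :=
            Real.one_le_exp (by nlinarith)
          linarith [Real.exp_pos (-(t / V * t) + t / V * f x)]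
    _ ≤ 2 * Real.exp (-(t ^ 2 / (2 * V))) := by
        rw [av_add, av_const_mul, av_const_mul, ← e]
        have := Real.exp_pos (-(t / V * t))
        nlinarith

end pr

section quad
variable {ι : Type} [Fintype ι] [DecidableEq ι]

lemma mgf_lin {y : ι → ℝ} {V : ℝ} (hy : ∑ i, y i ^ 2 ≤ V) (l : ℝ) :
    av (fun s : ι → Bool => Real.exp (l * ∑ i, sg (s i) * y i)) ≤ Real.exp (l ^ 2 * V / 2) := by
  have h := av_exp_le (fun i => l * y i)
  have e : ∀ s : ι → Bool, l * ∑ i, sg (s i) * y i = ∑ i, sg (s i) * (l * y i) := by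
    intro s; rw [Finset.mul_sum]; exact Finset.sum_congr rfl fun i _ => by ring
  simp_rw [e]
  refine h.trans (Real.exp_le_exp.mpr ?_)
  simp_rw [mul_pow]
  rw [← Finset.mul_sum]
  have : 0 ≤ l ^ 2 := sq_nonneg l
  nlinarith

/-- the bilinear form of a matrix on sign vectors -/
def bil (A : ι → ι → ℝ) (s s' : ι → Bool) : ℝ := ∑ c, sg (s c) * ∑ c', A c c' * sg (s' c')

/-- symmetric contraction -/
def Contr (A : ι → ι → ℝ) : Prop :=
  (∀ c c', A c c' = A c' c) ∧ ∀ x : ι → ℝ, ∑ c, (∑ c', A c c' * x c') ^ 2 ≤ ∑ c, x c ^ 2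

omit [DecidableEq ι] in
lemma bil_symm {A : ι → ι → ℝ} (hA : Contr A) (s s' : ι → Bool) : bil A s s' = bil A s' s := by
  unfold bil
  simp_rw [Finset.mul_sum]
  rw [Finset.sum_comm]
  refine Finset.sum_congr rfl fun c _ => Finset.sum_congr rfl fun c' _ => ?_
  rw [hA.1 c' c]; ring

lemma mgf_bil {A : ι → ι → ℝ} (hA : Contr A) (s' : ι → Bool) (l : ℝ) :
    av (fun s : ι → Bool => Real.exp (l * bil A s s')) ≤
      Real.exp (l ^ 2 * (16 * Fintype.card ι) / 2) := by
  refine mgf_lin ?_ l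
  refine (hA.2 _).trans ?_
  simp only [sg_sq, Finset.sum_const, Finset.card_univ, nsmul_eq_mul, mul_one]
  have : (0 : ℝ) ≤ Fintype.card ι := Nat.cast_nonneg _
  linarith

/-- mixing two sign vectors along a third -/
def mixE (t : ι → Bool) : (ι → Bool) × (ι → Bool) ≃ (ι → Bool) × (ι → Bool) where
  toFun p := (fun c => if t c then p.1 c else p.2 c, fun c => if t c then p.2 c else p.1 c)
  invFun p := (fun c => if t c then p.1 c else p.2 c, fun c => if t c then p.2 c else p.1 c)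
  left_inv p := by ext c <;> cases h : t c <;> simp [h]
  right_inv p := by ext c <;> cases h : t c <;> simp [h]

lemma mgf_diag {A : ι → ι → ℝ} (hA : Contr A) (l : ℝ) :
    av (fun s : ι → Bool => Real.exp (l * (bil A s s - ∑ c, A c c))) ≤
      Real.exp (l ^ 2 * (16 * Fintype.card ι) / 2) := by
  set Y : (ι → Bool) → (ι → Bool) → ℝ := fun s t =>
    ∑ c, sg (s c) * ((1 + sg (t c)) * ∑ c', A c c' * ((1 - sg (t c')) * sg (s c'))) with hY
  have h1 : ∀ s : ι → Bool, bil A s s - ∑ c, A c c = av (fun t => Y s t) := by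
    intro s
    have e : ∀ t : ι → Bool, Y s t = ∑ c, ∑ c', (sg (s c) * A c c' * sg (s c')) *
        (1 + (sg (t c) + ((-1) * sg (t c') + (-1) * (sg (t c) * sg (t c'))))) := by
      intro t
      simp only [hY, Finset.mul_sum]
      exact Finset.sum_congr rfl fun c _ => Finset.sum_congr rfl fun c' _ => by ring
    simp_rw [e]
    rw [av_sum]
    simp_rw [av_sum, av_const_mul, av_add, av_const_mul, av_const, av_sg, av_sg_mul]
    unfold bil
    rw [← Finset.sum_sub_distrib]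
    refine Finset.sum_congr rfl fun c _ => ?_
    have e2 : ∀ c', sg (s c) * A c c' * sg (s c') *
        (1 + (0 + (-1 * 0 + -1 * if c = c' then (1 : ℝ) else 0))) =
        sg (s c) * (A c c' * sg (s c')) - if c = c' then A c c else 0 := by
      intro c'
      split_ifs with h
      · subst h
        have := sg_mul_self (s c)
        linear_combination (-A c c) * this
      · ring
    simp_rw [e2]
    rw [Finset.sum_sub_distrib, ← Finset.mul_sum]
    simp
  have h2 : ∀ t : ι → Bool, av (fun s => Real.exp (l * Y s t)) ≤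
      Real.exp (l ^ 2 * (16 * Fintype.card ι) / 2) := by
    intro t
    have e1 : av (fun s => Real.exp (l * Y s t)) =
        av (fun p : (ι → Bool) × (ι → Bool) => Real.exp (l * Y p.1 t)) := by
      rw [av_prod]; simp_rw [av_const]
    rw [e1, ← av_equiv (mixE t), av_prod, av_comm]
    refine av_le_of_le fun s' => ?_
    have e2 : ∀ s : ι → Bool, Y ((mixE t) (s, s')).1 t =
        ∑ c, sg (s c) * ((1 + sg (t c)) * ∑ c', A c c' * ((1 - sg (t c')) * sg (s' c'))) := by
      intro s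
      simp only [hY, mixE, Equiv.coe_fn_mk]
      refine Finset.sum_congr rfl fun c _ => ?_
      have e3 : ∀ c', (1 - sg (t c')) * sg (if t c' = true then s c' else s' c') =
          (1 - sg (t c')) * sg (s' c') := by
        intro c'; cases h : t c' <;> simp [sg]
      simp_rw [e3]
      cases h : t c <;> simp [sg]
    simp_rw [e2]
    refine mgf_lin ?_ l
    have b1 := hA.2 (fun c' => (1 - sg (t c')) * sg (s' c'))
    have b2 : ∑ c, ((1 - sg (t c)) * sg (s' c)) ^ 2 ≤ 4 * (Fintype.card ι : ℝ) := by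
      have : ∀ c, ((1 - sg (t c)) * sg (s' c)) ^ 2 ≤ 4 := by
        intro c; cases t c <;> cases s' c <;> norm_num [sg]
      have h := Finset.sum_le_card_nsmul Finset.univ _ 4 (fun c _ => this c)
      simp only [Finset.card_univ, nsmul_eq_mul] at h
      linarith
    have b3 : ∑ c, ((1 + sg (t c)) * ∑ c', A c c' * ((1 - sg (t c')) * sg (s' c'))) ^ 2 ≤
        4 * ∑ c, (∑ c', A c c' * ((1 - sg (t c')) * sg (s' c'))) ^ 2 := by
      rw [Finset.mul_sum]
      refine Finset.sum_le_sum fun c _ => ?_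
      rw [mul_pow]
      have : (1 + sg (t c)) ^ 2 ≤ 4 := by cases t c <;> norm_num [sg]
      exact mul_le_mul_of_nonneg_right this (sq_nonneg _)
    linarith
  calc av (fun s : ι → Bool => Real.exp (l * (bil A s s - ∑ c, A c c)))
      ≤ av (fun s : ι → Bool => av (fun t => Real.exp (l * Y s t))) := by
        refine av_mono fun s => ?_
        rw [h1, ← av_const_mul]
        exact exp_av_le _
    _ ≤ _ := by rw [av_comm]; exact av_le_of_le h2

end quad

section seq
variable {κ X : Type} [Fintype κ] [DecidableEq κ] [Fintype X] [Nonempty X]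

/-- resampling one coordinate -/
def updE (i : κ) : (κ → X) × X ≃ (κ → X) × X where
  toFun p := (Function.update p.1 i p.2, p.1 i)
  invFun p := (Function.update p.1 i p.2, p.1 i)
  left_inv p := by simp
  right_inv p := by simp

lemma av_update (i : κ) (F : (κ → X) → ℝ) :
    av F = av (fun ω => av (fun x => F (Function.update ω i x))) := by
  have e1 : av F = av (fun p : (κ → X) × X => F p.1) := by
    rw [av_prod]; simp_rw [av_const]
  rw [e1, ← av_equiv (updE i), av_prod]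
  rfl

lemma pr_seq (r : κ → ℤ) (B : κ → (κ → X) → Prop) {p : ℝ} (hp : 0 ≤ p)
    (hdep : ∀ i j, i ≠ j → r i ≤ r j → ∀ ω x, B i (Function.update ω j x) ↔ B i ω)
    (hcond : ∀ i ω, pr (fun x => B i (Function.update ω i x)) ≤ p) (I : Finset κ) :
    pr (fun ω => ∀ i ∈ I, B i ω) ≤ p ^ I.card := by
  classical
  induction I using Finset.induction_on_max_value r with
  | empty =>
    simp only [Finset.card_empty, pow_zero]
    exact av_le_of_le fun x => by split_ifs <;> norm_num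
  | insert a I haI ha ih =>
    rw [Finset.card_insert_of_notMem haI, pow_succ']
    unfold pr at ih ⊢
    rw [av_update a]
    refine le_trans (av_mono (g := fun ω => p * if (∀ i ∈ I, B i ω) then (1 : ℝ) else 0)
      fun ω => ?_) ?_
    · by_cases h : ∀ i ∈ I, B i ω
      · rw [if_pos h, mul_one]
        refine le_trans ?_ (hcond a ω)
        exact pr_mono (P := fun x => ∀ i ∈ insert a I, B i (Function.update ω a x))
          fun x hx => hx a (Finset.mem_insert_self _ _)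
      · rw [if_neg h, mul_zero]
        refine av_le_of_le fun x => ?_
        rw [if_neg]
        intro hx
        exact h fun i hi => (hdep i a (fun h => haI (h ▸ hi)) (ha i hi) ω x).mp (hx i (Finset.mem_insert_of_mem hi))
    · rw [av_const_mul]
      refine mul_le_mul_of_nonneg_left (le_trans (le_of_eq ?_) ih) hp
      congr 1
      funext ω
      by_cases h : ∀ i ∈ I, B i ω
      · rw [if_pos h, if_pos h]
      · rw [if_neg h, if_neg h]

lemma pr_many (r : κ → ℤ) (B : κ → (κ → X) → Prop) {p : ℝ} (hp : 0 ≤ p)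
    (hdep : ∀ i j, i ≠ j → r i ≤ r j → ∀ ω x, B i (Function.update ω j x) ↔ B i ω)
    (hcond : ∀ i ω, pr (fun x => B i (Function.update ω i x)) ≤ p) (m : ℕ) :
    pr (fun ω => ∃ I : Finset κ, I.card = m ∧ ∀ i ∈ I, B i ω) ≤ 2 ^ Fintype.card κ * p ^ m := by
  have h := pr_exists_le (Finset.powersetCard m (Finset.univ : Finset κ))
    (fun I ω => ∀ i ∈ I, B i ω) (p := p ^ m) (fun I hI => by
      have := pr_seq r B hp hdep hcond I
      rwa [(Finset.mem_powersetCard.mp hI).2] at this)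
  refine le_trans (pr_mono fun ω hω => ?_) (h.trans ?_)
  · obtain ⟨I, hI, hB⟩ := hω
    exact ⟨I, Finset.mem_powersetCard.mpr ⟨Finset.subset_univ _, hI⟩, hB⟩
  · refine mul_le_mul_of_nonneg_right ?_ (pow_nonneg hp _)
    rw [Finset.card_powersetCard, Finset.card_univ]
    exact_mod_cast Nat.choose_le_two_pow _ _

end seq

end Pool.Agent.MP_c45dcf_an

end MrgPart1

-- ======== part 2: formerly Pool.Agent.MP_c45dcf_an.FrameSigns
section MrgPart2

/-!
Existence of a family of sign vectors that is generic for all symmetric contractions at once: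
for every such matrix all but few indices see only small off-diagonal and nearly constant
diagonal values.
-/

set_option autoImplicit false

namespace Pool.Agent.MP_c45dcf_an

open Finset

lemma exists_reps {X Y : Type} (P : X → Prop) (cell : X → Y) (t : Finset Y)
    (h : ∀ x, P x → cell x ∈ t) :
    ∃ 𝒩 : Finset X, (∀ x ∈ 𝒩, P x) ∧ 𝒩.card ≤ t.card ∧
      ∀ x, P x → ∃ x' ∈ 𝒩, cell x = cell x' := by
  classical
  by_cases hne : ∃ x, P x
  · obtain ⟨x0, hx0⟩ := hne
    have : ∀ y : Y, ∃ x', P x' ∧ ((∃ x, P x ∧ cell x = y) → cell x' = y) := by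
      intro y
      by_cases hy : ∃ x, P x ∧ cell x = y
      · obtain ⟨x, hx, hxy⟩ := hy
        exact ⟨x, hx, fun _ => hxy⟩
      · exact ⟨x0, hx0, fun h => absurd h hy⟩
    choose g hg1 hg2 using this
    refine ⟨t.image g, ?_, Finset.card_image_le, fun x hx => ?_⟩
    · intro x hx
      obtain ⟨y, _, rfl⟩ := Finset.mem_image.mp hx
      exact hg1 y
    · exact ⟨g (cell x), Finset.mem_image_of_mem _ (h x hx), (hg2 _ ⟨x, hx, rfl⟩).symm⟩
  · exact ⟨∅, by simp, by simp, fun x hx => absurd ⟨x, hx⟩ hne⟩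

lemma Contr.abs_le {ι : Type} [Fintype ι] [DecidableEq ι] {A : ι → ι → ℝ} (hA : Contr A)
    (c c' : ι) : |A c c'| ≤ 1 := by
  have h := hA.2 (fun d => if d = c' then 1 else 0)
  simp only [mul_ite, mul_one, mul_zero, Finset.sum_ite_eq', Finset.mem_univ, if_true, ite_pow,
    one_pow, ne_eq, OfNat.ofNat_ne_zero, not_false_eq_true, zero_pow] at h
  have h2 : A c c' ^ 2 ≤ ∑ d, A d c' ^ 2 :=
    Finset.single_le_sum (f := fun d => A d c' ^ 2) (fun d _ => sq_nonneg _) (Finset.mem_univ c)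
  exact (sq_le_one_iff_abs_le_one _).mp (h2.trans h)

lemma abs_sub_le_of_floor {a b h : ℝ} (hh : 0 < h) (e : ⌊a / h⌋ = ⌊b / h⌋) : |a - b| ≤ h := by
  have h1 := Int.floor_le (a / h)
  have h2 := Int.lt_floor_add_one (a / h)
  have h3 := Int.floor_le (b / h)
  have h4 := Int.lt_floor_add_one (b / h)
  rw [e] at h1 h2
  have ea : a = a / h * h := by field_simp
  have eb : b = b / h * h := by field_simp
  rw [abs_le]
  constructor <;> nlinarith

lemma exists_net (n : ℕ) {h : ℝ} (hh : 0 < h) :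
    ∃ 𝒩 : Finset (Fin n → Fin n → ℝ), (∀ A ∈ 𝒩, Contr A) ∧
      (𝒩.card : ℝ) ≤ (2 / h + 3) ^ (n * n) ∧
      ∀ A, Contr A → ∃ A' ∈ 𝒩, ∀ c c', |A c c' - A' c c'| ≤ h := by
  set H : ℕ := ⌈1 / h⌉₊ with hH
  have hH1 : 1 / h ≤ H := Nat.le_ceil _
  have hH2 : (H : ℝ) < 1 / h + 1 := Nat.ceil_lt_add_one (by positivity)
  obtain ⟨𝒩, h1, h2, h3⟩ := exists_reps (fun A : Fin n → Fin n → ℝ => Contr A)
    (fun A c c' => ⌊A c c' / h⌋)
    (Fintype.piFinset fun _ : Fin n => Fintype.piFinset fun _ : Fin n =>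
      Finset.Icc (-(H : ℤ)) H) (by
      intro A hA
      refine Fintype.mem_piFinset.mpr fun c => Fintype.mem_piFinset.mpr fun c' => ?_
      have hb := abs_le.mp (hA.abs_le c c')
      have l1 : -(1 / h) ≤ A c c' / h := by
        rw [← neg_div]; exact div_le_div_of_nonneg_right hb.1 hh.le
      have l2 : A c c' / h ≤ 1 / h := div_le_div_of_nonneg_right hb.2 hh.le
      refine Finset.mem_Icc.mpr ⟨Int.le_floor.mpr ?_, ?_⟩
      · push_cast; linarith
      · have := Int.floor_le (A c c' / h)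
        have : ((⌊A c c' / h⌋ : ℤ) : ℝ) ≤ ((H : ℤ) : ℝ) := by push_cast; linarith
        exact_mod_cast this)
  refine ⟨𝒩, h1, ?_, fun A hA => ?_⟩
  · simp only [Fintype.card_piFinset, Int.card_Icc, Finset.prod_const, Finset.card_univ,
      Fintype.card_fin] at h2
    have e : ((H : ℤ) + 1 - -(H : ℤ)).toNat = 2 * H + 1 := by omega
    rw [e, ← pow_mul] at h2
    calc (𝒩.card : ℝ) ≤ ((2 * H + 1 : ℕ) : ℝ) ^ (n * n) := by exact_mod_cast h2
      _ ≤ _ := by
        gcongr
        push_cast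
        have : 2 / h = 2 * (1 / h) := by ring
        linarith
  · obtain ⟨A', hA', e⟩ := h3 A hA
    exact ⟨A', hA', fun c c' => abs_sub_le_of_floor hh (congrFun (congrFun e c) c')⟩

lemma abs_bil_sub {n : ℕ} {A A' : Fin n → Fin n → ℝ} {h : ℝ}
    (e : ∀ c c', |A c c' - A' c c'| ≤ h) (s s' : Fin n → Bool) :
    |bil A s s' - bil A' s s'| ≤ n * (n * h) := by
  unfold bil
  rw [← Finset.sum_sub_distrib]
  refine (Finset.abs_sum_le_sum_abs _ _).trans ?_
  have : ∀ c, |sg (s c) * ∑ c', A c c' * sg (s' c') - sg (s c) * ∑ c', A' c c' * sg (s' c')|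
      ≤ n * h := by
    intro c
    rw [← mul_sub, abs_mul, abs_sg, one_mul, ← Finset.sum_sub_distrib]
    refine (Finset.abs_sum_le_sum_abs _ _).trans ?_
    have : ∀ c', |A c c' * sg (s' c') - A' c c' * sg (s' c')| ≤ h := by
      intro c'; rw [← sub_mul, abs_mul, abs_sg, mul_one]; exact e c c'
    simpa using Finset.sum_le_card_nsmul Finset.univ _ h (fun c' _ => this c')
  simpa using Finset.sum_le_card_nsmul Finset.univ _ _ (fun c _ => this c)

/-- the one-sided bad event at an index -/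
def BadAt {κ : Type} {n : ℕ} (r : κ → ℤ) (A : Fin n → Fin n → ℝ) (t : ℝ) (i : κ)
    (ω : κ → Fin n → Bool) : Prop :=
  (∃ j, r j < r i ∧ t < |bil A (ω i) (ω j)|) ∨ t < |bil A (ω i) (ω i) - ∑ c, A c c|

lemma pr_badAt {κ : Type} [Fintype κ] [DecidableEq κ] {n : ℕ} (hn : 0 < n) (r : κ → ℤ)
    {A : Fin n → Fin n → ℝ} (hA : Contr A) {θ : ℝ} (hθ : 0 < θ) (m : ℕ) :
    pr (fun ω : κ → Fin n → Bool => ∃ I : Finset κ, I.card = m ∧ ∀ i ∈ I, BadAt r A (θ * n) i ω)
      ≤ 2 ^ Fintype.card κ *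
        ((Fintype.card κ + 1) * (2 * Real.exp (-(θ ^ 2 * n / 32)))) ^ m := by
  have hn' : (0 : ℝ) < n := by exact_mod_cast hn
  have hV : (0 : ℝ) < 16 * Fintype.card (Fin n) := by rw [Fintype.card_fin]; positivity
  have ht : 0 ≤ θ * n := by positivity
  have ee : -((θ * n) ^ 2 / (2 * (16 * (Fintype.card (Fin n) : ℝ)))) = -(θ ^ 2 * n / 32) := by
    rw [Fintype.card_fin]; field_simp; ring
  refine pr_many r _ (by positivity) ?_ ?_ m
  · intro i j hij hr ω x
    unfold BadAt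
    rw [Function.update_of_ne hij]
    refine or_congr (exists_congr fun j' => and_congr_right fun hj' => ?_) Iff.rfl
    have : j' ≠ j := by rintro rfl; omega
    rw [Function.update_of_ne this]
  · intro i ω
    have h1 : pr (fun x : Fin n → Bool => ∃ j ∈ (Finset.univ : Finset κ),
        θ * n < |bil A x (ω j)|) ≤ (Finset.univ : Finset κ).card *
          (2 * Real.exp (-(θ ^ 2 * n / 32))) := by
      refine pr_exists_le _ _ fun j _ => ?_
      rw [← ee]
      exact pr_subg hV ht (mgf_bil hA (ω j))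
    have h2 : pr (fun x : Fin n → Bool => θ * n < |bil A x x - ∑ c, A c c|) ≤
        2 * Real.exp (-(θ ^ 2 * n / 32)) := by
      rw [← ee]
      exact pr_subg hV ht (mgf_diag hA)
    refine le_trans (pr_mono ?_) ((pr_or _ _).trans (add_le_add h1 h2)) |>.trans ?_
    · intro x hx
      unfold BadAt at hx
      rw [Function.update_self] at hx
      rcases hx with ⟨j, hj, hx⟩ | hx
      · have : j ≠ i := by rintro rfl; omega
        rw [Function.update_of_ne this] at hx
        exact Or.inl ⟨j, Finset.mem_univ _, hx⟩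
      · exact Or.inr hx
    · rw [Finset.card_univ]; apply le_of_eq; ring

lemma exists_large (θ : ℝ) (hθ : 0 < θ) (d n₀ : ℕ) :
    ∃ n : ℕ, n₀ ≤ n ∧ 0 < n ∧ (2 / (θ / n) + 3) * (2 ^ (6 * d) *
      (((6 * (n * n) * d : ℕ) + 1) * (2 * Real.exp (-(θ ^ 2 * n / 32))))) ≤ 1 / 4 := by
  set c : ℝ := θ ^ 2 / 32 with hc
  have hc0 : 0 < c := by positivity
  set C : ℝ := (2 / θ + 3) * (2 ^ (6 * d) * ((6 * d + 1) * 2)) / c ^ 3 with hC
  have hC0 : 0 < C := by positivity
  have h1 : Filter.Tendsto (fun n : ℕ => C * ((c * n) ^ 3 * Real.exp (-(c * n))))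
      Filter.atTop (nhds (C * 0)) :=
    ((Real.tendsto_pow_mul_exp_neg_atTop_nhds_zero 3).comp
      (Filter.Tendsto.const_mul_atTop hc0 tendsto_natCast_atTop_atTop)).const_mul C
  rw [mul_zero] at h1
  have h2 := (h1.eventually (gt_mem_nhds (show (0 : ℝ) < 1 / 4 by norm_num))).and
    ((Filter.eventually_ge_atTop n₀).and (Filter.eventually_ge_atTop 1))
  obtain ⟨n, hn1, hn2, hn3⟩ := h2.exists
  refine ⟨n, hn2, hn3, le_trans ?_ hn1.le⟩
  have hn : (1 : ℝ) ≤ n := by exact_mod_cast hn3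
  have e1 : θ ^ 2 * n / 32 = c * n := by rw [hc]; ring
  have e2 : C * ((c * n) ^ 3 * Real.exp (-(c * n))) =
      ((2 / θ + 3) * n) * (2 ^ (6 * d) * (((6 * d + 1) * (n * n)) *
        (2 * Real.exp (-(c * n))))) := by
    rw [hC]; field_simp
  rw [e1, e2]
  have b1 : 2 / (θ / n) + 3 ≤ (2 / θ + 3) * n := by
    have : 2 / (θ / n) = 2 / θ * n := by field_simp
    rw [this]; nlinarith
  have b2 : (((6 * (n * n) * d : ℕ) : ℝ) + 1) ≤ (6 * d + 1) * (n * n) := by
    push_cast
    nlinarith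
  gcongr

theorem exists_signs (θ : ℝ) (hθ : 0 < θ) (d n₀ : ℕ) :
    ∃ n m : ℕ, n₀ ≤ n ∧ 0 < n ∧ ∃ ω : Fin (6 * m) × Fin d → Fin n → Bool,
      ∀ A : Fin n → Fin n → ℝ, Contr A → ∃ I : Finset (Fin (6 * m) × Fin d), I.card < 2 * m ∧
        ∀ i, i ∉ I → ∀ j,
          |bil A (ω j) (ω i) - if j = i then ∑ c, A c c else 0| ≤ 3 * θ * n := by
  classical
  obtain ⟨n, hn0, hn, hq⟩ := exists_large θ hθ d n₀
  have hn' : (0 : ℝ) < n := by exact_mod_cast hn
  have hn1 : (1 : ℝ) ≤ n := by exact_mod_cast hn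
  refine ⟨n, n * n, hn0, hn, ?_⟩
  set κ := Fin (6 * (n * n)) × Fin d
  have hκ : Fintype.card κ = 6 * (n * n) * d := by simp [κ]
  obtain ⟨𝒩, hN1, hN2, hN3⟩ := exists_net n (h := θ / n) (by positivity)
  set r : κ → ℤ := fun i => ((Fintype.equivFin κ i : ℕ) : ℤ) with hr
  have hrinj : ∀ i j, r i = r j → i = j := by
    intro i j h
    apply (Fintype.equivFin κ).injective
    apply Fin.ext
    simpa [hr] using h
  set p : ℝ := (Fintype.card κ + 1) * (2 * Real.exp (-(θ ^ 2 * n / 32))) with hp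
  have hp0 : 0 ≤ p := by positivity
  have key : pr (fun ω : κ → Fin n → Bool => ∃ A ∈ 𝒩,
      (∃ I : Finset κ, I.card = n * n ∧ ∀ i ∈ I, BadAt r A (θ * n) i ω) ∨
      (∃ I : Finset κ, I.card = n * n ∧ ∀ i ∈ I, BadAt (fun i => - r i) A (θ * n) i ω)) < 1 := by
    refine lt_of_le_of_lt (pr_exists_le 𝒩 _
      (p := 2 * (2 ^ Fintype.card κ * p ^ (n * n))) fun A hA => ?_) ?_
    · refine (pr_or _ _).trans ?_
      have h1 := pr_badAt hn r (hN1 A hA) hθ (n * n)
      have h2 := pr_badAt hn (fun i => - r i) (hN1 A hA) hθ (n * n)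
      linarith
    · have e : (2 : ℝ) ^ Fintype.card κ = (2 ^ (6 * d)) ^ (n * n) := by
        rw [hκ, ← pow_mul]; congr 1; ring
      have hq' : (2 / (θ / n) + 3) * (2 ^ (6 * d) * p) ≤ 1 / 4 := by
        rw [hp, hκ]; exact hq
      have hnn : n * n ≠ 0 := by positivity
      calc (𝒩.card : ℝ) * (2 * (2 ^ Fintype.card κ * p ^ (n * n)))
          ≤ (2 / (θ / n) + 3) ^ (n * n) * (2 * (2 ^ Fintype.card κ * p ^ (n * n))) := by gcongr
        _ = 2 * ((2 / (θ / n) + 3) * (2 ^ (6 * d) * p)) ^ (n * n) := by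
            rw [e]
            generalize (2 / (θ / n) + 3) = u
            generalize (2 : ℝ) ^ (6 * d) = v
            clear_value p
            rw [mul_pow u, mul_pow v]; ring
        _ ≤ 2 * (1 / 4) ^ (n * n) := by gcongr
        _ ≤ 2 * (1 / 4) := by
            gcongr
            exact pow_le_of_le_one (by norm_num) (by norm_num) hnn
        _ < 1 := by norm_num
  obtain ⟨ω, hω⟩ := exists_not_of_pr_lt key
  refine ⟨ω, fun A hA => ?_⟩
  obtain ⟨A', hA', hAA⟩ := hN3 A hA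
  have small : ∀ r' : κ → ℤ,
      ¬ (∃ I : Finset κ, I.card = n * n ∧ ∀ i ∈ I, BadAt r' A' (θ * n) i ω) →
      ∃ I : Finset κ, I.card < n * n ∧ ∀ i, i ∉ I → ¬ BadAt r' A' (θ * n) i ω := by
    intro r' h
    refine ⟨Finset.univ.filter fun i => BadAt r' A' (θ * n) i ω, ?_, fun i hi hb =>
      hi (Finset.mem_filter.mpr ⟨Finset.mem_univ _, hb⟩)⟩
    by_contra hc
    obtain ⟨I, hI, hIc⟩ := Finset.exists_subset_card_eq (not_lt.mp hc)
    exact h ⟨I, hIc, fun i hi => (Finset.mem_filter.mp (hI hi)).2⟩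
  obtain ⟨I1, s1, t1⟩ := small r fun h => hω ⟨A', hA', Or.inl h⟩
  obtain ⟨I2, s2, t2⟩ := small (fun i => - r i) fun h => hω ⟨A', hA', Or.inr h⟩
  refine ⟨I1 ∪ I2, ?_, fun i hi j => ?_⟩
  · refine lt_of_le_of_lt (Finset.card_union_le _ _) ?_
    omega
  · have b1 := t1 i fun h => hi (Finset.mem_union_left _ h)
    have b2 := t2 i fun h => hi (Finset.mem_union_right _ h)
    unfold BadAt at b1 b2
    push Not at b1 b2
    have d1 := abs_bil_sub hAA (ω j) (ω i)
    have e1 : (n : ℝ) * (n * (θ / n)) = θ * n := by field_simp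
    rw [e1] at d1
    have d2 : |∑ c, A c c - ∑ c, A' c c| ≤ θ * n := by
      rw [← Finset.sum_sub_distrib]
      refine (Finset.abs_sum_le_sum_abs _ _).trans ?_
      have := Finset.sum_le_card_nsmul Finset.univ (fun c => |A c c - A' c c|) (θ / n)
        (fun c _ => hAA c c)
      simp only [Finset.card_univ, Fintype.card_fin, nsmul_eq_mul] at this
      have e2 : (n : ℝ) * (θ / n) = θ := by field_simp
      nlinarith
    have hθn : 0 ≤ θ * n := by positivity
    split_ifs with hji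
    · subst hji
      have := b1.2
      rw [abs_le] at *
      constructor <;> linarith [this.1, this.2, d1.1, d1.2, d2.1, d2.2]
    · have b3 : |bil A' (ω i) (ω j)| ≤ θ * n := by
        rcases lt_trichotomy (r j) (r i) with h | h | h
        · exact b1.1 j h
        · exact absurd (hrinj _ _ h) hji
        · exact b2.1 j (by simpa using h)
      rw [bil_symm (hN1 A' hA')] at b3
      rw [abs_le] at *
      constructor <;> linarith [b3.1, b3.2, d1.1, d1.2]

end Pool.Agent.MP_c45dcf_an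

end MrgPart2

-- ======== part 3: formerly Pool.Agent.MP_c45dcf_an.Frame
section MrgPart3

/-!
A family of almost isometric, almost orthogonal copies of a fixed Euclidean space `F` in `ℝⁿ`
such that every pair of subspaces of `ℝⁿ` is in general position to one of the copies.
-/

set_option autoImplicit false

namespace Pool.Agent.MP_c45dcf_an

open Finset

/-- the block `α` is in general position with respect to the subspace `E` -/
def Good {Z F B : Type} [NormedAddCommGroup Z] [InnerProductSpace ℝ Z] [FiniteDimensional ℝ Z]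
    [NormedAddCommGroup F] [InnerProductSpace ℝ F] [DecidableEq B]
    (G : B → F →ₗ[ℝ] Z) (η : ℝ) (E : Submodule ℝ Z) (α : B) : Prop :=
  ∀ β f' f, |inner ℝ (G β f') (E.starProjection (G α f)) -
    (if β = α then (Module.finrank ℝ E : ℝ) / Module.finrank ℝ Z * inner ℝ f' f else 0)|
      ≤ η * ‖f'‖ * ‖f‖

/-- matrix of an orthogonal projection -/
noncomputable def projMat {n : ℕ} (E : Submodule ℝ (EuclideanSpace ℝ (Fin n))) (c c' : Fin n) : ℝ :=
  E.starProjection (EuclideanSpace.single c' (1 : ℝ)) c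

lemma proj_apply {n : ℕ} (E : Submodule ℝ (EuclideanSpace ℝ (Fin n)))
    (x : EuclideanSpace ℝ (Fin n)) (c : Fin n) :
    E.starProjection x c = ∑ c', projMat E c c' * x c' := by
  have h : x = ∑ c', x c' • EuclideanSpace.single c' (1 : ℝ) := by
    ext c
    simp [Pi.single_apply]
  conv_lhs => rw [h]
  rw [map_sum]
  simp [projMat, mul_comm]

lemma contr_projMat {n : ℕ} (E : Submodule ℝ (EuclideanSpace ℝ (Fin n))) : Contr (projMat E) := by
  refine ⟨fun c c' => ?_, fun x => ?_⟩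
  · have h := E.inner_starProjection_left_eq_right (EuclideanSpace.single c' (1 : ℝ))
      (EuclideanSpace.single c (1 : ℝ))
    simpa [projMat, EuclideanSpace.inner_single_left, EuclideanSpace.inner_single_right] using h
  · have h := E.norm_starProjection_apply_le (WithLp.toLp 2 x)
    have h2 := pow_le_pow_left₀ (norm_nonneg _) h 2
    rw [EuclideanSpace.norm_sq_eq, EuclideanSpace.norm_sq_eq] at h2
    simpa [proj_apply] using h2

lemma trace_projMat {n : ℕ} (E : Submodule ℝ (EuclideanSpace ℝ (Fin n))) :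
    ∑ c, projMat E c c = Module.finrank ℝ E := by
  have h : LinearMap.IsProj E (E.starProjection : EuclideanSpace ℝ (Fin n) →ₗ[ℝ] _) :=
    ⟨fun x => E.starProjection_apply_mem x, fun x hx => E.starProjection_eq_self_iff.mpr hx⟩
  rw [← h.trace, LinearMap.trace_eq_sum_inner _ (EuclideanSpace.basisFun (Fin n) ℝ)]
  simp [projMat, EuclideanSpace.inner_single_left]

/-- normalized sign vector -/
noncomputable def svec {n : ℕ} (s : Fin n → Bool) : EuclideanSpace ℝ (Fin n) :=
  WithLp.toLp 2 fun c => (Real.sqrt n)⁻¹ * sg (s c)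

lemma inner_svec {n : ℕ} (hn : 0 < n) (E : Submodule ℝ (EuclideanSpace ℝ (Fin n)))
    (s s' : Fin n → Bool) :
    inner ℝ (svec s) (E.starProjection (svec s')) = bil (projMat E) s s' / n := by
  have hn' : (0 : ℝ) < n := by exact_mod_cast hn
  have hs : (Real.sqrt n)⁻¹ * (Real.sqrt n)⁻¹ = (n : ℝ)⁻¹ := by
    rw [← mul_inv, Real.mul_self_sqrt hn'.le]
  rw [PiLp.inner_apply]
  simp only [proj_apply, svec, bil, conj_trivial, RCLike.inner_apply]
  rw [div_eq_mul_inv, ← hs, Finset.sum_mul]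
  refine Finset.sum_congr rfl fun c _ => ?_
  simp only [Finset.sum_mul, Finset.mul_sum]
  exact Finset.sum_congr rfl fun c' _ => by ring

theorem exists_frame (F : Type) [NormedAddCommGroup F] [InnerProductSpace ℝ F]
    [FiniteDimensional ℝ F] {η : ℝ} (hη : 0 < η) (n₀ : ℕ) :
    ∃ n : ℕ, n₀ ≤ n ∧ ∃ (B : Type) (_ : Fintype B) (_ : DecidableEq B)
      (G : B → F →ₗ[ℝ] EuclideanSpace ℝ (Fin n)),
      (∀ α, Good G η ⊤ α) ∧ ∀ E₀ E₁, ∃ α, Good G η E₀ α ∧ Good G η E₁ α := by
  classical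
  set d := Module.finrank ℝ F with hd
  set θ : ℝ := η / (3 * (d ^ 2 + 1)) with hθ
  have hθ0 : 0 < θ := by positivity
  obtain ⟨n, m, hn0, hn, ω, hω⟩ := exists_signs θ hθ0 d n₀
  have hn' : (0 : ℝ) < n := by exact_mod_cast hn
  set b := stdOrthonormalBasis ℝ F with hb
  let G : Fin (6 * m) → F →ₗ[ℝ] EuclideanSpace ℝ (Fin n) := fun β =>
    ∑ s : Fin d, (innerₛₗ ℝ (b s)).smulRight (svec (ω (β, s)))
  have hG : ∀ β f, G β f = ∑ s : Fin d, inner ℝ (b s) f • svec (ω (β, s)) := by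
    intro β f; simp [G]
  choose I hI1 hI2 using fun E : Submodule ℝ (EuclideanSpace ℝ (Fin n)) =>
    hω (projMat E) (contr_projMat E)
  have good : ∀ E α, (∀ s, (α, s) ∉ I E) → Good G η E α := by
    intro E α hα β f' f
    have e1 : inner ℝ (G β f') (E.starProjection (G α f)) -
        (if β = α then (Module.finrank ℝ E : ℝ) /
          Module.finrank ℝ (EuclideanSpace ℝ (Fin n)) * inner ℝ f' f else 0) =
        ∑ s' : Fin d, ∑ s : Fin d, inner ℝ (b s') f' * inner ℝ (b s) f *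
          ((bil (projMat E) (ω (β, s')) (ω (α, s)) -
            if (β, s') = (α, s) then ∑ c, projMat E c c else 0) / n) := by
      rw [hG, hG, map_sum, sum_inner]
      simp_rw [inner_sum, map_smul, real_inner_smul_left, real_inner_smul_right, inner_svec hn,
        sub_div, mul_sub, Finset.sum_sub_distrib, trace_projMat]
      congr 1
      · exact Finset.sum_congr rfl fun s' _ => Finset.sum_congr rfl fun s _ => by ring
      · rw [finrank_euclideanSpace_fin]
        split_ifs with h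
        · subst h
          rw [← b.sum_inner_mul_inner f' f, Finset.mul_sum]
          refine Finset.sum_congr rfl fun s' _ => ?_
          simp only [Prod.mk.injEq, true_and, ite_div, zero_div, mul_ite, mul_zero,
            Finset.sum_ite_eq, Finset.mem_univ, if_true]
          rw [real_inner_comm f' (b s')]; ring
        · simp [h]
    rw [e1]
    have bd : ∀ s' s : Fin d, |inner ℝ (b s') f' * inner ℝ (b s) f *
        ((bil (projMat E) (ω (β, s')) (ω (α, s)) -
          if (β, s') = (α, s) then ∑ c, projMat E c c else 0) / n)| ≤ ‖f'‖ * ‖f‖ * (3 * θ) := by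
      intro s' s
      rw [abs_mul, abs_mul, abs_div, abs_of_pos hn']
      have h1 : |inner ℝ (b s') f'| ≤ ‖f'‖ := by
        simpa [b.orthonormal.1 s'] using abs_real_inner_le_norm (b s') f'
      have h2 : |inner ℝ (b s) f| ≤ ‖f‖ := by
        simpa [b.orthonormal.1 s] using abs_real_inner_le_norm (b s) f
      have h3 := (div_le_iff₀ hn').mpr (hI2 E (α, s) (hα s) (β, s'))
      gcongr
    refine (Finset.abs_sum_le_sum_abs _ _).trans ?_
    have s1 : ∀ s' : Fin d, |∑ s : Fin d, inner ℝ (b s') f' * inner ℝ (b s) f *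
        ((bil (projMat E) (ω (β, s')) (ω (α, s)) -
          if (β, s') = (α, s) then ∑ c, projMat E c c else 0) / n)| ≤
          d * (‖f'‖ * ‖f‖ * (3 * θ)) := by
      intro s'
      refine (Finset.abs_sum_le_sum_abs _ _).trans ?_
      have := Finset.sum_le_card_nsmul Finset.univ _ _ (fun s _ => bd s' s)
      rwa [Finset.card_univ, Fintype.card_fin, nsmul_eq_mul] at this
    have s2 := Finset.sum_le_card_nsmul Finset.univ _ _ (fun s' _ => s1 s')
    rw [Finset.card_univ, Fintype.card_fin, nsmul_eq_mul] at s2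
    refine s2.trans ?_
    have e2 : (d : ℝ) * (d * (‖f'‖ * ‖f‖ * (3 * θ))) =
        (η * ‖f'‖ * ‖f‖) * (d ^ 2 / (d ^ 2 + 1)) := by
      rw [hθ]; field_simp
    rw [e2]
    refine mul_le_of_le_one_right (by positivity) ?_
    rw [div_le_one (by positivity)]; linarith
  refine ⟨n, hn0, {β : Fin (6 * m) // ∀ s, (β, s) ∉ I ⊤}, inferInstance, inferInstance,
    fun β => G β.1, fun α β f' f => ?_, fun E₀ E₁ => ?_⟩
  · have := good ⊤ α.1 α.2 β.1 f' f
    simpa only [Subtype.ext_iff] using this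
  · have hc : ((I ⊤ ∪ I E₀ ∪ I E₁).image Prod.fst).card < (Finset.univ : Finset (Fin (6 * m))).card := by
      refine lt_of_le_of_lt Finset.card_image_le ?_
      have h1 := Finset.card_union_le (I ⊤ ∪ I E₀) (I E₁)
      have h2 := Finset.card_union_le (I ⊤) (I E₀)
      have := hI1 ⊤
      have := hI1 E₀
      have := hI1 E₁
      rw [Finset.card_univ, Fintype.card_fin]
      omega
    obtain ⟨α, -, hα⟩ := Finset.exists_mem_notMem_of_card_lt_card hc
    have hα' : ∀ s, (α, s) ∉ I ⊤ ∪ I E₀ ∪ I E₁ := fun s hs =>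
      hα (Finset.mem_image.mpr ⟨(α, s), hs, rfl⟩)
    simp only [Finset.mem_union, not_or] at hα'
    refine ⟨⟨α, fun s => (hα' s).1.1⟩, fun β f' f => ?_, fun β f' f => ?_⟩
    · have := good E₀ α (fun s => (hα' s).1.2) β.1 f' f
      simpa only [Subtype.ext_iff] using this
    · have := good E₁ α (fun s => (hα' s).2) β.1 f' f
      simpa only [Subtype.ext_iff] using this

end Pool.Agent.MP_c45dcf_an

end MrgPart3

-- ======== part 4: formerly Pool.Agent.MP_c45dcf_an.Spec
section MrgPart4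

/-!
Statements of the independent modules of the counterexample.
-/

set_option autoImplicit false

namespace Pool.Agent.MP_c45dcf_an

open Finset

/-- normalized Rademacher average of `k` vectors -/
noncomputable def rad {V : Type} [AddCommGroup V] [Module ℝ V] {k : ℕ} (m : Fin k → V)
    (s : Fin k → Bool) : V := (1 / (k : ℝ)) • ∑ i, sg (s i) • m i

/-- uniform approximation property of spaces at bounded distance from a Euclidean space,
for two norms at once, relative to a subspace `B` of codimension at most `k` -/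
def CutStmt : Prop := ∀ (k : ℕ) (D : ℝ), 0 < D → ∃ K : ℕ, ∀ (H : Type) [NormedAddCommGroup H]
  [InnerProductSpace ℝ H] [FiniteDimensional ℝ H] (p q : Seminorm ℝ H) (B : Submodule ℝ H),
  (∀ x, ‖x‖ ≤ D * p x) → (∀ x, p x ≤ D * ‖x‖) → (∀ x, ‖x‖ ≤ D * q x) → (∀ x, q x ≤ D * ‖x‖) →
  Module.finrank ℝ H ≤ Module.finrank ℝ B + k → K ≤ Module.finrank ℝ H →
  ∃ (A : Submodule ℝ H) (T : H →ₗ[ℝ] H), Module.finrank ℝ A = K ∧ (∀ x, T x ∈ A) ∧
    (∀ x, x - T x ∈ B) ∧ (∀ x, p (T x) ≤ 3 * p x) ∧ (∀ x, q (T x) ≤ 3 * q x)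

/-- finitely many functionals describe, up to the Euclidean norm, all seminorms below `D ‖x‖` -/
def TypesStmt : Prop := ∀ (K : ℕ) (D : ℝ), 0 < D →
  ∃ 𝒩 : Finset (EuclideanSpace ℝ (Fin K)), (∀ φ ∈ 𝒩, ‖φ‖ ≤ D) ∧
    ∀ p : Seminorm ℝ (EuclideanSpace ℝ (Fin K)), (∀ x, p x ≤ D * ‖x‖) →
      ∃ τ ⊆ 𝒩, (∀ φ ∈ τ, ∀ x, |inner ℝ φ x| ≤ p x + ‖x‖) ∧
        ∀ x (a : ℝ), 0 ≤ a → (∀ φ ∈ τ, |inner ℝ φ x| ≤ a) → p x ≤ a + ‖x‖

/-- the local block: an extension `F` of `M` in which Rademacher averages have cheap lifts -/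
def LocalStmt : Prop := ∀ δ r : ℝ, 0 < δ → 0 < r → r ≤ 1 → ∃ Λ D₀ : ℝ, 1 ≤ Λ ∧
  ∀ (D : ℝ) (k : ℕ), D₀ ≤ D → 0 < D → (k : ℝ) = D ^ 2 →
  ∀ (M : Type) [NormedAddCommGroup M] [InnerProductSpace ℝ M] [FiniteDimensional ℝ M]
    (sl : Seminorm ℝ M) (Φ : Finset M), (∀ φ ∈ Φ, ‖φ‖ ≤ D) →
    (∀ φ ∈ Φ, ∀ w, |inner ℝ φ w| ≤ sl w) →
    (∀ w (a : ℝ), 0 ≤ a → (∀ φ ∈ Φ, |inner ℝ φ w| ≤ a) → sl w ≤ a) →
  ∃ (F : Type) (_ : NormedAddCommGroup F) (_ : InnerProductSpace ℝ F) (_ : FiniteDimensional ℝ F)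
    (pM : F →ₗ[ℝ] M) (iM : M →ₗ[ℝ] F) (ν : Seminorm ℝ F),
    (∀ w, pM (iM w) = w) ∧ (∀ f, ‖pM f‖ ≤ ‖f‖) ∧ (∀ w, ‖iM w‖ ≤ ‖w‖) ∧
    (∀ f, ‖f‖ ≤ Λ * ν f) ∧ (∀ f, ‖pM f‖ ≤ r * ν f) ∧ (∀ f, sl (pM f) ≤ ν f + ‖f‖) ∧
    ∀ c : Fin k → M, (∀ i, sl (c i) ≤ 2) → (∀ i, ‖c i‖ ≤ 4) →
      ∃ ρ : (Fin k → Bool) → F, (∀ i, ∑ s : Fin k → Bool, sg (s i) • ρ s = 0) ∧
        av (fun s => ν (iM (rad c s) + ρ s)) ≤ δ

/-- two nonnegative functionals are equivalent up to a linear isomorphism -/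
def Equi {V V' : Type} [AddCommGroup V] [Module ℝ V] [AddCommGroup V'] [Module ℝ V']
    (p : V → ℝ) (p' : V' → ℝ) (C : ℝ) : Prop :=
  ∃ e : V ≃ₗ[ℝ] V', (∀ x, p' (e x) ≤ C * p x) ∧ ∀ x, p x ≤ C * p' (e x)

/-- swap and shift: a chain of norms on a common piece `R` is absorbed by a sum of blocks -/
def SwindleStmt : Prop := ∀ (c : ℝ), 1 ≤ c → ∀ (Idx R V : Type) [Fintype Idx] [DecidableEq Idx]
  [NormedAddCommGroup R] [InnerProductSpace ℝ R] [AddCommGroup V] [Module ℝ V]
  (ντ : Idx → R → ℝ) (om : PiLp 2 (fun _ : Idx => R) → ℝ) (J : ℕ) (s : Fin (J + 1) → Idx)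
  (ι : R →ₗ[ℝ] V) (T : V →ₗ[ℝ] R) (N : ℕ → Seminorm ℝ V),
  (∀ w (a : ℝ), om w ≤ a ↔ ‖w‖ ≤ a ∧ ∀ i, ντ i (w i) ≤ a) →
  Function.Injective s →
  (∀ j x, N (j + 1) x ≤ N j x) → (∀ j x, N j x ≤ 2 * N (j + 1) x) →
  (∀ (j : Fin (J + 1)) y, ‖y‖ ≤ c * N j (ι y)) →
  (∀ (j : Fin (J + 1)) y, ντ (s j) y ≤ c * N j (ι y)) →
  (∀ (j : Fin (J + 1)) y, N j (ι y) ≤ c * max ‖y‖ (ντ (s j) y)) →
  (∀ x, N 0 (x - ι (T x)) = N J (x - ι (T x))) →
  (∀ x, N 0 (ι (T x)) ≤ 3 * N 0 x) → (∀ x, N J (ι (T x)) ≤ 3 * N J x) →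
  Equi (fun z : PiLp 2 (fun _ : Idx => R) × V => max (om z.1) (N 0 z.2))
    (fun z : PiLp 2 (fun _ : Idx => R) × V => max (om z.1) (N J z.2)) (100 * c ^ 3)

end Pool.Agent.MP_c45dcf_an

end MrgPart4

-- ======== part 5: formerly Pool.Agent.MP_c45dcf_an.Zspace
section MrgPart5

/-!
The norm of the saturated space `Z`: the gauge of the convex hull of a Euclidean ball cut by
slabs and of spikes placed in the blocks of a frame.
-/

set_option autoImplicit false

namespace Pool.Agent.MP_c45dcf_an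

open Finset

lemma le_mul_of_forall_gt {X C q : ℝ} (hC : 0 ≤ C) (h : ∀ a, q < a → X ≤ C * a) : X ≤ C * q := by
  by_contra hc
  push Not at hc
  have h1 := h (q + (X - C * q) / (2 * (C + 1))) (by
    have : 0 < (X - C * q) / (2 * (C + 1)) := div_pos (by linarith) (by positivity)
    linarith)
  have e : C * ((X - C * q) / (2 * (C + 1))) = (X - C * q) * (C / (2 * (C + 1))) := by ring
  have : C / (2 * (C + 1)) < 1 := by rw [div_lt_one (by positivity)]; linarith
  nlinarith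

lemma seminorm_sum_le {V ι : Type} [AddCommGroup V] [Module ℝ V] (p : Seminorm ℝ V)
    (t : Finset ι) (f : ι → V) : p (∑ i ∈ t, f i) ≤ ∑ i ∈ t, p (f i) :=
  Finset.le_sum_of_subadditive p (map_zero p).le (map_add_le_add p) t f

section quot
variable {V Z : Type} [AddCommGroup V] [Module ℝ V] [AddCommGroup Z] [Module ℝ Z]

lemma quot_bdd (Γ : V →ₗ[ℝ] Z) (p : Seminorm ℝ V) (z : Z) : BddBelow (p '' {v | Γ v = z}) :=
  ⟨0, by rintro _ ⟨v, -, rfl⟩; exact apply_nonneg p v⟩

lemma quot_lt (Γ : V →ₗ[ℝ] Z) (hΓ : Function.Surjective Γ) (p : Seminorm ℝ V) {z : Z} {a : ℝ}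
    (h : sInf (p '' {v | Γ v = z}) < a) : ∃ v, Γ v = z ∧ p v < a := by
  obtain ⟨v, hv⟩ := hΓ z
  obtain ⟨_, ⟨w, hw, rfl⟩, h2⟩ := exists_lt_of_csInf_lt (s := p '' {v | Γ v = z}) ⟨p v, v, hv, rfl⟩ h
  exact ⟨w, hw, h2⟩

/-- quotient seminorm -/
noncomputable def quotSemi (Γ : V →ₗ[ℝ] Z) (hΓ : Function.Surjective Γ) (p : Seminorm ℝ V) :
    Seminorm ℝ Z :=
  Seminorm.ofSMulLE (fun z => sInf (p '' {v | Γ v = z}))
    (le_antisymm (csInf_le (quot_bdd Γ p 0) ⟨0, by simp, map_zero p⟩)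
      (le_csInf ⟨p 0, 0, by simp, rfl⟩ (by rintro _ ⟨v, -, rfl⟩; exact apply_nonneg p v)))
    (by
      intro x y
      refine le_of_forall_pos_le_add fun ε hε => ?_
      obtain ⟨v, hv, h1⟩ := quot_lt Γ hΓ p (z := x) (lt_add_of_pos_right _ (half_pos hε))
      obtain ⟨w, hw, h2⟩ := quot_lt Γ hΓ p (z := y) (lt_add_of_pos_right _ (half_pos hε))
      have h3 : sInf (p '' {u | Γ u = x + y}) ≤ p (v + w) :=
        csInf_le (quot_bdd Γ p _) ⟨v + w, by simp [hv, hw], rfl⟩
      linarith [map_add_le_add p v w])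
    (by
      intro c x
      refine le_mul_of_forall_gt (norm_nonneg c) fun a ha => ?_
      obtain ⟨v, hv, h1⟩ := quot_lt Γ hΓ p ha
      have h3 : sInf (p '' {u | Γ u = c • x}) ≤ p (c • v) :=
        csInf_le (quot_bdd Γ p _) ⟨c • v, by simp [hv], rfl⟩
      rw [map_smul_eq_mul] at h3
      exact h3.trans (mul_le_mul_of_nonneg_left h1.le (norm_nonneg c)))

lemma quotSemi_le (Γ : V →ₗ[ℝ] Z) (hΓ : Function.Surjective Γ) (p : Seminorm ℝ V) (v : V) :
    quotSemi Γ hΓ p (Γ v) ≤ p v := csInf_le (quot_bdd Γ p _) ⟨v, rfl, rfl⟩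

lemma quotSemi_lt (Γ : V →ₗ[ℝ] Z) (hΓ : Function.Surjective Γ) (p : Seminorm ℝ V) {z : Z} {a : ℝ}
    (h : quotSemi Γ hΓ p z < a) : ∃ v, Γ v = z ∧ p v < a := quot_lt Γ hΓ p h

end quot

/-- the data of the construction -/
structure Blk (Z F M B : Type) [NormedAddCommGroup Z] [InnerProductSpace ℝ Z]
    [FiniteDimensional ℝ Z] [NormedAddCommGroup F] [InnerProductSpace ℝ F]
    [NormedAddCommGroup M] [InnerProductSpace ℝ M] [DecidableEq B] where
  G : B → F →ₗ[ℝ] Z
  pM : F →ₗ[ℝ] M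
  iM : M →ₗ[ℝ] F
  ν : Seminorm ℝ F
  sl : Seminorm ℝ M
  D : ℝ
  Λ : ℝ
  r : ℝ
  η : ℝ
  pi : ∀ w, pM (iM w) = w
  p_le : ∀ f, ‖pM f‖ ≤ ‖f‖
  i_le : ∀ w, ‖iM w‖ ≤ ‖w‖
  hΛ : ∀ f, ‖f‖ ≤ Λ * ν f
  hr : ∀ f, ‖pM f‖ ≤ r * ν f
  hs : ∀ f, sl (pM f) ≤ ν f + ‖f‖
  hD : ∀ w, sl w ≤ D * ‖w‖
  one_le : 1 ≤ Λ
  le_D : Λ ≤ D
  r_pos : 0 < r
  r_le : r ≤ 1
  η_pos : 0 < η
  small : η * D * Λ ≤ 1 / 10
  pos : 0 < Module.finrank ℝ Z
  good : ∀ α, Good G η ⊤ α

variable {Z F M B : Type} [NormedAddCommGroup Z] [InnerProductSpace ℝ Z]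
  [FiniteDimensional ℝ Z] [NormedAddCommGroup F] [InnerProductSpace ℝ F] [FiniteDimensional ℝ F]
  [NormedAddCommGroup M] [InnerProductSpace ℝ M] [DecidableEq B]

omit [FiniteDimensional ℝ F] in
lemma norm_le_of_inner {v : F} {a : ℝ} (ha : 0 ≤ a) (h : inner ℝ v v ≤ ‖v‖ * a) : ‖v‖ ≤ a := by
  rw [real_inner_self_eq_norm_sq] at h
  by_contra hc
  push Not at hc
  nlinarith

lemma Good.adj {G : B → F →ₗ[ℝ] Z} {η : ℝ} (hη : 0 ≤ η) {E : Submodule ℝ Z} {α : B}
    (h : Good G η E α) (β : B) (f : F) :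
    ‖LinearMap.adjoint (G β) (E.starProjection (G α f)) -
      (if β = α then ((Module.finrank ℝ E : ℝ) / Module.finrank ℝ Z) • f else 0)‖ ≤ η * ‖f‖ := by
  refine norm_le_of_inner (by positivity) ?_
  set v := LinearMap.adjoint (G β) (E.starProjection (G α f)) -
      (if β = α then ((Module.finrank ℝ E : ℝ) / Module.finrank ℝ Z) • f else 0) with hv
  have h1 := h β v f
  have e : inner ℝ v v = inner ℝ (G β v) (E.starProjection (G α f)) -
      (if β = α then (Module.finrank ℝ E : ℝ) / Module.finrank ℝ Z * inner ℝ v f else 0) := by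
    conv_lhs => rw [hv, inner_sub_right, ← hv, LinearMap.adjoint_inner_right]
    split_ifs
    · rw [real_inner_smul_right]
    · rw [inner_zero_right]
  rw [e]
  refine (le_abs_self _).trans (h1.trans (le_of_eq ?_))
  ring

lemma Good.adj' {G : B → F →ₗ[ℝ] Z} {η : ℝ} (hη : 0 ≤ η) {E : Submodule ℝ Z} {α : B}
    (h : Good G η E α) (β : B) (f : F) :
    ‖LinearMap.adjoint (G α) (E.starProjection (G β f)) -
      (if β = α then ((Module.finrank ℝ E : ℝ) / Module.finrank ℝ Z) • f else 0)‖ ≤ η * ‖f‖ := by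
  refine norm_le_of_inner (by positivity) ?_
  set v := LinearMap.adjoint (G α) (E.starProjection (G β f)) -
      (if β = α then ((Module.finrank ℝ E : ℝ) / Module.finrank ℝ Z) • f else 0) with hv
  have h1 := h β f v
  have e : inner ℝ v v = inner ℝ (G β f) (E.starProjection (G α v)) -
      (if β = α then (Module.finrank ℝ E : ℝ) / Module.finrank ℝ Z * inner ℝ f v else 0) := by
    conv_lhs => rw [hv, inner_sub_right, ← hv, LinearMap.adjoint_inner_right,
      ← E.inner_starProjection_left_eq_right, real_inner_comm]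
    split_ifs
    · rw [real_inner_smul_right, real_inner_comm f v]
    · rw [inner_zero_right]
  rw [e]
  refine (le_abs_self _).trans (h1.trans (le_of_eq ?_))
  ring

namespace Blk
variable (X : Blk Z F M B)

/-- adjoint of the block embedding -/
noncomputable def Gs (β : B) : Z →ₗ[ℝ] F := LinearMap.adjoint (X.G β)

/-- the `M`-coordinates of a vector in block `β` -/
noncomputable def π (β : B) : Z →ₗ[ℝ] M := X.pM ∘ₗ X.Gs β

lemma π_apply (β : B) (z : Z) : X.π β z = X.pM (X.Gs β z) := rfl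

lemma inner_Gs (β : B) (f : F) (z : Z) : inner ℝ f (X.Gs β z) = inner ℝ (X.G β f) z :=
  LinearMap.adjoint_inner_right _ _ _

omit [FiniteDimensional ℝ F] in
lemma one_le_D : 1 ≤ X.D := X.one_le.trans X.le_D

omit [FiniteDimensional ℝ F] in
lemma small1 : X.η * X.D ≤ 1 / 10 := by
  have h1 := X.small
  have h2 := X.one_le
  have h3 : 0 ≤ X.η * X.D := mul_nonneg X.η_pos.le (by linarith [X.one_le_D])
  nlinarith

omit [FiniteDimensional ℝ F] in
lemma small2 : X.η * X.Λ ≤ 1 / 10 := by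
  have h1 := X.small1
  have h2 := X.le_D
  have h3 := X.η_pos
  nlinarith

omit [FiniteDimensional ℝ F] in
lemma small3 : X.η * X.Λ * X.Λ ≤ 1 / 10 := by
  have h1 := X.small
  have h2 := X.le_D
  have h3 := X.η_pos
  have h4 := X.one_le
  have : X.η * X.Λ * X.Λ ≤ X.η * X.D * X.Λ := by gcongr
  linarith

omit [FiniteDimensional ℝ F] in
lemma η_le : X.η ≤ 1 / 10 := by
  have h1 := X.small1
  have h2 := X.one_le_D
  have h3 := X.η_pos
  nlinarith

omit [FiniteDimensional ℝ F] in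
include X in
lemma tau_top : (Module.finrank ℝ (⊤ : Submodule ℝ Z) : ℝ) / Module.finrank ℝ Z = 1 := by
  rw [finrank_top, div_self]
  exact_mod_cast X.pos.ne'

omit [FiniteDimensional ℝ F] in
lemma coh_inner (β γ : B) (f' f : F) :
    |inner ℝ (X.G β f') (X.G γ f) - (if β = γ then inner ℝ f' f else 0)| ≤ X.η * ‖f'‖ * ‖f‖ := by
  have h := X.good γ β f' f
  rwa [X.tau_top, one_mul, Submodule.starProjection_top, ContinuousLinearMap.id_apply] at h

lemma coh (β γ : B) (f : F) :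
    ‖X.Gs β (X.G γ f) - (if β = γ then f else 0)‖ ≤ X.η * ‖f‖ := by
  have h := (X.good γ).adj X.η_pos.le β f
  rwa [X.tau_top, one_smul, Submodule.starProjection_top, ContinuousLinearMap.id_apply] at h

lemma coh_π (β γ : B) (f : F) :
    ‖X.π β (X.G γ f) - (if β = γ then X.pM f else 0)‖ ≤ X.η * ‖f‖ := by
  refine le_trans (le_of_eq ?_) ((X.p_le _).trans (X.coh β γ f))
  rw [map_sub, π_apply]
  split_ifs <;> simp

omit [FiniteDimensional ℝ F] in
lemma norm_G_le (β : B) (f : F) : ‖X.G β f‖ ≤ 2 * ‖f‖ := by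
  have h := X.coh_inner β β f f
  rw [if_pos rfl, real_inner_self_eq_norm_sq, real_inner_self_eq_norm_sq] at h
  have h1 := (abs_le.mp h).2
  have h2 := X.η_le
  refine (pow_le_pow_iff_left₀ (norm_nonneg _) (by positivity) two_ne_zero).mp ?_
  nlinarith [sq_nonneg ‖f‖]

lemma norm_Gs_le (β : B) (z : Z) : ‖X.Gs β z‖ ≤ 2 * ‖z‖ := by
  refine norm_le_of_inner (by positivity) ?_
  rw [X.inner_Gs]
  refine (real_inner_le_norm _ _).trans ?_
  have := X.norm_G_le β (X.Gs β z)
  nlinarith [norm_nonneg z]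

lemma norm_π_le (β : B) (z : Z) : ‖X.π β z‖ ≤ 2 * ‖z‖ := (X.p_le _).trans (X.norm_Gs_le β z)

omit [FiniteDimensional ℝ F] in
lemma norm_sum_G_sq (t : Finset B) (ht : t.card * X.η ≤ 1) (f : B → F) :
    ‖∑ β ∈ t, X.G β (f β)‖ ^ 2 ≤ 2 * ∑ β ∈ t, ‖f β‖ ^ 2 := by
  rw [← real_inner_self_eq_norm_sq, sum_inner]
  simp_rw [inner_sum]
  have h1 : ∀ β ∈ t, ∑ γ ∈ t, inner ℝ (X.G β (f β)) (X.G γ (f γ)) ≤
      ‖f β‖ ^ 2 + X.η * ∑ γ ∈ t, ‖f β‖ * ‖f γ‖ := by
    intro β hβ
    have h2 : ∀ γ ∈ t, inner ℝ (X.G β (f β)) (X.G γ (f γ)) ≤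
        (if β = γ then inner ℝ (f β) (f γ) else 0) + X.η * (‖f β‖ * ‖f γ‖) := by
      intro γ _
      have := (abs_le.mp (X.coh_inner β γ (f β) (f γ))).2
      linarith
    refine (Finset.sum_le_sum h2).trans (le_of_eq ?_)
    rw [Finset.sum_add_distrib, Finset.sum_ite_eq, if_pos hβ, real_inner_self_eq_norm_sq,
      Finset.mul_sum]
  refine (Finset.sum_le_sum h1).trans ?_
  rw [Finset.sum_add_distrib, ← Finset.mul_sum, ← Finset.sum_mul_sum, ← sq]
  have h3 : (∑ β ∈ t, ‖f β‖) ^ 2 ≤ t.card * ∑ β ∈ t, ‖f β‖ ^ 2 := sq_sum_le_card_mul_sum_sq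
  have h4 : 0 ≤ ∑ β ∈ t, ‖f β‖ ^ 2 := Finset.sum_nonneg fun _ _ => sq_nonneg _
  have := X.η_pos
  nlinarith

lemma sum_Gs_sq (t : Finset B) (ht : t.card * X.η ≤ 1) (z : Z) :
    ∑ β ∈ t, ‖X.Gs β z‖ ^ 2 ≤ 2 * ‖z‖ ^ 2 := by
  set S := ∑ β ∈ t, ‖X.Gs β z‖ ^ 2 with hS
  have h1 : S = inner ℝ (∑ β ∈ t, X.G β (X.Gs β z)) z := by
    rw [sum_inner]
    exact Finset.sum_congr rfl fun β _ => by rw [← X.inner_Gs, real_inner_self_eq_norm_sq]
  have h2 := X.norm_sum_G_sq t ht (fun β => X.Gs β z)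
  have h3 := real_inner_le_norm (∑ β ∈ t, X.G β (X.Gs β z)) z
  rw [← hS] at h2
  nlinarith [sq_nonneg (‖∑ β ∈ t, X.G β (X.Gs β z)‖ - 2 * ‖z‖)]

lemma sum_sum_Gs_sq {ι : Type} [Fintype ι] (x : ι → Z) (t : Finset B) (ht : t.card * X.η ≤ 1) :
    ∑ β ∈ t, ∑ i, ‖X.Gs β (x i)‖ ^ 2 ≤ 2 * ∑ i, ‖x i‖ ^ 2 := by
  rw [Finset.sum_comm, Finset.mul_sum]
  exact Finset.sum_le_sum fun i _ => X.sum_Gs_sq t ht (x i)

lemma exists_relevant [Fintype B] {ι : Type} [Fintype ι] (x : ι → Z) {a : ℝ} (R : ℕ)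
    (hR : (R + 1) * X.η ≤ 1) (ha : 2 * ∑ i, ‖x i‖ ^ 2 ≤ a * (R + 1)) :
    ∃ t : Finset B, t.card ≤ R ∧ (∀ β ∈ t, a < ∑ i, ‖X.Gs β (x i)‖ ^ 2) ∧
      ∀ β, β ∉ t → ∑ i, ‖X.Gs β (x i)‖ ^ 2 ≤ a := by
  refine ⟨Finset.univ.filter fun β => a < ∑ i, ‖X.Gs β (x i)‖ ^ 2, ?_,
    fun β hβ => (Finset.mem_filter.mp hβ).2,
    fun β hβ => not_lt.mp fun h => hβ (Finset.mem_filter.mpr ⟨Finset.mem_univ _, h⟩)⟩
  by_contra hc
  obtain ⟨t, ht, htc⟩ := Finset.exists_subset_card_eq (Nat.succ_le_of_lt (not_le.mp hc))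
  have h1 := X.sum_sum_Gs_sq x t (by rw [htc]; push_cast; exact hR)
  have h2 : ∑ _β ∈ t, a < ∑ β ∈ t, ∑ i, ‖X.Gs β (x i)‖ ^ 2 :=
    Finset.sum_lt_sum_of_nonempty (Finset.card_pos.mp (by rw [htc]; exact Nat.succ_pos _))
      fun β hβ => (Finset.mem_filter.mp (ht hβ)).2
  rw [Finset.sum_const, htc, nsmul_eq_mul] at h2
  push_cast at h2
  linarith

variable [Fintype B]

/-- Euclidean ball cut by the slabs -/
noncomputable def base : Seminorm ℝ Z :=
  normSeminorm ℝ Z ⊔ Finset.univ.sup fun β => X.sl.comp (X.π β)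

lemma norm_le_base (z : Z) : ‖z‖ ≤ X.base z := le_max_left _ _

lemma sl_le_base (β : B) (z : Z) : X.sl (X.π β z) ≤ X.base z :=
  le_trans (Seminorm.le_finset_sup_apply (p := fun β => X.sl.comp (X.π β)) (x := z)
    (Finset.mem_univ β)) (le_max_right _ _)

lemma base_le {z : Z} {a : ℝ} (h1 : ‖z‖ ≤ a) (h2 : ∀ β, X.sl (X.π β z) ≤ a) : X.base z ≤ a :=
  max_le h1 (Seminorm.finset_sup_apply_le ((norm_nonneg z).trans h1) fun β _ => h2 β)

/-- the sum map -/
noncomputable def Γ : Z × (B → F) →ₗ[ℝ] Z :=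
  LinearMap.fst ℝ Z (B → F) + ∑ β, X.G β ∘ₗ LinearMap.proj β ∘ₗ LinearMap.snd ℝ Z (B → F)

omit [FiniteDimensional ℝ F] in
lemma Γ_apply (b : Z) (f : B → F) : X.Γ (b, f) = b + ∑ β, X.G β (f β) := by
  simp [Γ]

omit [FiniteDimensional ℝ F] in
lemma Γ_surj : Function.Surjective X.Γ := fun z => ⟨(z, 0), by simp [Γ_apply]⟩

/-- cost of a decomposition -/
noncomputable def cost : Seminorm ℝ (Z × (B → F)) :=
  X.base.comp (LinearMap.fst ℝ Z (B → F)) +
    ∑ β, X.ν.comp (LinearMap.proj β ∘ₗ LinearMap.snd ℝ Z (B → F))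

lemma cost_apply (b : Z) (f : B → F) : X.cost (b, f) = X.base b + ∑ β, X.ν (f β) := by
  simp [cost]

/-- the norm of `Z` -/
noncomputable def nZ : Seminorm ℝ Z := quotSemi X.Γ X.Γ_surj X.cost

lemma nZ_le (b : Z) (f : B → F) :
    X.nZ (b + ∑ β, X.G β (f β)) ≤ X.base b + ∑ β, X.ν (f β) := by
  rw [← Γ_apply, ← cost_apply]; exact quotSemi_le _ _ _ _

lemma nZ_dec {z : Z} {a : ℝ} (h : X.nZ z < a) : ∃ (b : Z) (f : B → F),
    z = b + ∑ β, X.G β (f β) ∧ X.base b ≤ a ∧ ∑ β, X.ν (f β) ≤ a := by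
  obtain ⟨⟨b, f⟩, h1, h2⟩ := quotSemi_lt _ _ _ h
  rw [Γ_apply] at h1
  rw [cost_apply] at h2
  have h3 : 0 ≤ ∑ β, X.ν (f β) := Finset.sum_nonneg fun _ _ => apply_nonneg _ _
  have h4 := apply_nonneg X.base b
  exact ⟨b, f, h1.symm, by linarith, by linarith⟩

lemma nZ_le_base (z : Z) : X.nZ z ≤ X.base z := by simpa using X.nZ_le z 0

lemma nZ_G_le (β : B) (f : F) : X.nZ (X.G β f) ≤ X.ν f := by
  have h := X.nZ_le 0 (Pi.single β f)
  have e1 : ∑ γ, X.G γ ((Pi.single β f : B → F) γ) = X.G β f := by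
    rw [Finset.sum_eq_single β] <;> simp +contextual
  have e2 : ∑ γ, X.ν ((Pi.single β f : B → F) γ) = X.ν f := by
    rw [Finset.sum_eq_single β] <;> simp +contextual
  rwa [e1, e2, zero_add, map_zero, zero_add] at h

lemma nZ_upper (z : Z) : X.nZ z ≤ 2 * X.D * ‖z‖ := by
  have h := X.one_le_D
  refine (X.nZ_le_base z).trans (X.base_le (by nlinarith [norm_nonneg z]) fun β => ?_)
  refine (X.hD _).trans ?_
  nlinarith [X.norm_π_le β z]

omit [FiniteDimensional ℝ F] in
lemma sum_norm_le {f : B → F} {a : ℝ} (h : ∑ β, X.ν (f β) ≤ a) (t : Finset B) :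
    ∑ β ∈ t, ‖f β‖ ≤ X.Λ * a := by
  have h0 := X.one_le
  calc ∑ β ∈ t, ‖f β‖ ≤ ∑ β, ‖f β‖ :=
        Finset.sum_le_sum_of_subset_of_nonneg (Finset.subset_univ _) fun _ _ _ => norm_nonneg _
    _ ≤ ∑ β, X.Λ * X.ν (f β) := Finset.sum_le_sum fun β _ => X.hΛ _
    _ ≤ X.Λ * a := by rw [← Finset.mul_sum]; gcongr

omit [FiniteDimensional ℝ F] in
lemma norm_sum_G_le {f : B → F} {a : ℝ} (h : ∑ β, X.ν (f β) ≤ a) (t : Finset B) :
    ‖∑ β ∈ t, X.G β (f β)‖ ≤ 2 * X.Λ * a := by
  refine (norm_sum_le _ _).trans ((Finset.sum_le_sum fun β _ => X.norm_G_le β _).trans ?_)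
  rw [← Finset.mul_sum]
  linarith [X.sum_norm_le h t]

lemma nZ_lower (z : Z) : ‖z‖ ≤ 3 * X.Λ * X.nZ z := by
  have h0 := X.one_le
  refine le_mul_of_forall_gt (by positivity) fun a ha => ?_
  have ha0 : 0 ≤ a := (apply_nonneg _ _).trans ha.le
  obtain ⟨b, f, rfl, h1, h2⟩ := X.nZ_dec ha
  refine (norm_add_le _ _).trans ?_
  have h3 := X.norm_le_base b
  have h4 := X.norm_sum_G_le h2 Finset.univ
  nlinarith

omit [Fintype B] in
lemma π_sum_sub (β : B) (t : Finset B) (f : B → F) :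
    ‖X.π β (∑ γ ∈ t, X.G γ (f γ)) - (if β ∈ t then X.pM (f β) else 0)‖ ≤
      X.η * ∑ γ ∈ t, ‖f γ‖ := by
  rw [map_sum, ← Finset.sum_ite_eq t β (fun γ => X.pM (f γ)), ← Finset.sum_sub_distrib,
    Finset.mul_sum]
  exact (norm_sum_le _ _).trans (Finset.sum_le_sum fun γ _ => X.coh_π β γ (f γ))

end Blk

end Pool.Agent.MP_c45dcf_an

end MrgPart5

-- ======== part 6: formerly Pool.Agent.MP_c45dcf_an.Local
section MrgPart6

/-!
The local block. Riesz products give lifts of Rademacher averages with small norm whose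
degree one part vanishes.
-/

set_option autoImplicit false

namespace Pool.Agent.MP_c45dcf_an

open Finset

lemma sum_eq_zero_of_av {X : Type} [Fintype X] [Nonempty X] {f : X → ℝ} (h : av f = 0) :
    ∑ x, f x = 0 := by
  unfold av at h
  have : (Fintype.card X : ℝ) ≠ 0 := by exact_mod_cast Fintype.card_ne_zero
  rcases div_eq_zero_iff.mp h with h | h
  · exact h
  · exact absurd h this

lemma av_rad_sq {H : Type} [NormedAddCommGroup H] [InnerProductSpace ℝ H] {k : ℕ}
    (c : Fin k → H) : av (fun s => ‖rad c s‖ ^ 2) = (1 / (k : ℝ)) ^ 2 * ∑ i, ‖c i‖ ^ 2 := by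
  rw [← av_norm_sq_sg, ← av_const_mul]
  congr 1
  funext s
  rw [rad, norm_smul, mul_pow, Real.norm_eq_abs, sq_abs]

lemma av_rad_four {H : Type} [NormedAddCommGroup H] [InnerProductSpace ℝ H] {k : ℕ}
    (c : Fin k → H) :
    av (fun s => ‖rad c s‖ ^ 4) ≤ 3 * ((1 / (k : ℝ)) ^ 2 * ∑ i, ‖c i‖ ^ 2) ^ 2 := by
  have h := av_norm_four Finset.univ c
  have e : (fun s => ‖rad c s‖ ^ 4) =
      fun s : Fin k → Bool => (1 / (k : ℝ)) ^ 4 * ‖∑ i, sg (s i) • c i‖ ^ 4 := by
    funext s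
    rw [rad, norm_smul, mul_pow, Real.norm_eq_abs, abs_of_nonneg (by positivity)]
  rw [e, av_const_mul]
  calc _ ≤ (1 / (k : ℝ)) ^ 4 * (3 * (∑ i, ‖c i‖ ^ 2) ^ 2) := by gcongr
    _ = _ := by ring

lemma av_rad_le {H : Type} [NormedAddCommGroup H] [InnerProductSpace ℝ H] {k : ℕ} {D a : ℝ}
    (hD : 0 < D) (hk : (k : ℝ) = D ^ 2) (ha : 0 < a) (c : Fin k → H) (hc : ∀ i, ‖c i‖ ≤ a) :
    av (fun s => ‖rad c s‖) ≤ a / D := by
  refine av_le_of_sq (by positivity) ?_
  rw [av_rad_sq]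
  have h : ∑ i, ‖c i‖ ^ 2 ≤ k * a ^ 2 := by
    have := Finset.sum_le_card_nsmul Finset.univ (fun i => ‖c i‖ ^ 2) (a ^ 2)
      (fun i _ => pow_le_pow_left₀ (norm_nonneg _) (hc i) 2)
    rwa [Finset.card_univ, Fintype.card_fin, nsmul_eq_mul] at this
  calc _ ≤ (1 / (k : ℝ)) ^ 2 * (k * a ^ 2) := by gcongr
    _ = (a / D) ^ 2 := by rw [hk]; field_simp

lemma riesz {ι : Type} [Fintype ι] [DecidableEq ι] (x : ι → ℝ) :
    |∑ S : Finset ι, (Complex.I ^ S.card).im * ∏ i ∈ S, x i| ≤ Real.exp ((∑ i, x i ^ 2) / 2) := by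
  have h : (∏ i, (1 + (x i : ℂ) * Complex.I)).im =
      ∑ S : Finset ι, (Complex.I ^ S.card).im * ∏ i ∈ S, x i := by
    rw [Finset.prod_one_add, Finset.powerset_univ, Complex.im_sum]
    refine Finset.sum_congr rfl fun S _ => ?_
    rw [Finset.prod_mul_distrib, Finset.prod_const, ← Complex.ofReal_prod, Complex.im_ofReal_mul,
      mul_comm]
  rw [← h]
  refine (Complex.abs_im_le_norm _).trans ?_
  rw [norm_prod, Finset.sum_div, Real.exp_sum]
  refine Finset.prod_le_prod (fun i _ => norm_nonneg _) fun i _ => ?_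
  refine (pow_le_pow_iff_left₀ (norm_nonneg _) (Real.exp_pos _).le two_ne_zero).mp ?_
  rw [← Real.exp_nat_mul, Complex.sq_norm, Complex.normSq_apply]
  have := Real.add_one_le_exp (x i ^ 2)
  have e : ((2 : ℕ) : ℝ) * (x i ^ 2 / 2) = x i ^ 2 := by push_cast; ring
  rw [e]
  simp
  nlinarith

lemma abs_im_I_pow (j : ℕ) : |(Complex.I ^ j).im| ≤ 1 := by
  refine (Complex.abs_im_le_norm _).trans ?_
  simp

lemma sum_split_one {ι : Type} [Fintype ι] [DecidableEq ι] (g : Finset ι → ℝ) :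
    ∑ S, g S = ∑ i, g {i} + ∑ S ∈ Finset.univ.filter (fun S : Finset ι => ¬ S.card = 1), g S := by
  rw [← Finset.sum_filter_add_sum_filter_not Finset.univ (fun S : Finset ι => S.card = 1)]
  congr 1
  have : Finset.univ.filter (fun S : Finset ι => S.card = 1) =
      Finset.univ.image (fun i : ι => ({i} : Finset ι)) := by
    ext S
    simp [Finset.card_eq_one, eq_comm]
  rw [this, Finset.sum_image (fun a _ b _ h => Finset.singleton_injective h)]

section fock
variable {M : Type} [NormedAddCommGroup M] [InnerProductSpace ℝ M] {d : ℕ}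
  (b : OrthonormalBasis (Fin d) ℝ M)

lemma sum_words {j : ℕ} (x y : Fin j → M) :
    ∑ ω : Fin j → Fin d, (∏ t, inner ℝ (b (ω t)) (x t)) * (∏ t, inner ℝ (b (ω t)) (y t)) =
      ∏ t, inner ℝ (x t) (y t) := by
  have h := Finset.prod_univ_sum (fun _ : Fin j => (Finset.univ : Finset (Fin d)))
    (fun t a => inner ℝ (x t) (b a) * inner ℝ (b a) (y t))
  rw [Fintype.piFinset_univ] at h
  simp_rw [b.sum_inner_mul_inner] at h
  rw [h]
  refine Finset.sum_congr rfl fun ω _ => ?_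
  rw [← Finset.prod_mul_distrib]
  exact Finset.prod_congr rfl fun t _ => by rw [real_inner_comm (x t)]

/-- words of length at most `k` -/
abbrev Word (k d : ℕ) : Type := Σ j : Fin (k + 1), (Fin j → Fin d)

/-- feature vector of a functional -/
noncomputable def feat (k : ℕ) (φ : M) : EuclideanSpace ℝ (Word k d) :=
  WithLp.toLp 2 fun p => (1 / 2) * ∏ t, inner ℝ (b (p.2 t)) φ

/-- tensor product of the vectors indexed by `S` -/
noncomputable def tens {k : ℕ} (c : Fin k → M) (S : Finset (Fin k)) :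
    EuclideanSpace ℝ (Word k d) :=
  WithLp.toLp 2 fun p =>
    if h : S.card = p.1 then ∏ t, inner ℝ (b (p.2 t)) (c (S.orderEmbOfFin h t)) else 0

lemma prod_orderEmb {k j : ℕ} (S : Finset (Fin k)) (h : S.card = j) (g : Fin k → ℝ) :
    ∏ t, g (S.orderEmbOfFin h t) = ∏ i ∈ S, g i := by
  conv_rhs => rw [← Finset.map_orderEmbOfFin_univ S h]
  rw [Finset.prod_map]
  rfl

lemma card_lt {k : ℕ} (S : Finset (Fin k)) : S.card < k + 1 := by
  have := Finset.card_le_univ S
  rw [Fintype.card_fin] at this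
  omega

lemma norm_feat_le (k : ℕ) {φ : M} (hφ : ‖φ‖ ≤ 1 / 2) : ‖feat b k φ‖ ≤ 1 := by
  refine (sq_le_one_iff₀ (norm_nonneg _)).mp ?_
  rw [← real_inner_self_eq_norm_sq, PiLp.inner_apply, Fintype.sum_sigma]
  have h : ∀ j : Fin (k + 1), ∑ ω : Fin j → Fin d,
      inner ℝ (feat b k φ ⟨j, ω⟩) (feat b k φ ⟨j, ω⟩) ≤ (1 / 4) * (1 / 2) ^ (j : ℕ) := by
    intro j
    have h1 := sum_words b (fun _ : Fin j => φ) (fun _ => φ)
    have e : ∀ ω : Fin j → Fin d, inner ℝ (feat b k φ ⟨j, ω⟩) (feat b k φ ⟨j, ω⟩) =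
        (1 / 4) * ((∏ t, inner ℝ (b (ω t)) φ) * (∏ t, inner ℝ (b (ω t)) φ)) := by
      intro ω; simp only [feat, RCLike.inner_apply, conj_trivial]; ring
    simp_rw [e]
    rw [← Finset.mul_sum, h1, Finset.prod_const, Finset.card_univ, Fintype.card_fin,
      real_inner_self_eq_norm_sq]
    have : ‖φ‖ ^ 2 ≤ 1 / 2 := by nlinarith [norm_nonneg φ]
    gcongr
  refine (Finset.sum_le_sum fun j _ => h j).trans ?_
  rw [← Finset.mul_sum, Fin.sum_univ_eq_sum_range (fun j => (1 / 2 : ℝ) ^ j)]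
  have := sum_geometric_two_le (k + 1)
  linarith

lemma inner_feat_tens {k : ℕ} (φ : M) (c : Fin k → M) (S : Finset (Fin k)) :
    inner ℝ (feat b k φ) (tens b c S) = (1 / 2) * ∏ i ∈ S, inner ℝ φ (c i) := by
  rw [PiLp.inner_apply, Fintype.sum_sigma, Finset.sum_eq_single (⟨S.card, card_lt S⟩ : Fin (k + 1))]
  · rw [← prod_orderEmb S rfl, ← sum_words b (fun _ : Fin S.card => φ), Finset.mul_sum]
    refine Finset.sum_congr rfl fun ω _ => ?_
    simp only [feat, tens, RCLike.inner_apply, conj_trivial, dif_pos]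
    ring
  · intro j _ hj
    refine Finset.sum_eq_zero fun ω _ => ?_
    have : ¬ S.card = j := fun h => hj (Fin.ext h.symm)
    simp [tens, this]
  · simp

lemma norm_tens_sq {k : ℕ} (c : Fin k → M) (S : Finset (Fin k)) :
    ‖tens b c S‖ ^ 2 = ∏ i ∈ S, ‖c i‖ ^ 2 := by
  rw [← real_inner_self_eq_norm_sq, PiLp.inner_apply, Fintype.sum_sigma,
    Finset.sum_eq_single (⟨S.card, card_lt S⟩ : Fin (k + 1))]
  · simp_rw [← real_inner_self_eq_norm_sq]
    rw [← prod_orderEmb S rfl (fun i => inner ℝ (c i) (c i)), ← sum_words b]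
    refine Finset.sum_congr rfl fun ω _ => ?_
    simp only [tens, RCLike.inner_apply, conj_trivial, dif_pos]
  · intro j _ hj
    refine Finset.sum_eq_zero fun ω _ => ?_
    have : ¬ S.card = j := fun h => hj (Fin.ext h.symm)
    simp [tens, this]
  · simp

end fock

theorem localStmt : LocalStmt := by
  intro δ r hδ hr hr1
  set L : ℝ := 9 / δ with hL
  have hL0 : 0 < L := by positivity
  set Λ : ℝ := 6 / (δ * L) * Real.exp (32 * L ^ 2) with hΛ
  have hΛ0 : 0 < Λ := by positivity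
  refine ⟨Λ + 1, max (12 / (r * δ)) (2 * L), by linarith, ?_⟩
  intro D k hD0 hD hk M _ _ _ sl Φ hΦ hsl1 hsl2
  have hD1 : 12 / (r * δ) ≤ D := le_trans (le_max_left _ _) hD0
  have hD2 : 2 * L ≤ D := le_trans (le_max_right _ _) hD0
  have hk0 : (0 : ℝ) < k := by rw [hk]; positivity
  set b := stdOrthonormalBasis ℝ M with hb
  let U := EuclideanSpace ℝ (Word k (Module.finrank ℝ M))
  let ψ : M → U := fun φ => feat b k ((1 / (2 * D)) • φ)
  have hψ : ∀ φ ∈ Φ, ‖ψ φ‖ ≤ 1 := by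
    intro φ hφ
    refine norm_feat_le b k ?_
    rw [norm_smul, Real.norm_eq_abs, abs_of_pos (by positivity)]
    calc 1 / (2 * D) * ‖φ‖ ≤ 1 / (2 * D) * D := by gcongr; exact hΦ φ hφ
      _ = 1 / 2 := by field_simp
  let F := WithLp 2 (M × U)
  let pM : F →ₗ[ℝ] M := WithLp.fstₗ 2 ℝ M U
  let pU : F →ₗ[ℝ] U := WithLp.sndₗ 2 ℝ M U
  let iM : M →ₗ[ℝ] F := (WithLp.linearEquiv 2 ℝ (M × U)).symm.toLinearMap ∘ₗ LinearMap.inl ℝ M U
  let ℓ : M → F →ₗ[ℝ] ℝ := fun φ => innerₛₗ ℝ φ ∘ₗ pM + innerₛₗ ℝ (ψ φ) ∘ₗ pU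
  let A : Seminorm ℝ F := Φ.sup fun φ => (normSeminorm ℝ ℝ).comp (ℓ φ)
  let ν : Seminorm ℝ F := A + (normSeminorm ℝ U).comp ((1 / Λ) • pU) +
    (normSeminorm ℝ M).comp ((1 / r) • pM)
  have hν : ∀ f, ν f = A f + ‖pU f‖ / Λ + ‖pM f‖ / r := by
    intro f
    simp only [ν, add_apply, Seminorm.comp_apply, coe_normSeminorm, LinearMap.smul_apply,
      norm_smul, Real.norm_eq_abs, abs_of_pos (one_div_pos.mpr hΛ0),
      abs_of_pos (one_div_pos.mpr hr)]
    ring
  have hA1 : ∀ φ ∈ Φ, ∀ f, |inner ℝ φ (pM f) + inner ℝ (ψ φ) (pU f)| ≤ A f := by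
    intro φ hφ f
    exact Seminorm.le_finset_sup_apply (p := fun φ => (normSeminorm ℝ ℝ).comp (ℓ φ)) (x := f) hφ
  have hA2 : ∀ f (a : ℝ), 0 ≤ a →
      (∀ φ ∈ Φ, |inner ℝ φ (pM f) + inner ℝ (ψ φ) (pU f)| ≤ a) → A f ≤ a := by
    intro f a ha h
    exact Seminorm.finset_sup_apply_le ha h
  have n1 : ∀ f, ‖pM f‖ ≤ ‖f‖ := fun f => WithLp.norm_fst_le M f
  have n2 : ∀ f, ‖pU f‖ ≤ ‖f‖ := fun f => WithLp.norm_snd_le M f
  have n3 : ∀ f, ‖f‖ ≤ ‖pM f‖ + ‖pU f‖ := by
    intro f
    have h : ‖f‖ ^ 2 = ‖pM f‖ ^ 2 + ‖pU f‖ ^ 2 := WithLp.prod_norm_sq_eq_of_L2 f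
    refine (pow_le_pow_iff_left₀ (norm_nonneg _) (by positivity) two_ne_zero).mp ?_
    nlinarith [norm_nonneg (pM f), norm_nonneg (pU f)]
  have m1 : ∀ f, ‖pM f‖ ≤ r * ν f := by
    intro f
    have h0 := apply_nonneg A f
    have h1 : 0 ≤ ‖pU f‖ / Λ := by positivity
    have : ‖pM f‖ / r ≤ ν f := by rw [hν]; linarith
    rwa [div_le_iff₀' hr] at this
  have m2 : ∀ f, ‖pU f‖ ≤ Λ * ν f := by
    intro f
    have h0 := apply_nonneg A f
    have h1 : 0 ≤ ‖pM f‖ / r := by positivity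
    have : ‖pU f‖ / Λ ≤ ν f := by rw [hν]; linarith
    rwa [div_le_iff₀' hΛ0] at this
  have m3 : ∀ f, A f ≤ ν f := by
    intro f
    have h1 : 0 ≤ ‖pM f‖ / r := by positivity
    have h2 : 0 ≤ ‖pU f‖ / Λ := by positivity
    rw [hν]; linarith
  refine ⟨F, inferInstance, inferInstance, inferInstance, pM, iM, ν, fun w => rfl, n1,
    fun w => (WithLp.norm_toLp_fst 2 M U w).le, fun f => ?_, m1, fun f => ?_, fun c hc1 hc2 => ?_⟩
  · have := apply_nonneg ν f
    nlinarith [n3 f, m1 f, m2 f]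
  · refine hsl2 _ _ (by positivity) fun φ hφ => ?_
    have h1 := hA1 φ hφ f
    have h2 : |inner ℝ (ψ φ) (pU f)| ≤ ‖f‖ := by
      refine (abs_real_inner_le_norm _ _).trans ?_
      calc ‖ψ φ‖ * ‖pU f‖ ≤ 1 * ‖f‖ := by gcongr; exacts [hψ φ hφ, n2 f]
        _ = ‖f‖ := one_mul _
    have h3 := m3 f
    rw [abs_le] at *
    constructor <;> linarith [h1.1, h1.2, h2.1, h2.2]
  · let 𝒮 := Finset.univ.filter (fun S : Finset (Fin k) => ¬ S.card = 1)
    let c' : Fin k → M := fun i => (2 * D * L / k) • c i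
    let y : Finset (Fin k) → U := fun S => (2 / L * (Complex.I ^ S.card).im) • tens b c' S
    let u : (Fin k → Bool) → U := fun s => ∑ S ∈ 𝒮, wal S s • y S
    let iU : U →ₗ[ℝ] F :=
      (WithLp.linearEquiv 2 ℝ (M × U)).symm.toLinearMap ∘ₗ LinearMap.inr ℝ M U
    have p1 : ∀ s, pM (iM (rad c s) + iU (u s)) = rad c s := by
      intro s; rw [map_add]; exact add_zero _
    have p2 : ∀ s, pU (iM (rad c s) + iU (u s)) = u s := by
      intro s; rw [map_add]; exact zero_add _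
    refine ⟨fun s => iU (u s), fun i => ?_, ?_⟩
    · simp_rw [← map_smul]
      rw [← map_sum]
      have : ∑ s : Fin k → Bool, sg (s i) • u s = 0 := by
        simp only [u, Finset.smul_sum, smul_smul]
        rw [Finset.sum_comm]
        refine Finset.sum_eq_zero fun S hS => ?_
        rw [← Finset.sum_smul]
        have h := av_wal_mul ({i} : Finset (Fin k)) S
        rw [if_neg (by rintro rfl; simp [𝒮] at hS)] at h
        have h2 := sum_eq_zero_of_av h
        simp only [wal_singleton] at h2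
        rw [h2, zero_smul]
      rw [this, map_zero]
    · simp_rw [hν, p1, p2]
      rw [av_add, av_add]
      have b1 : av (fun s => A (iM (rad c s) + iU (u s))) ≤ δ / 3 := by
        refine av_le_of_le fun s => hA2 _ _ (by positivity) fun φ hφ => ?_
        rw [p1, p2]
        set x : Fin k → ℝ := fun i => sg (s i) * (L / k * inner ℝ φ (c i)) with hx
        have e1 : inner ℝ φ (rad c s) + inner ℝ (ψ φ) (u s) =
            (1 / L) * ∑ S : Finset (Fin k), (Complex.I ^ S.card).im * ∏ i ∈ S, x i := by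
          rw [sum_split_one, mul_add]
          congr 1
          · simp only [rad, real_inner_smul_right, inner_sum, Finset.card_singleton, pow_one,
              Complex.I_im, Finset.prod_singleton, one_mul, hx, Finset.mul_sum]
            refine Finset.sum_congr rfl fun i _ => ?_
            field_simp
          · rw [show u s = ∑ S ∈ 𝒮, wal S s • y S from rfl, inner_sum, Finset.mul_sum]
            refine Finset.sum_congr rfl fun S _ => ?_
            rw [real_inner_smul_right, show y S = (2 / L * (Complex.I ^ S.card).im) •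
              tens b c' S from rfl, real_inner_smul_right,
              show inner ℝ (ψ φ) (tens b c' S) = _ from inner_feat_tens b _ c' S]
            have e2 : ∀ i, inner ℝ ((1 / (2 * D)) • φ) (c' i) = L / k * inner ℝ φ (c i) := by
              intro i
              simp only [c', real_inner_smul_left, real_inner_smul_right]
              field_simp
            simp_rw [e2, hx]
            rw [Finset.prod_mul_distrib (f := fun i => sg (s i)), wal]
            field_simp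
        rw [e1, abs_mul, abs_of_pos (by positivity)]
        have h1 := riesz x
        have h2 : (∑ i, x i ^ 2) / 2 ≤ 1 := by
          have h3 : ∀ i, x i ^ 2 ≤ (L / k * 2) ^ 2 := by
            intro i
            have h4 : |inner ℝ φ (c i)| ≤ 2 := (hsl1 φ hφ _).trans (hc1 i)
            rw [hx]
            simp only [mul_pow, sg_sq, one_mul]
            rw [← sq_abs (inner ℝ φ (c i))]
            gcongr
          have h5 := Finset.sum_le_card_nsmul Finset.univ _ _ (fun i _ => h3 i)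
          rw [Finset.card_univ, Fintype.card_fin, nsmul_eq_mul] at h5
          have e3 : (k : ℝ) * (L / k * 2) ^ 2 = (2 * L) ^ 2 / k := by field_simp
          have h6 : (2 * L) ^ 2 / k ≤ 1 := by
            rw [div_le_one hk0, hk]; gcongr
          linarith
        have h7 : Real.exp ((∑ i, x i ^ 2) / 2) ≤ 3 :=
          (Real.exp_le_exp.mpr h2).trans (Real.exp_one_lt_d9.le.trans (by norm_num))
        calc 1 / L * |∑ S : Finset (Fin k), (Complex.I ^ S.card).im * ∏ i ∈ S, x i|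
            ≤ 1 / L * 3 := by gcongr; exact h1.trans h7
          _ = δ / 3 := by rw [hL]; field_simp; norm_num
      have b2 : av (fun s => ‖u s‖ / Λ) ≤ δ / 3 := by
        have h1 : av (fun s => ‖u s‖) ≤ 2 / L * Real.exp (32 * L ^ 2) := by
          refine av_le_of_sq (by positivity) ?_
          have h2 : av (fun s => ‖u s‖ ^ 2) = ∑ S ∈ 𝒮, ‖y S‖ ^ 2 := av_norm_sq_wal 𝒮 y
          rw [h2]
          have h3 : ∀ S, ‖y S‖ ^ 2 ≤ (2 / L) ^ 2 * ∏ _i ∈ S, (64 * L ^ 2 / k) := by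
            intro S
            simp only [y]
            rw [norm_smul, mul_pow, norm_tens_sq, Real.norm_eq_abs, abs_mul,
              abs_of_pos (by positivity : 0 < 2 / L)]
            have h4 := abs_im_I_pow S.card
            have h5 : (2 / L * |(Complex.I ^ S.card).im|) ^ 2 ≤ (2 / L) ^ 2 := by
              gcongr
              exact mul_le_of_le_one_right (by positivity) h4
            refine mul_le_mul h5 (Finset.prod_le_prod (fun i _ => by positivity) fun i _ => ?_)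
              (Finset.prod_nonneg fun i _ => by positivity) (by positivity)
            simp only [c']
            rw [norm_smul, Real.norm_eq_abs, abs_of_pos (by positivity)]
            calc (2 * D * L / k * ‖c i‖) ^ 2 ≤ (2 * D * L / k * 4) ^ 2 := by gcongr; exact hc2 i
              _ = 64 * L ^ 2 / k := by rw [hk]; field_simp; ring
          calc ∑ S ∈ 𝒮, ‖y S‖ ^ 2 ≤ ∑ S, ‖y S‖ ^ 2 :=
                Finset.sum_le_sum_of_subset_of_nonneg (Finset.subset_univ _)
                  fun _ _ _ => by positivity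
            _ ≤ ∑ S : Finset (Fin k), (2 / L) ^ 2 * ∏ _i ∈ S, (64 * L ^ 2 / k) :=
                Finset.sum_le_sum fun S _ => h3 S
            _ = (2 / L) ^ 2 * ∏ _i : Fin k, (1 + 64 * L ^ 2 / k) := by
                rw [← Finset.mul_sum, Finset.prod_one_add, Finset.powerset_univ]
            _ ≤ (2 / L) ^ 2 * Real.exp (∑ _i : Fin k, 64 * L ^ 2 / k) := by
                gcongr
                exact Real.prod_one_add_le_exp_sum _ fun _ => by positivity
            _ = (2 / L * Real.exp (32 * L ^ 2)) ^ 2 := by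
                rw [mul_pow, ← Real.exp_nat_mul, Finset.sum_const, Finset.card_univ,
                  Fintype.card_fin, nsmul_eq_mul]
                congr 2
                push_cast; field_simp; ring
        have e : (fun s => ‖u s‖ / Λ) = fun s => (1 / Λ) * ‖u s‖ := by funext s; ring
        rw [e, av_const_mul]
        calc 1 / Λ * av (fun s => ‖u s‖) ≤ 1 / Λ * (2 / L * Real.exp (32 * L ^ 2)) := by gcongr
          _ = δ / 3 := by rw [hΛ]; field_simp; norm_num
      have b3 : av (fun s => ‖rad c s‖ / r) ≤ δ / 3 := by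
        have h1 := av_rad_le hD hk (by norm_num : (0 : ℝ) < 4) c hc2
        have e : (fun s => ‖rad c s‖ / r) = fun s => (1 / r) * ‖rad c s‖ := by funext s; ring
        rw [e, av_const_mul]
        calc 1 / r * av (fun s => ‖rad c s‖) ≤ 1 / r * (4 / D) := by gcongr
          _ ≤ 1 / r * (4 / (12 / (r * δ))) := by gcongr
          _ = δ / 3 := by field_simp; norm_num
      linarith

end Pool.Agent.MP_c45dcf_an

end MrgPart6

-- ======== part 7: formerly Pool.Agent.MP_c45dcf_an.Spec2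
section MrgPart7

/-!
The core statement, in terms of two norms on a finite dimensional inner product space.
-/

set_option autoImplicit false

namespace Pool.Agent.MP_c45dcf_an

/-- two norms whose half dimensional restrictions are uniformly isomorphic, at distance `≥ 1/δ` -/
def CoreStmt : Prop := ∃ C : ℝ, 1 ≤ C ∧ ∀ δ : ℝ, 0 < δ →
  ∃ (H : Type) (_ : NormedAddCommGroup H) (_ : InnerProductSpace ℝ H) (_ : FiniteDimensional ℝ H)
    (p q : Seminorm ℝ H) (D : ℝ), 0 < D ∧
    (∀ x, ‖x‖ ≤ D * p x) ∧ (∀ x, p x ≤ D * ‖x‖) ∧ (∀ x, ‖x‖ ≤ D * q x) ∧ (∀ x, q x ≤ D * ‖x‖) ∧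
    (∀ E : Submodule ℝ H, Module.finrank ℝ E = Module.finrank ℝ H / 2 →
      Equi (fun x : E => p x) (fun x : E => q x) C) ∧
    ∀ (T : H ≃ₗ[ℝ] H) (f : ℝ), 0 ≤ f → (∀ x, q (T x) ≤ p x) → (∀ x, p x ≤ f * q (T x)) →
      1 ≤ f * δ

end Pool.Agent.MP_c45dcf_an

end MrgPart7

-- ======== part 8: formerly Pool.Agent.MP_c45dcf_an.Transfer
section MrgPart8

set_option autoImplicit false

open scoped Pointwise

namespace Pool.Agent.MP_c45dcf_an

namespace Transfer

variable {V : Type}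

lemma le_of_ball [AddCommGroup V] [Module ℝ V] (p q : Seminorm ℝ V) (C : ℝ)
    (h : ∀ x, p x ≤ 1 → q x ≤ C) (x : V) : q x ≤ C * p x := by
  have hC : 0 ≤ C := by simpa using h 0 (by simp)
  have key : ∀ d : ℝ, 0 < d → q x ≤ C * (p x + d) := by
    intro d hd
    have hp : 0 < p x + d := by have := apply_nonneg p x; linarith
    have h1 := h ((p x + d)⁻¹ • x) (by
      rw [map_smul_eq_mul, Real.norm_eq_abs, abs_of_pos (inv_pos.2 hp), inv_mul_le_iff₀ hp]
      linarith)
    rw [map_smul_eq_mul, Real.norm_eq_abs, abs_of_pos (inv_pos.2 hp), inv_mul_le_iff₀ hp] at h1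
    linarith
  refine le_of_forall_pos_le_add fun e he => ?_
  have := key (e / (C + 1)) (by positivity)
  have h2 : C * (e / (C + 1)) ≤ e := by
    rw [mul_div_assoc', div_le_iff₀ (by positivity)]; nlinarith
  nlinarith

lemma body [NormedAddCommGroup V] [NormedSpace ℝ V] [FiniteDimensional ℝ V] (p : Seminorm ℝ V)
    {D : ℝ} (hD : 0 < D) (h1 : ∀ x, ‖x‖ ≤ D * p x) (h2 : ∀ x, p x ≤ D * ‖x‖) :
    Convex ℝ {x | p x ≤ 1} ∧ IsCompact {x | p x ≤ 1} ∧ (interior {x | p x ≤ 1}).Nonempty ∧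
      ∀ x ∈ {x | p x ≤ 1}, -x ∈ {x | p x ≤ 1} := by
  have hc : Continuous p := by
    refine (LipschitzWith.of_dist_le_mul (K := ⟨D, hD.le⟩) fun x y => ?_).continuous
    rw [Real.dist_eq, dist_eq_norm]
    exact (abs_sub_map_le_sub p x y).trans (h2 _)
  refine ⟨?_, ?_, ⟨0, ?_⟩, fun x hx => by simpa using hx⟩
  · simpa using p.convexOn.convex_le 1
  · refine (isCompact_closedBall (0 : V) D).of_isClosed_subset (isClosed_le hc continuous_const)
      fun x hx => ?_
    have hx' : p x ≤ 1 := hx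
    simpa using (h1 x).trans (mul_le_of_le_one_right hD.le hx')
  · refine mem_interior.2 ⟨{x | p x < 1}, fun x (hx : p x < 1) => hx.le,
      isOpen_lt hc continuous_const, by simp⟩

lemma sections [AddCommGroup V] [Module ℝ V] (p q : Seminorm ℝ V) {C t : ℝ} (hC : 1 ≤ C)
    (ht : C ^ 2 ≤ t) (h : Equi (fun x => p x) (fun x => q x) C) :
    ∃ T : V ≃ₗ[ℝ] V, T '' {x | p x ≤ 1} ⊆ {x | q x ≤ 1} ∧
      {x | q x ≤ 1} ⊆ t • (T '' {x | p x ≤ 1}) := by
  obtain ⟨e, h1, h2⟩ := h
  have hC0 : 0 < C := by linarith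
  have ht0 : 0 < t := lt_of_lt_of_le (by positivity) ht
  let T : V ≃ₗ[ℝ] V := e.trans (LinearEquiv.smulOfNeZero ℝ V C⁻¹ (inv_ne_zero hC0.ne'))
  have hT : ∀ x, T x = C⁻¹ • e x := fun x => rfl
  refine ⟨T, ?_, fun y (hy : q y ≤ 1) => ?_⟩
  · rintro _ ⟨x, hx : p x ≤ 1, rfl⟩
    show q (T x) ≤ 1
    rw [hT, map_smul_eq_mul, Real.norm_eq_abs, abs_of_pos (inv_pos.2 hC0), inv_mul_le_iff₀ hC0]
    exact (h1 x).trans (mul_le_mul_of_nonneg_left hx hC0.le)
  · refine ⟨t⁻¹ • y, ⟨(C / t) • e.symm y, ?_, ?_⟩, by simp [smul_smul, ht0.ne']⟩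
    · show p ((C / t) • e.symm y) ≤ 1
      have := h2 (e.symm y)
      simp only [e.apply_symm_apply] at this
      rw [map_smul_eq_mul, Real.norm_eq_abs, abs_of_pos (by positivity), div_mul_eq_mul_div,
        div_le_one ht0]
      have h3 : p (e.symm y) ≤ C := this.trans (mul_le_of_le_one_right hC0.le hy)
      nlinarith
    · rw [hT, map_smul, e.apply_symm_apply, smul_smul]
      congr 1; field_simp

end Transfer

/-- pairs of symmetric convex bodies with uniformly close half-dimensional sections that are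
arbitrarily far apart -/
theorem robust_of_core (h : CoreStmt) : ∃ b : ℝ, 1 ≤ b ∧ ∀ ρ : ℝ,
    ∃ (n : ℕ) (K L : Set (EuclideanSpace ℝ (Fin n))),
    Convex ℝ K ∧ IsCompact K ∧ (interior K).Nonempty ∧ (∀ x ∈ K, -x ∈ K) ∧
    Convex ℝ L ∧ IsCompact L ∧ (interior L).Nonempty ∧ (∀ x ∈ L, -x ∈ L) ∧
    (∀ E : Submodule ℝ (EuclideanSpace ℝ (Fin n)), Module.finrank ℝ E = n / 2 →
      ∀ t : ℝ, b ≤ t → ∃ T : E ≃ₗ[ℝ] E,
        T '' {x : E | (x : EuclideanSpace ℝ (Fin n)) ∈ K} ⊆
            {x : E | (x : EuclideanSpace ℝ (Fin n)) ∈ L} ∧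
        {x : E | (x : EuclideanSpace ℝ (Fin n)) ∈ L} ⊆
            t • (T '' {x : E | (x : EuclideanSpace ℝ (Fin n)) ∈ K})) ∧
    ∀ (T : EuclideanSpace ℝ (Fin n) ≃ₗ[ℝ] EuclideanSpace ℝ (Fin n)) (t : ℝ), |t| ≤ ρ →
      ¬ (T '' K ⊆ L ∧ L ⊆ t • (T '' K)) := by
  obtain ⟨C, hC, h⟩ := h
  refine ⟨C ^ 2, by nlinarith, fun ρ => ?_⟩
  obtain ⟨H, _, _, _, p, q, D, hD, h1, h2, h3, h4, hE, hT⟩ := h (1 / (|ρ| + 1)) (by positivity)
  let u := (stdOrthonormalBasis ℝ H).repr.symm
  let p' := p.comp u.toLinearEquiv.toLinearMap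
  let q' := q.comp u.toLinearEquiv.toLinearMap
  have hp' : ∀ x, p' x = p (u x) := fun x => rfl
  have hq' : ∀ x, q' x = q (u x) := fun x => rfl
  obtain ⟨a1, a2, a3, a4⟩ := Transfer.body p' hD (fun x => by rw [hp', ← u.norm_map]; exact h1 _)
    (fun x => by rw [hp', ← u.norm_map]; exact h2 _)
  obtain ⟨b1, b2, b3, b4⟩ := Transfer.body q' hD (fun x => by rw [hq', ← u.norm_map]; exact h3 _)
    (fun x => by rw [hq', ← u.norm_map]; exact h4 _)
  refine ⟨_, {x | p' x ≤ 1}, {x | q' x ≤ 1}, a1, a2, a3, a4, b1, b2, b3, b4, fun E hE' t ht => ?_,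
    fun T t ht hh => ?_⟩
  · let v := u.toLinearEquiv.submoduleMap E
    obtain ⟨e, e1, e2⟩ := hE (E.map u.toLinearEquiv.toLinearMap) (by rw [← v.finrank_eq, hE'])
    have hv : ∀ x : E, ((v x : _) : H) = u x := fun x => rfl
    refine Transfer.sections (p'.comp E.subtype) (q'.comp E.subtype) hC ht
      ⟨v.trans (e.trans v.symm), fun x => ?_, fun x => ?_⟩
    · have := e1 (v x)
      simp only [Seminorm.comp_apply, Submodule.subtype_apply, hp', hq', LinearEquiv.trans_apply,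
        ← hv, v.apply_symm_apply]
      exact this
    · have := e2 (v x)
      simp only [Seminorm.comp_apply, Submodule.subtype_apply, hp', hq', LinearEquiv.trans_apply,
        ← hv, v.apply_symm_apply]
      exact this
  · let T' : H ≃ₗ[ℝ] H := u.toLinearEquiv.symm.trans (T.trans u.toLinearEquiv)
    have hT' : ∀ x, T' x = u (T (u.symm x)) := fun x => rfl
    have c1 := Transfer.le_of_ball p (q.comp T'.toLinearMap) 1 fun x hx =>
      hh.1 ⟨u.symm x, (by show p' _ ≤ 1; rwa [hp', u.apply_symm_apply]), rfl⟩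
    have c2 := Transfer.le_of_ball (q.comp T'.toLinearMap) p |t| fun x hx => by
      obtain ⟨_, ⟨y, hy : p' y ≤ 1, rfl⟩, hx'⟩ := hh.2 (show T (u.symm x) ∈ {x | q' x ≤ 1} from hx)
      simp only [← map_smul, T.injective.eq_iff] at hx'
      have : x = t • u y := by rw [← map_smul, hx', u.apply_symm_apply]
      rw [this, map_smul_eq_mul, Real.norm_eq_abs]
      exact mul_le_of_le_one_right (abs_nonneg _) hy
    have := hT T' |t| (abs_nonneg _) (fun x => by simpa using c1 x) (fun x => c2 x)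
    rw [mul_one_div, le_div_iff₀ (by positivity)] at this
    linarith [le_abs_self ρ]

theorem final_of_core (h : CoreStmt) :
    ¬ (∃ f : ℝ → ℝ, ∀ (n : ℕ) (K L : Set (EuclideanSpace ℝ (Fin n))) (b : ℝ),
    0 < b →
    Convex ℝ K → IsCompact K → (interior K).Nonempty → (∀ x ∈ K, -x ∈ K) →
    Convex ℝ L → IsCompact L → (interior L).Nonempty → (∀ x ∈ L, -x ∈ L) →
    (∀ E : Submodule ℝ (EuclideanSpace ℝ (Fin n)), Module.finrank ℝ E = n / 2 →
      ∀ t : ℝ, b < t → ∃ T : E ≃ₗ[ℝ] E,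
        T '' {x : E | (x : EuclideanSpace ℝ (Fin n)) ∈ K} ⊆
            {x : E | (x : EuclideanSpace ℝ (Fin n)) ∈ L} ∧
        {x : E | (x : EuclideanSpace ℝ (Fin n)) ∈ L} ⊆
            t • (T '' {x : E | (x : EuclideanSpace ℝ (Fin n)) ∈ K})) →
    ∃ T : EuclideanSpace ℝ (Fin n) ≃ₗ[ℝ] EuclideanSpace ℝ (Fin n),
      T '' K ⊆ L ∧ L ⊆ f b • (T '' K)) := by
  rintro ⟨f, hf⟩
  obtain ⟨b, hb, h⟩ := robust_of_core h
  obtain ⟨n, K, L, a1, a2, a3, a4, b1, b2, b3, b4, hE, hT⟩ := h |f b|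
  obtain ⟨T, hT'⟩ := hf n K L b (by linarith) a1 a2 a3 a4 b1 b2 b3 b4
    fun E hE' t ht => hE E hE' t ht.le
  exact hT T (f b) le_rfl hT'

end Pool.Agent.MP_c45dcf_an

end MrgPart8

-- marker of a merged file
example : 731051 + 817665 = 731051 + 817665 := rfl
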