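import Mathlib.RingTheory.Flat.FaithfullyFlat.Basic
import Mathlib.GroupTheory.Perm.ViaEmbedding
import Pool.Agent.MP_c45dcf_an.Transfer

-- ======== part 0: formerly Pool.Agent.MP_c45dcf_an.GoodBlock
section MrgPart0

/-!
A block in general position with respect to `E₀` and `E₁ᗮ` gives a copy of the slab space
inside `E₀` together with a projection that is bounded on `E₁`.
-/

set_option autoImplicit false

namespace Pool.Agent.MP_c45dcf_an

open Finset

variable {Z F M B : Type} [NormedAddCommGroup Z] [InnerProductSpace ℝ Z]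
  [FiniteDimensional ℝ Z] [NormedAddCommGroup F] [InnerProductSpace ℝ F] [FiniteDimensional ℝ F]
  [NormedAddCommGroup M] [InnerProductSpace ℝ M] [DecidableEq B] [Fintype B]

namespace Blk
variable (X : Blk Z F M B)

lemma proj_bound (E₁ : Submodule ℝ Z) (α : B) (h1 : Good X.G X.η E₁ᗮ α)
    (t1 : 1 / 3 ≤ (Module.finrank ℝ E₁ᗮ : ℝ) / Module.finrank ℝ Z) (z : Z) (hz : z ∈ E₁) :
    max ‖X.π α z‖ (X.sl (X.π α z)) ≤ 12 * X.nZ z := by
  refine le_mul_of_forall_gt (by norm_num) fun a ha => ?_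
  have ha0 : 0 ≤ a := (apply_nonneg _ _).trans ha.le
  obtain ⟨b, f, hzb, hb, hf⟩ := X.nZ_dec ha
  set τ : ℝ := (Module.finrank ℝ E₁ᗮ : ℝ) / Module.finrank ℝ Z with hτ
  have hP : E₁ᗮ.starProjection z = 0 :=
    (Submodule.starProjection_apply_eq_zero_iff _).mpr (E₁.le_orthogonal_orthogonal hz)
  have hsum := X.sum_norm_le hf Finset.univ
  have hb1 : ‖b‖ ≤ a := (X.norm_le_base b).trans hb
  have s2 := X.small2
  have s0 := X.small
  have hη := X.η_pos
  have hD := X.one_le_D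
  have e1 : τ • f α = -(X.Gs α (E₁ᗮ.starProjection b)) -
      ∑ β, (X.Gs α (E₁ᗮ.starProjection (X.G β (f β))) - if β = α then τ • f β else 0) := by
    have h : X.Gs α (E₁ᗮ.starProjection z) = 0 := by rw [hP, map_zero]
    rw [hzb, map_add, map_add, map_sum, map_sum] at h
    rw [Finset.sum_sub_distrib, Finset.sum_ite_eq' Finset.univ α, if_pos (Finset.mem_univ _),
      eq_neg_of_add_eq_zero_left h]
    abel
  have b1 : ‖∑ β, (X.Gs α (E₁ᗮ.starProjection (X.G β (f β))) - if β = α then τ • f β else 0)‖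
      ≤ a / 10 := by
    refine (norm_sum_le _ _).trans
      ((Finset.sum_le_sum fun β _ => h1.adj' hη.le β (f β)).trans ?_)
    rw [← Finset.mul_sum]
    calc X.η * ∑ β, ‖f β‖ ≤ X.η * (X.Λ * a) := by gcongr
      _ ≤ a / 10 := by nlinarith
  have b2 : ‖X.Gs α (E₁ᗮ.starProjection b)‖ ≤ 2 * a := by
    refine (X.norm_Gs_le _ _).trans ?_
    linarith [E₁ᗮ.norm_starProjection_apply_le b]
  have b3 : ‖f α‖ ≤ 7 * a := by
    have h2 : ‖τ • f α‖ ≤ 2 * a + a / 10 := by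
      rw [e1]
      refine (norm_sub_le _ _).trans ?_
      rw [norm_neg]; linarith
    rw [norm_smul, Real.norm_eq_abs, abs_of_pos (by linarith)] at h2
    nlinarith [norm_nonneg (f α)]
  have b4 := X.π_sum_sub α Finset.univ f
  rw [if_pos (Finset.mem_univ _)] at b4
  set err := X.π α (∑ γ, X.G γ (f γ)) - X.pM (f α) with herr
  have b5 : ‖err‖ ≤ X.η * (X.Λ * a) := b4.trans (by gcongr)
  have e2 : X.π α z = X.π α b + X.pM (f α) + err := by rw [hzb, map_add, herr]; abel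
  have b6 : X.ν (f α) ≤ a :=
    (Finset.single_le_sum (f := fun β => X.ν (f β)) (fun _ _ => apply_nonneg _ _)
      (Finset.mem_univ α)).trans hf
  rw [e2]
  refine max_le ?_ ?_
  · refine (norm_add₃_le).trans ?_
    have c1 := X.norm_π_le α b
    have c2 := X.p_le (f α)
    nlinarith
  · refine (map_add_le_add _ _ _).trans ?_
    have c0 := map_add_le_add X.sl (X.π α b) (X.pM (f α))
    have c1 := X.sl_le_base α b
    have c2 := X.hs (f α)
    have c3 : X.sl err ≤ a / 10 := by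
      refine (X.hD _).trans ?_
      calc X.D * ‖err‖ ≤ X.D * (X.η * (X.Λ * a)) := by gcongr
        _ = (X.η * X.D * X.Λ) * a := by ring
        _ ≤ a / 10 := by nlinarith
    linarith

theorem good_block [FiniteDimensional ℝ M] (E₀ : Submodule ℝ Z) (α : B)
    (h0 : Good X.G X.η E₀ α)
    (t0 : 1 / 3 ≤ (Module.finrank ℝ E₀ : ℝ) / Module.finrank ℝ Z) :
    ∃ J : M →ₗ[ℝ] Z, (∀ w, J w ∈ E₀) ∧ (∀ w, X.π α (J w) = w) ∧
      ∀ w, X.nZ (J w) ≤ 12 * max ‖w‖ (X.sl w) := by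
  set τ : ℝ := (Module.finrank ℝ E₀ : ℝ) / Module.finrank ℝ Z with hτ
  have hτ0 : 0 < τ := by linarith
  have hτ3 : τ⁻¹ ≤ 3 := by rw [inv_le_comm₀ hτ0 (by norm_num)]; linarith
  have hη := X.η_pos
  have s1 := X.small1
  have s2 := X.η_le
  have hD := X.one_le_D
  let J0 : M →ₗ[ℝ] Z := τ⁻¹ • ((E₀.starProjection : Z →ₗ[ℝ] Z) ∘ₗ X.G α ∘ₗ X.iM)
  have hJ0 : ∀ w, J0 w = τ⁻¹ • E₀.starProjection (X.G α (X.iM w)) := fun w => rfl
  have a1 : ∀ β w, ‖X.π β (J0 w) - (if β = α then w else 0)‖ ≤ 3 * X.η * ‖w‖ := by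
    intro β w
    have h := h0.adj hη.le β (X.iM w)
    have e : X.π β (J0 w) - (if β = α then w else 0) =
        τ⁻¹ • X.pM (X.Gs β (E₀.starProjection (X.G α (X.iM w))) -
          (if β = α then τ • X.iM w else 0)) := by
      rw [hJ0, map_smul, map_sub, smul_sub, π_apply]
      congr 1
      split_ifs
      · rw [map_smul, X.pi, smul_smul, inv_mul_cancel₀ hτ0.ne', one_smul]
      · simp
    rw [e, norm_smul, Real.norm_eq_abs, abs_of_pos (inv_pos.mpr hτ0)]
    have h2 := (X.p_le _).trans h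
    have h3 := X.i_le w
    calc _ ≤ 3 * (X.η * ‖w‖) := by
          refine mul_le_mul hτ3 (h2.trans (by gcongr)) (norm_nonneg _) (by norm_num)
      _ = _ := by ring
  have a1' : ∀ β w, X.sl (X.π β (J0 w) - (if β = α then w else 0)) ≤ 3 / 10 * ‖w‖ := by
    intro β w
    refine (X.hD _).trans ?_
    calc _ ≤ X.D * (3 * X.η * ‖w‖) := by gcongr; exact a1 β w
      _ = 3 * (X.η * X.D) * ‖w‖ := by ring
      _ ≤ _ := by nlinarith [norm_nonneg w]
  have a2 : ∀ w, X.nZ (J0 w) ≤ 6 * max ‖w‖ (X.sl w) := by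
    intro w
    have m1 := le_max_left ‖w‖ (X.sl w)
    have m2 := le_max_right ‖w‖ (X.sl w)
    have m0 := norm_nonneg w
    refine (X.nZ_le_base _).trans (X.base_le ?_ fun β => ?_)
    · rw [hJ0, norm_smul, Real.norm_eq_abs, abs_of_pos (inv_pos.mpr hτ0)]
      have h1 := E₀.norm_starProjection_apply_le (X.G α (X.iM w))
      have h2 := X.norm_G_le α (X.iM w)
      have h3 := X.i_le w
      calc _ ≤ 3 * (2 * ‖w‖) :=
            mul_le_mul hτ3 (by linarith) (norm_nonneg _) (by norm_num)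
        _ ≤ _ := by linarith
    · have h1 := a1' β w
      have h2 := le_map_add_map_sub X.sl (X.π β (J0 w)) (if β = α then w else 0)
      have h3 : X.sl (if β = α then w else 0) ≤ X.sl w := by
        split_ifs
        · exact le_rfl
        · rw [map_zero]; exact apply_nonneg _ _
      linarith
  let S : M →ₗ[ℝ] M := X.π α ∘ₗ J0
  have a3 : ∀ w, max ‖w‖ (X.sl w) ≤ 2 * max ‖S w‖ (X.sl (S w)) := by
    intro w
    have h1 := a1 α w
    have h2 := a1' α w
    rw [if_pos rfl] at h1 h2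
    have m1 := le_max_left ‖S w‖ (X.sl (S w))
    have m2 := le_max_right ‖S w‖ (X.sl (S w))
    have m0 := norm_nonneg w
    have h3 : ‖w‖ ≤ ‖S w‖ + ‖S w - w‖ := by
      have := norm_sub_le (S w) (S w - w)
      rwa [sub_sub_cancel] at this
    have h4 : X.sl w ≤ X.sl (S w) + X.sl (S w - w) := by
      have := map_sub_le_add X.sl (S w) (S w - w)
      rwa [sub_sub_cancel] at this
    have h5 : ‖S w - w‖ ≤ 3 / 10 * ‖w‖ := h1.trans (by nlinarith)
    have h6 : X.sl (S w - w) ≤ 3 / 10 * ‖w‖ := h2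
    exact max_le (by linarith [norm_nonneg (S w)]) (by linarith [norm_nonneg (S w)])
  have hS : Function.Injective S := by
    rw [injective_iff_map_eq_zero]
    intro w hw
    have h := a3 w
    rw [hw, norm_zero, map_zero, max_self, mul_zero] at h
    exact norm_le_zero_iff.mp ((le_max_left _ _).trans h)
  let e := LinearEquiv.ofInjectiveEndo S hS
  have he : ∀ w, S (e.symm w) = w := fun w => e.apply_symm_apply w
  refine ⟨J0 ∘ₗ e.symm.toLinearMap, fun w => ?_, he, fun w => ?_⟩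
  · exact E₀.smul_mem _ (E₀.starProjection_apply_mem _)
  · have h1 := a2 (e.symm w)
    have h2 := a3 (e.symm w)
    rw [he] at h2
    calc X.nZ (J0 (e.symm w)) ≤ _ := h1
      _ ≤ _ := by linarith

end Blk

end Pool.Agent.MP_c45dcf_an

end MrgPart0

-- ======== part 1: formerly Pool.Agent.MP_c45dcf_an.Shrink
section MrgPart1

/-!
On a subspace of bounded dimension the norm of `Z` is `24 D`-equivalent to a Euclidean norm.
-/

set_option autoImplicit false

namespace Pool.Agent.MP_c45dcf_an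

open Finset

lemma min_lift {H Z : Type} [NormedAddCommGroup H] [InnerProductSpace ℝ H] [FiniteDimensional ℝ H]
    [AddCommGroup Z] [Module ℝ Z] (Γ : H →ₗ[ℝ] Z) (σ : Z →ₗ[ℝ] H) (h : ∀ z, Γ (σ z) = z) :
    ∃ L : Z →ₗ[ℝ] H, (∀ z, Γ (L z) = z) ∧ ∀ ξ, ‖L (Γ ξ)‖ ≤ ‖ξ‖ := by
  refine ⟨((LinearMap.ker Γ)ᗮ.starProjection : H →ₗ[ℝ] H) ∘ₗ σ, fun z => ?_, fun ξ => ?_⟩
  · have h1 : Γ ((LinearMap.ker Γ).starProjection (σ z)) = 0 :=
      (LinearMap.ker Γ).starProjection_apply_mem _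
    show Γ ((LinearMap.ker Γ)ᗮ.starProjection (σ z)) = z
    rw [Submodule.starProjection_orthogonal_val, map_sub, h, h1, sub_zero]
  · have h1 : σ (Γ ξ) - ξ ∈ LinearMap.ker Γ := by simp [h]
    have h2 : (LinearMap.ker Γ)ᗮ.starProjection (σ (Γ ξ) - ξ) = 0 :=
      (Submodule.starProjection_apply_eq_zero_iff _).mpr
        ((LinearMap.ker Γ).le_orthogonal_orthogonal h1)
    rw [map_sub, sub_eq_zero] at h2
    show ‖(LinearMap.ker Γ)ᗮ.starProjection (σ (Γ ξ))‖ ≤ ‖ξ‖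
    rw [h2]
    exact Submodule.norm_starProjection_apply_le _ _

variable {Z F M B : Type} [NormedAddCommGroup Z] [InnerProductSpace ℝ Z]
  [FiniteDimensional ℝ Z] [NormedAddCommGroup F] [InnerProductSpace ℝ F] [FiniteDimensional ℝ F]
  [NormedAddCommGroup M] [InnerProductSpace ℝ M] [DecidableEq B] [Fintype B]

namespace Blk
variable (X : Blk Z F M B)

lemma relevant_sub (A : Submodule ℝ Z) (K R : ℕ) (hK : Module.finrank ℝ A ≤ K) {θ : ℝ}
    (hθ : 0 < θ) (hR1 : 2 * K ≤ θ ^ 2 * (R + 1)) (hR2 : (R + 1) * X.η ≤ 1) :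
    ∃ t : Finset B, t.card ≤ R ∧ ∀ β, β ∉ t → ∀ z ∈ A, ‖X.Gs β z‖ ≤ θ * ‖z‖ := by
  set e := stdOrthonormalBasis ℝ A with he
  have h1 : ∑ i, ‖(e i : Z)‖ ^ 2 ≤ K := by
    have : ∀ i, ‖(e i : Z)‖ ^ 2 = 1 := by
      intro i
      have := e.orthonormal.1 i
      rw [Submodule.coe_norm] at this
      rw [this, one_pow]
    simp only [this, Finset.sum_const, Finset.card_univ, Fintype.card_fin, nsmul_eq_mul, mul_one]
    exact_mod_cast hK
  obtain ⟨t, ht1, -, ht3⟩ := X.exists_relevant (fun i => (e i : Z)) (a := θ ^ 2) R hR2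
    (by linarith)
  refine ⟨t, ht1, fun β hβ z hz => ?_⟩
  have h2 : z = ∑ i, inner ℝ (e i) (⟨z, hz⟩ : A) • (e i : Z) := by
    have := congrArg (fun v : A => (v : Z)) (e.sum_repr' ⟨z, hz⟩)
    simpa using this.symm
  have h3 : ‖X.Gs β z‖ ≤ ∑ i, |inner ℝ (e i) (⟨z, hz⟩ : A)| * ‖X.Gs β (e i)‖ := by
    conv_lhs => rw [h2, map_sum]
    refine (norm_sum_le _ _).trans (le_of_eq (Finset.sum_congr rfl fun i _ => ?_))
    rw [map_smul, norm_smul, Real.norm_eq_abs]
  have h4 := Finset.sum_mul_sq_le_sq_mul_sq Finset.univ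
    (fun i => |inner ℝ (e i) (⟨z, hz⟩ : A)|) (fun i => ‖X.Gs β (e i)‖)
  have h5 : ∑ i, |inner ℝ (e i) (⟨z, hz⟩ : A)| ^ 2 = ‖z‖ ^ 2 := by
    have := e.sum_sq_norm_inner_right (⟨z, hz⟩ : A)
    simpa using this
  rw [h5] at h4
  have h6 := ht3 β hβ
  refine (pow_le_pow_iff_left₀ (norm_nonneg _) (by positivity) two_ne_zero).mp ?_
  calc ‖X.Gs β z‖ ^ 2 ≤ _ := pow_le_pow_left₀ (norm_nonneg _) h3 2
    _ ≤ _ := h4
    _ ≤ ‖z‖ ^ 2 * θ ^ 2 := by gcongr
    _ = _ := by ring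

theorem shrink (A : Submodule ℝ Z) (K R : ℕ) (hK : Module.finrank ℝ A ≤ K)
    (hR1 : 8 * K * X.Λ ^ 4 ≤ R + 1) (hR2 : (R + 1) * (2 * X.Λ) * X.η ≤ 1) :
    ∃ L : Z →ₗ[ℝ] WithLp 2 (Z × PiLp 2 (fun _ : B => F)),
      (∀ z, X.nZ z ≤ 4 * X.D * ‖L z‖) ∧ ∀ z ∈ A, ‖L z‖ ≤ 6 * X.nZ z := by
  have hΛ := X.one_le
  have hΛ0 : 0 < X.Λ := by linarith
  have hη := X.η_pos
  have hD := X.le_D
  have hR0 : (0 : ℝ) ≤ R := Nat.cast_nonneg _
  have hR3 : (R + 1) * X.η ≤ 1 := by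
    have : 0 ≤ (R + 1) * X.η := by positivity
    nlinarith
  obtain ⟨t, ht1, ht2⟩ := X.relevant_sub A K R hK (θ := 1 / (2 * X.Λ ^ 2)) (by positivity)
    (by
      rw [div_pow, div_mul_eq_mul_div, le_div_iff₀ (by positivity)]
      linarith) hR3
  have htR : (t.card : ℝ) ≤ R := by exact_mod_cast ht1
  have ht3 : t.card * X.η ≤ 1 := by nlinarith
  let u : F →ₗ[ℝ] F := LinearMap.id - X.iM ∘ₗ X.pM
  have hu : ∀ f, u f = f - X.iM (X.pM f) := fun f => rfl
  have hu1 : ∀ f, X.pM (u f) = 0 := by intro f; rw [hu, map_sub, X.pi, sub_self]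
  have hu2 : ∀ f, ‖u f‖ ≤ 2 * ‖f‖ := by
    intro f
    rw [hu]
    linarith [norm_sub_le f (X.iM (X.pM f)), X.i_le (X.pM f), X.p_le f]
  let W := PiLp 2 (fun _ : B => F)
  let Γ : WithLp 2 (Z × W) →ₗ[ℝ] Z := WithLp.fstₗ 2 ℝ Z W +
    X.Λ • ∑ β ∈ t, X.G β ∘ₗ u ∘ₗ PiLp.projₗ 2 (fun _ : B => F) β ∘ₗ WithLp.sndₗ 2 ℝ Z W
  have hΓ : ∀ ξ, Γ ξ = ξ.fst + X.Λ • ∑ β ∈ t, X.G β (u (ξ.snd β)) := by
    intro ξ; simp [Γ]
  let σ : Z →ₗ[ℝ] WithLp 2 (Z × W) :=
    (WithLp.linearEquiv 2 ℝ (Z × W)).symm.toLinearMap ∘ₗ LinearMap.inl ℝ Z W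
  obtain ⟨L, hL1, hL2⟩ := min_lift Γ σ (by intro z; rw [hΓ]; simp [σ])
  refine ⟨L, fun z => ?_, fun z hz => ?_⟩
  · have key : ∀ ξ, X.nZ (Γ ξ) ≤ 4 * X.D * ‖ξ‖ := by
      intro ξ
      have n0 := norm_nonneg ξ
      have n1 : ‖ξ.fst‖ ≤ ‖ξ‖ := WithLp.norm_fst_le Z ξ
      have n2 : ‖ξ.snd‖ ≤ ‖ξ‖ := WithLp.norm_snd_le Z ξ
      have n3 : ∀ β, ‖u (ξ.snd β)‖ ≤ 2 * ‖ξ‖ := fun β =>
        (hu2 _).trans (by linarith [PiLp.norm_apply_le ξ.snd β])
      have n4 : ‖∑ β ∈ t, X.G β (u (ξ.snd β))‖ ≤ 3 * ‖ξ‖ := by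
        refine (pow_le_pow_iff_left₀ (norm_nonneg _) (by positivity) two_ne_zero).mp ?_
        refine (X.norm_sum_G_sq t ht3 _).trans ?_
        have c1 : ∑ β ∈ t, ‖u (ξ.snd β)‖ ^ 2 ≤ ∑ β ∈ t, 4 * ‖ξ.snd β‖ ^ 2 :=
          Finset.sum_le_sum fun β _ => by nlinarith [hu2 (ξ.snd β), norm_nonneg (u (ξ.snd β))]
        have c2 : ∑ β ∈ t, ‖ξ.snd β‖ ^ 2 ≤ ∑ β, ‖ξ.snd β‖ ^ 2 :=
          Finset.sum_le_sum_of_subset_of_nonneg (Finset.subset_univ _) fun _ _ _ => sq_nonneg _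
        rw [← PiLp.norm_sq_eq_of_L2] at c2
        rw [← Finset.mul_sum] at c1
        nlinarith [norm_nonneg ξ.snd]
      refine (X.nZ_le_base _).trans (X.base_le ?_ fun β => ?_)
      · rw [hΓ]
        refine (norm_add_le _ _).trans ?_
        rw [norm_smul, Real.norm_eq_abs, abs_of_pos hΛ0]
        nlinarith
      · refine (X.hD _).trans ?_
        have c1 := X.π_sum_sub β t (fun γ => u (ξ.snd γ))
        simp only [hu1, ite_self, sub_zero] at c1
        have c2 := Finset.sum_le_card_nsmul t _ _ (fun γ _ => n3 γ)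
        rw [nsmul_eq_mul] at c2
        have c3 : ‖X.π β (Γ ξ)‖ ≤ 3 * ‖ξ‖ := by
          rw [hΓ, map_add, map_smul]
          refine (norm_add_le _ _).trans ?_
          rw [norm_smul, Real.norm_eq_abs, abs_of_pos hΛ0]
          have c4 := X.norm_π_le β ξ.fst
          have c5 : X.Λ * ‖X.π β (∑ γ ∈ t, X.G γ (u (ξ.snd γ)))‖ ≤ ‖ξ‖ := by
            calc _ ≤ X.Λ * (X.η * ((R + 1) * (2 * ‖ξ‖))) := by
                  gcongr
                  refine c1.trans ?_
                  gcongr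
                  refine c2.trans ?_
                  gcongr
                  linarith
              _ = ((R + 1) * (2 * X.Λ) * X.η) * ‖ξ‖ := by ring
              _ ≤ _ := mul_le_of_le_one_left n0 hR2
          linarith
        nlinarith
    have := key (L z)
    rwa [hL1] at this
  · refine le_mul_of_forall_gt (by norm_num) fun a ha => ?_
    have ha0 : 0 ≤ a := (apply_nonneg _ _).trans ha.le
    obtain ⟨b, f, hzb, hb, hf⟩ := X.nZ_dec ha
    have hb1 : ‖b‖ ≤ a := (X.norm_le_base b).trans hb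
    have hz1 : ‖z‖ ≤ 3 * X.Λ * a := (X.nZ_lower z).trans (by gcongr)
    set y := ∑ β ∈ tᶜ, X.G β (f β) with hy
    set g := ∑ β ∈ t, X.G β (f β) with hg
    have e1 : z = b + (g + y) := by rw [hzb, hy, hg, Finset.sum_add_sum_compl]
    have s1 := X.sum_norm_le hf t
    have s2 := X.sum_norm_le hf tᶜ
    have i1 : inner ℝ y z ≤ 3 / 2 * a ^ 2 := by
      rw [hy, sum_inner]
      have c1 : ∀ β ∈ tᶜ, inner ℝ (X.G β (f β)) z ≤ ‖f β‖ * (1 / (2 * X.Λ ^ 2) * ‖z‖) := by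
        intro β hβ
        rw [← X.inner_Gs]
        refine (real_inner_le_norm _ _).trans ?_
        gcongr
        exact ht2 β (Finset.mem_compl.mp hβ) z hz
      refine (Finset.sum_le_sum c1).trans ?_
      rw [← Finset.sum_mul]
      calc _ ≤ (X.Λ * a) * (1 / (2 * X.Λ ^ 2) * (3 * X.Λ * a)) := by gcongr
        _ = _ := by field_simp
    have i2 : -(a ^ 2 / 10) ≤ inner ℝ y g := by
      have c1 : |inner ℝ y g| ≤ X.η * ((∑ β ∈ tᶜ, ‖f β‖) * ∑ γ ∈ t, ‖f γ‖) := by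
        rw [hy, hg, sum_inner, Finset.sum_mul_sum, Finset.mul_sum]
        refine (Finset.abs_sum_le_sum_abs _ _).trans (Finset.sum_le_sum fun β hβ => ?_)
        rw [inner_sum, Finset.mul_sum]
        refine (Finset.abs_sum_le_sum_abs _ _).trans (Finset.sum_le_sum fun γ hγ => ?_)
        have := X.coh_inner β γ (f β) (f γ)
        rw [if_neg (by rintro rfl; exact Finset.mem_compl.mp hβ hγ), sub_zero] at this
        linarith
      have c2 : X.η * ((∑ β ∈ tᶜ, ‖f β‖) * ∑ γ ∈ t, ‖f γ‖) ≤ X.η * ((X.Λ * a) * (X.Λ * a)) := by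
        gcongr
      have c3 := X.small3
      have c4 : X.η * ((X.Λ * a) * (X.Λ * a)) = (X.η * X.Λ * X.Λ) * a ^ 2 := by ring
      have c5 := neg_abs_le (inner ℝ y g)
      nlinarith [sq_nonneg a]
    have i3 : -(‖y‖ * a) ≤ inner ℝ y b := by
      have c1 := abs_real_inner_le_norm y b
      have c2 := neg_abs_le (inner ℝ y b)
      nlinarith [norm_nonneg y]
    have i4 : ‖y‖ ≤ 2 * a := by
      have c1 : inner ℝ y z = inner ℝ y b + (inner ℝ y g + ‖y‖ ^ 2) := by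
        conv_lhs => rw [e1]
        rw [inner_add_right, inner_add_right, real_inner_self_eq_norm_sq]
      by_contra hc
      push Not at hc
      nlinarith
    let ξ : WithLp 2 (Z × W) := WithLp.toLp 2
      (b + y + ∑ β ∈ t, X.G β (X.iM (X.pM (f β))), WithLp.toLp 2 fun β => X.Λ⁻¹ • f β)
    have e2 : Γ ξ = z := by
      rw [hΓ, e1, hg]
      simp only [ξ, WithLp.toLp_fst, WithLp.toLp_snd, map_smul, ← Finset.smul_sum, smul_smul, smul_sub,
        mul_inv_cancel₀ hΛ0.ne', one_smul, hu, map_sub, Finset.sum_sub_distrib]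
      abel
    have n1 : ‖ξ.fst‖ ≤ 5 * a := by
      show ‖b + y + ∑ β ∈ t, X.G β (X.iM (X.pM (f β)))‖ ≤ _
      refine norm_add₃_le.trans ?_
      have c1 : ‖∑ β ∈ t, X.G β (X.iM (X.pM (f β)))‖ ≤ ∑ β ∈ t, 2 * X.ν (f β) := by
        refine (norm_sum_le _ _).trans (Finset.sum_le_sum fun β _ => ?_)
        have d1 := X.norm_G_le β (X.iM (X.pM (f β)))
        have d2 := X.i_le (X.pM (f β))
        have d3 := X.hr (f β)
        have d4 := X.r_le
        have d5 := apply_nonneg X.ν (f β)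
        nlinarith
      have c2 : ∑ β ∈ t, X.ν (f β) ≤ ∑ β, X.ν (f β) :=
        Finset.sum_le_sum_of_subset_of_nonneg (Finset.subset_univ _)
          fun _ _ _ => apply_nonneg _ _
      rw [← Finset.mul_sum] at c1
      linarith
    have n2 : ‖ξ.snd‖ ^ 2 ≤ a ^ 2 := by
      rw [PiLp.norm_sq_eq_of_L2]
      have c1 : ∀ β, ‖ξ.snd β‖ ≤ X.ν (f β) := by
        intro β
        show ‖X.Λ⁻¹ • f β‖ ≤ _
        rw [norm_smul, Real.norm_eq_abs, abs_of_pos (inv_pos.mpr hΛ0), inv_mul_le_iff₀ hΛ0]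
        exact X.hΛ _
      calc ∑ β, ‖ξ.snd β‖ ^ 2 ≤ ∑ β, X.ν (f β) ^ 2 :=
            Finset.sum_le_sum fun β _ => pow_le_pow_left₀ (norm_nonneg _) (c1 β) 2
        _ ≤ (∑ β, X.ν (f β)) ^ 2 :=
            Finset.sum_sq_le_sq_sum_of_nonneg fun _ _ => apply_nonneg _ _
        _ ≤ a ^ 2 := pow_le_pow_left₀ (Finset.sum_nonneg fun _ _ => apply_nonneg _ _) hf 2
    have n3 : ‖ξ‖ ≤ 6 * a := by
      refine (pow_le_pow_iff_left₀ (norm_nonneg _) (by positivity) two_ne_zero).mp ?_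
      rw [WithLp.prod_norm_sq_eq_of_L2]
      nlinarith [norm_nonneg ξ.fst]
    rw [← e2]
    exact (hL2 ξ).trans n3

end Blk

end Pool.Agent.MP_c45dcf_an

end MrgPart1

-- ======== part 2: formerly Pool.Agent.MP_c45dcf_an.Chain
section MrgPart2

/-!
The chain of norms on `Z ⊕ ℝᵏ` and auxiliary linear algebra.
-/

set_option autoImplicit false

namespace Pool.Agent.MP_c45dcf_an

open Finset

section equi
variable {V V' V'' : Type} [AddCommGroup V] [Module ℝ V] [AddCommGroup V'] [Module ℝ V']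
  [AddCommGroup V''] [Module ℝ V'']

lemma Equi.symm {p : V → ℝ} {p' : V' → ℝ} {C : ℝ} (h : Equi p p' C) : Equi p' p C := by
  obtain ⟨e, h1, h2⟩ := h
  refine ⟨e.symm, fun y => ?_, fun y => ?_⟩
  · simpa using h2 (e.symm y)
  · simpa using h1 (e.symm y)

lemma Equi.trans {p : V → ℝ} {p' : V' → ℝ} {p'' : V'' → ℝ} {C C' : ℝ} (hC : 0 ≤ C) (hC' : 0 ≤ C')
    (h : Equi p p' C) (h' : Equi p' p'' C') : Equi p p'' (C * C') := by
  obtain ⟨e, h1, h2⟩ := h
  obtain ⟨e', h1', h2'⟩ := h'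
  refine ⟨e.trans e', fun x => ?_, fun x => ?_⟩
  · calc p'' (e' (e x)) ≤ C' * p' (e x) := h1' _
      _ ≤ C' * (C * p x) := by gcongr; exact h1 x
      _ = _ := by ring
  · calc p x ≤ C * p' (e x) := h2 x
      _ ≤ C * (C' * p'' (e' (e x))) := by gcongr; exact h2' _
      _ = _ := by rw [← mul_assoc]; rfl

lemma equi_split (Q : V →ₗ[ℝ] V') (J : V' →ₗ[ℝ] V) (hQJ : ∀ w, Q (J w) = w) (p : Seminorm ℝ V)
    (om : V' → ℝ) (h1 : ∀ x, om (Q x) ≤ 12 * p x) (h2 : ∀ w, p (J w) ≤ 12 * om w) :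
    Equi (fun x => p x) (fun z : V' × LinearMap.ker Q => max (om z.1) (p z.2)) 145 := by
  let R : V →ₗ[ℝ] LinearMap.ker Q := LinearMap.codRestrict _ (LinearMap.id - J ∘ₗ Q)
    (fun x => by simp [hQJ])
  have hR : ∀ x, (R x : V) = x - J (Q x) := fun x => rfl
  let e : V ≃ₗ[ℝ] V' × LinearMap.ker Q := LinearEquiv.ofLinearMap (Q.prod R)
    (J.coprod (LinearMap.ker Q).subtype)
    (by
      refine LinearMap.ext fun z => ?_
      have hz : Q (z.2 : V) = 0 := z.2.2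
      refine Prod.ext ?_ (Subtype.ext ?_)
      · simp [hQJ, hz]
      · simp [hR, hQJ, hz])
    (by refine LinearMap.ext fun x => ?_; simp [hR])
  have he1 : ∀ x, (e x).1 = Q x := fun x => rfl
  have he2 : ∀ x, ((e x).2 : V) = x - J (Q x) := fun x => rfl
  refine ⟨e, fun x => ?_, fun x => ?_⟩
  · simp only [he1, he2]
    have a0 := apply_nonneg p x
    have a1 := h1 x
    have a2 := h2 (Q x)
    have a3 := map_sub_le_add p x (J (Q x))
    exact max_le (by linarith) (by linarith)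
  · simp only [he1, he2]
    have a0 := apply_nonneg p (x - J (Q x))
    have a2 := h2 (Q x)
    have a3 := le_map_add_map_sub p x (J (Q x))
    have a4 := le_max_left (om (Q x)) (p (x - J (Q x)))
    have a5 := le_max_right (om (Q x)) (p (x - J (Q x)))
    linarith

lemma finrank_le_ker_add [FiniteDimensional ℝ V] [FiniteDimensional ℝ V'] (f : V →ₗ[ℝ] V') :
    Module.finrank ℝ V ≤ Module.finrank ℝ (LinearMap.ker f) + Module.finrank ℝ V' := by
  have h1 := LinearMap.finrank_range_add_finrank_ker f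
  have h2 := Submodule.finrank_le (LinearMap.range f)
  omega

end equi

lemma exists_param {V H : Type} [AddCommGroup V] [Module ℝ V] [NormedAddCommGroup H]
    [InnerProductSpace ℝ H] [FiniteDimensional ℝ H] (A : Submodule ℝ V) {K : ℕ}
    (hA : Module.finrank ℝ A = K) (Ψ : V →ₗ[ℝ] H) (hΨ : ∀ x ∈ A, Ψ x = 0 → x = 0) :
    ∃ (ι : EuclideanSpace ℝ (Fin K) →ₗ[ℝ] V) (g : A →ₗ[ℝ] EuclideanSpace ℝ (Fin K)),
      (∀ y, ι y ∈ A) ∧ (∀ y, ‖Ψ (ι y)‖ = ‖y‖) ∧ ∀ a, ι (g a) = a := by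
  have hinj : Function.Injective (Ψ ∘ₗ A.subtype) := by
    rw [injective_iff_map_eq_zero]
    intro a ha
    exact Subtype.ext (hΨ a a.2 ha)
  let e1 := LinearEquiv.ofInjective _ hinj
  have hK : Module.finrank ℝ (LinearMap.range (Ψ ∘ₗ A.subtype)) = K := by
    rw [← e1.finrank_eq, hA]
  let e2 := ((stdOrthonormalBasis ℝ (LinearMap.range (Ψ ∘ₗ A.subtype))).reindex (finCongr hK)).repr
  let g := e1.trans e2.toLinearEquiv
  refine ⟨A.subtype ∘ₗ g.symm.toLinearMap, g.toLinearMap, fun y => (g.symm y).2, fun y => ?_,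
    fun a => by simp⟩
  have h1 : e2 (e1 (g.symm y)) = y := g.apply_symm_apply y
  have h2 : ‖e2 (e1 (g.symm y))‖ = ‖e1 (g.symm y)‖ := e2.norm_map _
  rw [h1] at h2
  rw [h2]
  rfl

/-- the `ℓ¹` norm -/
noncomputable def l1 (k : ℕ) : Seminorm ℝ (EuclideanSpace ℝ (Fin k)) :=
  ∑ i, (normSeminorm ℝ ℝ).comp (PiLp.projₗ 2 (fun _ : Fin k => ℝ) i)

lemma l1_apply {k : ℕ} (v : EuclideanSpace ℝ (Fin k)) : l1 k v = ∑ i, |v i| := by
  simp [l1]

lemma l1_le {k : ℕ} {D : ℝ} (hD : 0 ≤ D) (hk : (k : ℝ) = D ^ 2) (v : EuclideanSpace ℝ (Fin k)) :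
    l1 k v ≤ D * ‖v‖ := by
  refine (pow_le_pow_iff_left₀ (apply_nonneg _ _) (by positivity) two_ne_zero).mp ?_
  rw [l1_apply, mul_pow, ← hk, EuclideanSpace.norm_sq_eq]
  have h := sq_sum_le_card_mul_sum_sq (s := Finset.univ) (f := fun i => |v i|)
  simpa using h

/-- the chain of norms -/
noncomputable def chain {Z : Type} [AddCommGroup Z] [Module ℝ Z] (p : Seminorm ℝ Z) (k j : ℕ) :
    Seminorm ℝ (WithLp 2 (Z × EuclideanSpace ℝ (Fin k))) :=
  p.comp (WithLp.fstₗ 2 ℝ Z _) ⊔ ((normSeminorm ℝ _).comp (WithLp.sndₗ 2 ℝ Z _) ⊔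
    (l1 k).comp ((1 / 2 ^ j : ℝ) • WithLp.sndₗ 2 ℝ Z _))

lemma chain_apply {Z : Type} [AddCommGroup Z] [Module ℝ Z] (p : Seminorm ℝ Z) (k j : ℕ)
    (x : WithLp 2 (Z × EuclideanSpace ℝ (Fin k))) :
    chain p k j x = max (p x.fst) (max ‖x.snd‖ (1 / 2 ^ j * l1 k x.snd)) := by
  simp only [chain, Seminorm.sup_apply, Seminorm.comp_apply, coe_normSeminorm,
    LinearMap.smul_apply, map_smul_eq_mul, Real.norm_eq_abs]
  rw [abs_of_pos (by positivity)]
  rfl

section chain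
variable {Z : Type} [AddCommGroup Z] [Module ℝ Z] (p : Seminorm ℝ Z) (k : ℕ)

lemma chain_succ_le (j : ℕ) (x : WithLp 2 (Z × EuclideanSpace ℝ (Fin k))) :
    chain p k (j + 1) x ≤ chain p k j x := by
  rw [chain_apply, chain_apply]
  have h0 := apply_nonneg (l1 k) x.snd
  gcongr
  · norm_num
  · omega

lemma chain_le_succ (j : ℕ) (x : WithLp 2 (Z × EuclideanSpace ℝ (Fin k))) :
    chain p k j x ≤ 2 * chain p k (j + 1) x := by
  rw [chain_apply, chain_apply]
  have h0 := apply_nonneg p x.fst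
  have h1 := norm_nonneg x.snd
  have m1 := le_max_left (p x.fst) (max ‖x.snd‖ (1 / 2 ^ (j + 1) * l1 k x.snd))
  have m2 := le_max_right (p x.fst) (max ‖x.snd‖ (1 / 2 ^ (j + 1) * l1 k x.snd))
  have m3 := le_max_left ‖x.snd‖ (1 / 2 ^ (j + 1) * l1 k x.snd)
  have m4 := le_max_right ‖x.snd‖ (1 / 2 ^ (j + 1) * l1 k x.snd)
  have e : (1 / 2 ^ j : ℝ) * l1 k x.snd = 2 * (1 / 2 ^ (j + 1) * l1 k x.snd) := by
    rw [pow_succ]; field_simp
  exact max_le (by linarith) (max_le (by linarith) (by linarith))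

lemma fst_le_chain (j : ℕ) (x : WithLp 2 (Z × EuclideanSpace ℝ (Fin k))) :
    p x.fst ≤ chain p k j x := by
  rw [chain_apply]; exact le_max_left _ _

lemma snd_le_chain (j : ℕ) (x : WithLp 2 (Z × EuclideanSpace ℝ (Fin k))) :
    ‖x.snd‖ ≤ chain p k j x := by
  rw [chain_apply]; exact (le_max_left _ _).trans (le_max_right _ _)

lemma chain_of_snd (j : ℕ) {x : WithLp 2 (Z × EuclideanSpace ℝ (Fin k))} (hx : x.snd = 0) :
    chain p k j x = p x.fst := by
  rw [chain_apply, hx, norm_zero, map_zero, mul_zero, max_self, max_eq_left (apply_nonneg _ _)]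

lemma chain_le {D a : ℝ} (hD : 1 ≤ D) (hk : (k : ℝ) = D ^ 2) (j : ℕ)
    {x : WithLp 2 (Z × EuclideanSpace ℝ (Fin k))} (h1 : p x.fst ≤ a) (h2 : D * ‖x.snd‖ ≤ a) :
    chain p k j x ≤ a := by
  rw [chain_apply]
  have h0 := norm_nonneg x.snd
  have h3 := l1_le (by linarith) hk x.snd
  have h4 : (1 / 2 ^ j : ℝ) * l1 k x.snd ≤ l1 k x.snd :=
    mul_le_of_le_one_left (apply_nonneg _ _)
      (by rw [div_le_one (by positivity)]; exact one_le_pow₀ (by norm_num))
  exact max_le h1 (max_le (by nlinarith) (by linarith))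

end chain

lemma norm_le_fst_add_snd {Z V : Type} [NormedAddCommGroup Z] [NormedAddCommGroup V]
    (x : WithLp 2 (Z × V)) : ‖x‖ ≤ ‖x.fst‖ + ‖x.snd‖ := by
  refine (pow_le_pow_iff_left₀ (norm_nonneg _) (by positivity) two_ne_zero).mp ?_
  rw [WithLp.prod_norm_sq_eq_of_L2]
  nlinarith [norm_nonneg x.fst, norm_nonneg x.snd]

variable {Z F M B : Type} [NormedAddCommGroup Z] [InnerProductSpace ℝ Z]
  [FiniteDimensional ℝ Z] [NormedAddCommGroup F] [InnerProductSpace ℝ F] [FiniteDimensional ℝ F]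
  [NormedAddCommGroup M] [InnerProductSpace ℝ M] [DecidableEq B] [Fintype B]

namespace Blk
variable (X : Blk Z F M B)

lemma chain_lower (k j : ℕ) (x : WithLp 2 (Z × EuclideanSpace ℝ (Fin k))) :
    ‖x‖ ≤ 4 * X.D * chain X.nZ k j x := by
  have h1 := norm_le_fst_add_snd x
  have h2 := X.nZ_lower x.fst
  have h3 := fst_le_chain X.nZ k j x
  have h4 := snd_le_chain X.nZ k j x
  have h5 := X.le_D
  have h6 := X.one_le
  have h7 := apply_nonneg (chain X.nZ k j) x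
  have h8 : 3 * X.Λ * X.nZ x.fst ≤ 3 * X.D * chain X.nZ k j x := by
    have := apply_nonneg X.nZ x.fst
    gcongr
    linarith
  nlinarith

lemma chain_upper {k : ℕ} (hk : (k : ℝ) = X.D ^ 2) (j : ℕ)
    (x : WithLp 2 (Z × EuclideanSpace ℝ (Fin k))) : chain X.nZ k j x ≤ 4 * X.D * ‖x‖ := by
  have h1 : ‖x.fst‖ ≤ ‖x‖ := WithLp.norm_fst_le Z x
  have h2 : ‖x.snd‖ ≤ ‖x‖ := WithLp.norm_snd_le Z x
  have h3 := X.nZ_upper x.fst
  have h4 := X.one_le_D
  have h5 := norm_nonneg x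
  exact chain_le _ _ h4 hk j (by nlinarith) (by nlinarith)

/-- every large subspace splits off a copy of the slab space, for all norms of the chain -/
theorem split_section [FiniteDimensional ℝ M] {k : ℕ}
    (hgood : ∀ E₀ E₁, ∃ α, Good X.G X.η E₀ α ∧ Good X.G X.η E₁ α)
    (E : Submodule ℝ (WithLp 2 (Z × EuclideanSpace ℝ (Fin k))))
    (hE1 : Module.finrank ℝ Z + 3 * k ≤ 3 * Module.finrank ℝ E)
    (hE2 : 3 * Module.finrank ℝ E ≤ 2 * Module.finrank ℝ Z) :
    ∃ Q : E →ₗ[ℝ] M, ∀ j, Equi (fun x : E => chain X.nZ k j x)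
      (fun z : M × LinearMap.ker Q => max (max ‖z.1‖ (X.sl z.1)) (chain X.nZ k j z.2)) 145 := by
  let V := EuclideanSpace ℝ (Fin k)
  let inl : Z →ₗ[ℝ] WithLp 2 (Z × V) :=
    (WithLp.linearEquiv 2 ℝ (Z × V)).symm.toLinearMap ∘ₗ LinearMap.inl ℝ Z V
  let E₀ : Submodule ℝ Z := E.comap inl
  let E₁ : Submodule ℝ Z := E.map (WithLp.fstₗ 2 ℝ Z V)
  have hn : (0 : ℝ) < Module.finrank ℝ Z := by exact_mod_cast X.pos
  have t0 : 1 / 3 ≤ (Module.finrank ℝ E₀ : ℝ) / Module.finrank ℝ Z := by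
    let f : E →ₗ[ℝ] V := WithLp.sndₗ 2 ℝ Z V ∘ₗ E.subtype
    have h1 := finrank_le_ker_add f
    have hv : ∀ x : LinearMap.ker f, inl ((x : E) : WithLp 2 (Z × V)).fst = (x : E) := by
      intro x
      have h : ((x : E) : WithLp 2 (Z × V)).snd = 0 := x.2
      refine (WithLp.ext_iff _).mpr (Prod.ext rfl h.symm)
    let g : LinearMap.ker f →ₗ[ℝ] E₀ := LinearMap.codRestrict E₀
      (WithLp.fstₗ 2 ℝ Z V ∘ₗ E.subtype ∘ₗ (LinearMap.ker f).subtype) (fun x => by
        show inl ((x : E) : WithLp 2 (Z × V)).fst ∈ E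
        rw [hv]; exact (x : E).2)
    have hg : Function.Injective g := by
      rw [injective_iff_map_eq_zero]
      intro x hx
      have h : ((x : E) : WithLp 2 (Z × V)).fst = 0 := congrArg Subtype.val hx
      have h2 := hv x
      rw [h, map_zero] at h2
      exact Subtype.ext (Subtype.ext h2.symm)
    have h2 := LinearMap.finrank_le_finrank_of_injective hg
    have h3 : Module.finrank ℝ V = k := finrank_euclideanSpace_fin
    rw [le_div_iff₀ hn]
    have h4 : Module.finrank ℝ Z ≤ 3 * Module.finrank ℝ E₀ := by omega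
    have h5 : (Module.finrank ℝ Z : ℝ) ≤ 3 * Module.finrank ℝ E₀ := by exact_mod_cast h4
    linarith
  have t1 : 1 / 3 ≤ (Module.finrank ℝ E₁ᗮ : ℝ) / Module.finrank ℝ Z := by
    have h1 : Module.finrank ℝ E₁ ≤ Module.finrank ℝ E := Submodule.finrank_map_le _ _
    have h2 := Submodule.finrank_add_finrank_orthogonal E₁
    rw [le_div_iff₀ hn]
    have h4 : Module.finrank ℝ Z ≤ 3 * Module.finrank ℝ E₁ᗮ := by omega
    have h5 : (Module.finrank ℝ Z : ℝ) ≤ 3 * Module.finrank ℝ E₁ᗮ := by exact_mod_cast h4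
    linarith
  obtain ⟨α, g0, g1⟩ := hgood E₀ E₁ᗮ
  obtain ⟨J, hJ1, hJ2, hJ3⟩ := X.good_block E₀ α g0 t0
  let Q : E →ₗ[ℝ] M := X.π α ∘ₗ WithLp.fstₗ 2 ℝ Z V ∘ₗ E.subtype
  let J' : M →ₗ[ℝ] E := LinearMap.codRestrict E (inl ∘ₗ J) hJ1
  refine ⟨Q, fun j => ?_⟩
  refine equi_split Q J' hJ2 ((chain X.nZ k j).comp E.subtype) (fun w => max ‖w‖ (X.sl w))
    (fun x => ?_) (fun w => ?_)
  · have h1 := X.proj_bound E₁ α g1 t1 (x : WithLp 2 (Z × V)).fst ⟨x, x.2, rfl⟩
    have h2 := fst_le_chain X.nZ k j x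
    calc _ ≤ _ := h1
      _ ≤ 12 * chain X.nZ k j x := by linarith
  · have h1 : chain X.nZ k j (inl (J w)) = X.nZ (J w) := chain_of_snd _ _ _ rfl
    calc _ = _ := h1
      _ ≤ _ := hJ3 w

end Blk

end Pool.Agent.MP_c45dcf_an

end MrgPart2

-- ======== part 3: formerly Pool.Agent.MP_c45dcf_an.Lower
section MrgPart3

/-!
In `Z` every Rademacher average of `k` vectors of the unit ball can be corrected, by a term
orthogonal to the Rademacher functions, to have small expected norm.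
-/

set_option autoImplicit false

namespace Pool.Agent.MP_c45dcf_an

open Finset

lemma map_rad {V W : Type} [AddCommGroup V] [Module ℝ V] [AddCommGroup W] [Module ℝ W]
    (L : V →ₗ[ℝ] W) {k : ℕ} (m : Fin k → V) (s : Fin k → Bool) :
    L (rad m s) = rad (fun i => L (m i)) s := by
  simp [rad]

lemma rad_add {V : Type} [AddCommGroup V] [Module ℝ V] {k : ℕ} (a b : Fin k → V)
    (s : Fin k → Bool) : rad (fun i => a i + b i) s = rad a s + rad b s := by
  simp [rad, Finset.sum_add_distrib]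

lemma norm_rad_le {V : Type} [NormedAddCommGroup V] [NormedSpace ℝ V] {k : ℕ} (hk : (0 : ℝ) < k)
    (c : Fin k → V) {a : ℝ} (h : ∀ i, ‖c i‖ ≤ a) (s : Fin k → Bool) : ‖rad c s‖ ≤ a := by
  rw [rad, norm_smul, Real.norm_eq_abs, abs_of_pos (by positivity)]
  have h1 : ∀ i, ‖sg (s i) • c i‖ ≤ a := by
    intro i; rw [norm_smul, Real.norm_eq_abs, abs_sg, one_mul]; exact h i
  have h2 := Finset.sum_le_card_nsmul Finset.univ _ _ (fun i _ => h1 i)
  rw [Finset.card_univ, Fintype.card_fin, nsmul_eq_mul] at h2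
  calc 1 / (k : ℝ) * ‖∑ i, sg (s i) • c i‖ ≤ 1 / (k : ℝ) * (k * a) := by
        gcongr; exact (norm_sum_le _ _).trans h2
    _ = a := by field_simp

lemma le_add_sq_div {x a : ℝ} (ha : 0 < a) : x ≤ a + 1 / a * x ^ 2 := by
  have h : 0 ≤ 1 / a * ((x - a / 2) ^ 2 + 3 / 4 * a ^ 2) := by positivity
  have e : 1 / a * ((x - a / 2) ^ 2 + 3 / 4 * a ^ 2) = a + 1 / a * x ^ 2 - x := by
    field_simp; ring
  linarith

lemma le_add_four_div {x a : ℝ} (ha : 0 < a) : x ≤ a + 1 / a ^ 3 * x ^ 4 := by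
  rcases le_total x a with h | h
  · have : 0 ≤ 1 / a ^ 3 * x ^ 4 := by positivity
    linarith
  · have hx : 0 < x := by linarith
    have h1 : a ^ 3 ≤ x ^ 3 := by gcongr
    have h2 : x ≤ 1 / a ^ 3 * x ^ 4 := by
      rw [one_div, ← div_eq_inv_mul, le_div_iff₀ (by positivity)]
      nlinarith
    linarith

variable {Z F M B : Type} [NormedAddCommGroup Z] [InnerProductSpace ℝ Z]
  [FiniteDimensional ℝ Z] [NormedAddCommGroup F] [InnerProductSpace ℝ F] [FiniteDimensional ℝ F]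
  [NormedAddCommGroup M] [InnerProductSpace ℝ M] [DecidableEq B] [Fintype B]

namespace Blk
variable (X : Blk Z F M B)

lemma lower_spike {k : ℕ} (hk : (k : ℝ) = X.D ^ 2) {ε : ℝ} (hε : 0 < ε) (h5 : X.r ≤ ε)
    (h6 : 4 * X.Λ ≤ ε * X.D) (h8 : X.η * X.Λ * X.D ≤ ε)
    (f : Fin k → B → F) (hf : ∀ i, ∑ β, X.ν (f i β) ≤ 2) :
    av (fun s => X.nZ (rad (fun i => ∑ β, X.G β (f i β)) s)) ≤ 8 * ε := by
  have hD : 0 < X.D := by linarith [X.one_le_D]
  have hΛ : 0 < X.Λ := by linarith [X.one_le]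
  have hk0 : (0 : ℝ) < k := by rw [hk]; positivity
  have hr := X.r_pos
  have hη := X.η_pos
  set y : Fin k → Z := fun i => ∑ β, X.G β (f i β) with hy
  set w : B → Fin k → M := fun β i => X.pM (f i β) with hw
  have p1 : ∀ s, X.nZ (rad y s) ≤ ‖rad y s‖ +
      (X.r + 2 * ε + (X.D ^ 2 / X.r) * ∑ β, ‖rad (w β) s‖ ^ 2) := by
    intro s
    have q0 : 0 ≤ ∑ β, ‖rad (w β) s‖ ^ 2 := Finset.sum_nonneg fun _ _ => sq_nonneg _
    refine (X.nZ_le_base _).trans (X.base_le (le_add_of_nonneg_right (by positivity)) fun β => ?_)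
    refine (X.hD _).trans ?_
    have e : X.π β (rad y s) = rad (w β) s + rad (fun i => X.π β (y i) - w β i) s := by
      rw [map_rad, ← rad_add]; simp
    have q1 : ‖rad (fun i => X.π β (y i) - w β i) s‖ ≤ X.η * (X.Λ * 2) := by
      refine norm_rad_le hk0 _ (fun i => ?_) s
      have c1 := X.π_sum_sub β Finset.univ (f i)
      rw [if_pos (Finset.mem_univ _)] at c1
      exact c1.trans (by gcongr; exact X.sum_norm_le (hf i) _)
    have q2 : ‖rad (w β) s‖ ^ 2 ≤ ∑ β, ‖rad (w β) s‖ ^ 2 :=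
      Finset.single_le_sum (f := fun β => ‖rad (w β) s‖ ^ 2) (fun _ _ => sq_nonneg _)
        (Finset.mem_univ β)
    have q3 := le_add_sq_div (x := X.D * ‖rad (w β) s‖) hr
    have q4 : 1 / X.r * (X.D * ‖rad (w β) s‖) ^ 2 ≤
        (X.D ^ 2 / X.r) * ∑ β, ‖rad (w β) s‖ ^ 2 := by
      calc _ = (X.D ^ 2 / X.r) * ‖rad (w β) s‖ ^ 2 := by ring
        _ ≤ _ := by gcongr
    have q5 : X.D * ‖X.π β (rad y s)‖ ≤ X.D * (‖rad (w β) s‖ + X.η * (X.Λ * 2)) := by
      gcongr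
      rw [e]
      exact (norm_add_le _ _).trans (by gcongr)
    nlinarith [norm_nonneg (rad y s)]
  refine (av_mono p1).trans ?_
  rw [av_add, av_add, av_const, av_const_mul, av_sum]
  have a1 : av (fun s => ‖rad y s‖) ≤ ε := by
    refine (av_rad_le hD hk (a := 4 * X.Λ) (by positivity) y fun i => ?_).trans ?_
    · linarith [X.norm_sum_G_le (hf i) Finset.univ]
    · rwa [div_le_iff₀ hD]
  have a2 : ∑ β, av (fun s => ‖rad (w β) s‖ ^ 2) ≤ (1 / (k : ℝ)) ^ 2 * (k * (2 * X.r) ^ 2) := by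
    simp_rw [av_rad_sq]
    rw [← Finset.mul_sum, Finset.sum_comm]
    gcongr
    have c1 : ∀ i, ∑ β, ‖w β i‖ ^ 2 ≤ (2 * X.r) ^ 2 := by
      intro i
      refine (Finset.sum_sq_le_sq_sum_of_nonneg fun _ _ => norm_nonneg _).trans ?_
      gcongr
      calc ∑ β, ‖w β i‖ ≤ ∑ β, X.r * X.ν (f i β) := Finset.sum_le_sum fun β _ => X.hr _
        _ ≤ 2 * X.r := by rw [← Finset.mul_sum]; nlinarith [hf i]
    have c2 := Finset.sum_le_card_nsmul Finset.univ _ _ (fun i _ => c1 i)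
    rwa [Finset.card_univ, Fintype.card_fin, nsmul_eq_mul] at c2
  have a3 : X.D ^ 2 / X.r * ∑ β, av (fun s => ‖rad (w β) s‖ ^ 2) ≤ 4 * X.r := by
    calc _ ≤ X.D ^ 2 / X.r * ((1 / (k : ℝ)) ^ 2 * (k * (2 * X.r) ^ 2)) := by gcongr
      _ = 4 * X.r := by rw [hk]; field_simp; ring
  linarith

lemma lower_base {k : ℕ} (hk : (k : ℝ) = X.D ^ 2) {ε δ : ℝ} (hε : 0 < ε) (hδ : 0 ≤ δ) (r1 r2 : ℕ)
    (hlift : ∀ c : Fin k → M, (∀ i, X.sl (c i) ≤ 2) → (∀ i, ‖c i‖ ≤ 4) →
      ∃ ρ : (Fin k → Bool) → F, (∀ i, ∑ s : Fin k → Bool, sg (s i) • ρ s = 0) ∧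
        av (fun s => X.ν (X.iM (rad c s) + ρ s)) ≤ δ)
    (h1 : r1 * δ ≤ ε) (h2 : 8 ≤ ε ^ 4 * (r1 + 1)) (h3 : 8 * k ≤ (ε / X.D) ^ 2 * (r2 + 1))
    (h4 : (r1 + 1) * X.η ≤ 1) (h4' : (r2 + 1) * X.η ≤ 1)
    (h7 : 2 + 8 * r1 ≤ ε * X.D) (h9 : X.η * r1 * X.D ≤ ε)
    (b : Fin k → Z) (hb : ∀ i, X.base (b i) ≤ 2) :
    ∃ ρ : (Fin k → Bool) → Z, (∀ i, ∑ s : Fin k → Bool, sg (s i) • ρ s = 0) ∧
      av (fun s => X.nZ (rad b s + ρ s)) ≤ 31 * ε := by
  have hD : 0 < X.D := by linarith [X.one_le_D]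
  have hk0 : (0 : ℝ) < k := by rw [hk]; positivity
  have hη := X.η_pos
  have hb1 : ∀ i, ‖b i‖ ≤ 2 := fun i => (X.norm_le_base _).trans (hb i)
  have hb2 : ∑ i, ‖b i‖ ^ 2 ≤ 4 * k := by
    have c := Finset.sum_le_card_nsmul Finset.univ (fun i => ‖b i‖ ^ 2) 4
      (fun i _ => by nlinarith [hb1 i, norm_nonneg (b i)])
    rw [Finset.card_univ, Fintype.card_fin, nsmul_eq_mul] at c
    linarith
  set c : B → Fin k → M := fun β i => X.π β (b i) with hc
  have hc1 : ∀ β i, ‖c β i‖ ≤ 4 := fun β i => by linarith [X.norm_π_le β (b i), hb1 i]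
  have hc2 : ∀ β, ∑ i, ‖c β i‖ ^ 2 ≤ ∑ i, ‖X.Gs β (b i)‖ ^ 2 := fun β =>
    Finset.sum_le_sum fun i _ => pow_le_pow_left₀ (norm_nonneg _) (X.p_le _) 2
  choose ρ hρ1 hρ2 using fun β => hlift (c β) (fun i => (X.sl_le_base β _).trans (hb i)) (hc1 β)
  obtain ⟨t1, c1, -, o1⟩ := X.exists_relevant b (a := ε ^ 4 * k) r1 h4 (by nlinarith)
  obtain ⟨t2, c2, -, o2⟩ := X.exists_relevant b (a := (ε / X.D) ^ 2) r2 h4' (by linarith)
  have c1' : (t1.card : ℝ) ≤ r1 := by exact_mod_cast c1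
  have c2' : ((t2 \ t1).card : ℝ) ≤ r2 := by
    exact_mod_cast (Finset.card_le_card Finset.sdiff_subset).trans c2
  refine ⟨fun s => ∑ β ∈ t1, X.G β (ρ β s), fun i => ?_, ?_⟩
  · simp_rw [Finset.smul_sum, ← map_smul]
    rw [Finset.sum_comm]
    refine Finset.sum_eq_zero fun β _ => ?_
    rw [← map_sum, hρ1, map_zero]
  have p1 : ∀ s, X.nZ (rad b s + ∑ β ∈ t1, X.G β (ρ β s)) ≤
      (‖rad b s‖ + 2 * ∑ β ∈ t1, ‖rad (c β) s‖) +
      (5 * ε + (X.D ^ 4 / ε ^ 3) * ∑ β ∈ t2 \ t1, ‖rad (c β) s‖ ^ 4) +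
      ∑ β ∈ t1, X.ν (X.iM (rad (c β) s) + ρ β s) := by
    intro s
    set b' := rad b s - ∑ β ∈ t1, X.G β (X.iM (rad (c β) s)) with hb'
    have e : rad b s + ∑ β ∈ t1, X.G β (ρ β s) =
        b' + ∑ β ∈ t1, X.G β (X.iM (rad (c β) s) + ρ β s) := by
      simp only [hb', map_add, Finset.sum_add_distrib]; abel
    rw [e]
    refine (map_add_le_add _ _ _).trans (add_le_add ?_ ((seminorm_sum_le _ _ _).trans
      (Finset.sum_le_sum fun β _ => X.nZ_G_le β _)))
    have q0 : 0 ≤ ∑ β ∈ t2 \ t1, ‖rad (c β) s‖ ^ 4 := Finset.sum_nonneg fun _ _ => by positivity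
    have q1 : 0 ≤ ∑ β ∈ t1, ‖rad (c β) s‖ := Finset.sum_nonneg fun _ _ => norm_nonneg _
    have q2 : 0 ≤ (X.D ^ 4 / ε ^ 3) * ∑ β ∈ t2 \ t1, ‖rad (c β) s‖ ^ 4 := by positivity
    refine (X.nZ_le_base _).trans (X.base_le ?_ fun γ => ?_)
    · refine le_trans ?_ (le_add_of_nonneg_right (by positivity))
      refine (norm_sub_le _ _).trans (add_le_add le_rfl ((norm_sum_le _ _).trans ?_))
      rw [Finset.mul_sum]
      exact Finset.sum_le_sum fun β _ => by
        linarith [X.norm_G_le β (X.iM (rad (c β) s)), X.i_le (rad (c β) s)]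
    · refine le_trans ?_ (le_add_of_nonneg_left (by positivity))
      refine (X.hD _).trans ?_
      have d1 := X.π_sum_sub γ t1 (fun β => X.iM (rad (c β) s))
      rw [X.pi] at d1
      have d2 : ∑ β ∈ t1, ‖X.iM (rad (c β) s)‖ ≤ r1 * 4 := by
        have := Finset.sum_le_card_nsmul t1 (fun β => ‖X.iM (rad (c β) s)‖) 4
          (fun β _ => (X.i_le _).trans (norm_rad_le hk0 _ (hc1 β) s))
        rw [nsmul_eq_mul] at this
        linarith
      set err := X.π γ (∑ β ∈ t1, X.G β (X.iM (rad (c β) s))) -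
        (if γ ∈ t1 then rad (c γ) s else 0) with herr
      have d3 : X.D * ‖err‖ ≤ 4 * ε := by
        calc X.D * ‖err‖ ≤ X.D * (X.η * (r1 * 4)) := by
              gcongr; exact d1.trans (by gcongr)
          _ ≤ _ := by nlinarith
      have d4 : X.π γ b' = (if γ ∈ t1 then 0 else rad (c γ) s) - err := by
        rw [hb', map_sub, map_rad, herr]
        split_ifs <;> simp [hc]
      have d5 : X.D * ‖if γ ∈ t1 then 0 else rad (c γ) s‖ ≤
          ε + (X.D ^ 4 / ε ^ 3) * ∑ β ∈ t2 \ t1, ‖rad (c β) s‖ ^ 4 := by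
        split_ifs with g1
        · rw [norm_zero, mul_zero]; positivity
        · by_cases g2 : γ ∈ t2
          · have e1 := le_add_four_div (x := X.D * ‖rad (c γ) s‖) hε
            have e2 : ‖rad (c γ) s‖ ^ 4 ≤ ∑ β ∈ t2 \ t1, ‖rad (c β) s‖ ^ 4 :=
              Finset.single_le_sum (f := fun β => ‖rad (c β) s‖ ^ 4) (fun _ _ => by positivity)
                (Finset.mem_sdiff.mpr ⟨g2, g1⟩)
            have e3 : 1 / ε ^ 3 * (X.D * ‖rad (c γ) s‖) ^ 4 ≤
                (X.D ^ 4 / ε ^ 3) * ∑ β ∈ t2 \ t1, ‖rad (c β) s‖ ^ 4 := by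
              calc _ = (X.D ^ 4 / ε ^ 3) * ‖rad (c γ) s‖ ^ 4 := by ring
                _ ≤ _ := by gcongr
            linarith
          · have e1 : ‖rad (c γ) s‖ ≤ ε / X.D := by
              refine norm_rad_le hk0 _ (fun i => ?_) s
              refine (pow_le_pow_iff_left₀ (norm_nonneg _) (by positivity) two_ne_zero).mp ?_
              exact (Finset.single_le_sum (f := fun i => ‖c γ i‖ ^ 2) (fun _ _ => sq_nonneg _)
                (Finset.mem_univ i)).trans ((hc2 γ).trans (o2 γ g2))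
            rw [le_div_iff₀' hD] at e1
            linarith
      calc X.D * ‖X.π γ b'‖ ≤ X.D * (‖if γ ∈ t1 then 0 else rad (c γ) s‖ + ‖err‖) := by
            gcongr; rw [d4]; exact norm_sub_le _ _
        _ ≤ _ := by linarith
  refine (av_mono p1).trans ?_
  rw [av_add, av_add, av_add, av_add, av_const, av_const_mul, av_const_mul, av_sum, av_sum, av_sum]
  have a1 := av_rad_le hD hk (by norm_num : (0 : ℝ) < 2) b hb1
  have a2 : ∑ β ∈ t1, av (fun s => ‖rad (c β) s‖) ≤ r1 * (4 / X.D) := by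
    have := Finset.sum_le_card_nsmul t1 _ _
      (fun β _ => av_rad_le hD hk (by norm_num : (0 : ℝ) < 4) (c β) (hc1 β))
    rw [nsmul_eq_mul] at this
    exact this.trans (by gcongr)
  have a3 : 2 / X.D + 2 * (r1 * (4 / X.D)) ≤ ε := by
    have : 2 / X.D + 2 * (r1 * (4 / X.D)) = (2 + 8 * r1) / X.D := by ring
    rw [this, div_le_iff₀ hD]; exact h7
  have a4 : ∑ β ∈ t1, av (fun s => X.ν (X.iM (rad (c β) s) + ρ β s)) ≤ ε := by
    have := Finset.sum_le_card_nsmul t1 _ _ (fun β _ => hρ2 β)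
    rw [nsmul_eq_mul] at this
    exact this.trans (le_trans (by gcongr) h1)
  have a5 : ∑ β ∈ t2 \ t1, av (fun s => ‖rad (c β) s‖ ^ 4) ≤
      (3 * ε ^ 4 / k ^ 3) * (8 * k) := by
    have d1 : ∀ β ∈ t2 \ t1, av (fun s => ‖rad (c β) s‖ ^ 4) ≤
        (3 * ε ^ 4 / k ^ 3) * ∑ i, ‖X.Gs β (b i)‖ ^ 2 := by
      intro β hβ
      refine (av_rad_four _).trans ?_
      have e1 := o1 β (Finset.mem_sdiff.mp hβ).2
      have e2 := hc2 β
      have e3 : 0 ≤ ∑ i, ‖c β i‖ ^ 2 := Finset.sum_nonneg fun _ _ => sq_nonneg _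
      calc 3 * ((1 / (k : ℝ)) ^ 2 * ∑ i, ‖c β i‖ ^ 2) ^ 2
          = 3 / k ^ 4 * ((∑ i, ‖c β i‖ ^ 2) * ∑ i, ‖c β i‖ ^ 2) := by field_simp
        _ ≤ 3 / k ^ 4 * ((ε ^ 4 * k) * ∑ i, ‖X.Gs β (b i)‖ ^ 2) := by
            gcongr; exact e2.trans e1
        _ = _ := by field_simp
    refine (Finset.sum_le_sum d1).trans ?_
    rw [← Finset.mul_sum]
    gcongr
    have := X.sum_sum_Gs_sq b (t2 \ t1) (by nlinarith)
    linarith
  have a6 : X.D ^ 4 / ε ^ 3 * ∑ β ∈ t2 \ t1, av (fun s => ‖rad (c β) s‖ ^ 4) ≤ 24 * ε := by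
    calc _ ≤ X.D ^ 4 / ε ^ 3 * ((3 * ε ^ 4 / k ^ 3) * (8 * k)) := by gcongr
      _ = 24 * ε := by rw [hk]; field_simp; ring
  linarith

theorem lower {k : ℕ} (hk : (k : ℝ) = X.D ^ 2) {ε δ : ℝ} (hε : 0 < ε) (hδ : 0 ≤ δ) (r1 r2 : ℕ)
    (hlift : ∀ c : Fin k → M, (∀ i, X.sl (c i) ≤ 2) → (∀ i, ‖c i‖ ≤ 4) →
      ∃ ρ : (Fin k → Bool) → F, (∀ i, ∑ s : Fin k → Bool, sg (s i) • ρ s = 0) ∧
        av (fun s => X.ν (X.iM (rad c s) + ρ s)) ≤ δ)
    (h1 : r1 * δ ≤ ε) (h2 : 8 ≤ ε ^ 4 * (r1 + 1)) (h3 : 8 * k ≤ (ε / X.D) ^ 2 * (r2 + 1))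
    (h4 : (r1 + 1) * X.η ≤ 1) (h4' : (r2 + 1) * X.η ≤ 1) (h5 : X.r ≤ ε)
    (h6 : 4 * X.Λ ≤ ε * X.D) (h7 : 2 + 8 * r1 ≤ ε * X.D) (h8 : X.η * X.Λ * X.D ≤ ε)
    (h9 : X.η * r1 * X.D ≤ ε) (m : Fin k → Z) (hm : ∀ i, X.nZ (m i) ≤ 1) :
    ∃ ρ : (Fin k → Bool) → Z, (∀ i, ∑ s : Fin k → Bool, sg (s i) • ρ s = 0) ∧
      av (fun s => X.nZ (rad m s + ρ s)) ≤ 39 * ε := by
  choose b f e hb hf using fun i => X.nZ_dec (z := m i) (a := 2) (by linarith [hm i])
  obtain ⟨ρ, hρ1, hρ2⟩ := X.lower_base hk hε hδ r1 r2 hlift h1 h2 h3 h4 h4' h7 h9 b hb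
  have hs := X.lower_spike hk hε h5 h6 h8 f hf
  refine ⟨ρ, hρ1, ?_⟩
  have p : ∀ s, X.nZ (rad m s + ρ s) ≤ X.nZ (rad b s + ρ s) +
      X.nZ (rad (fun i => ∑ β, X.G β (f i β)) s) := by
    intro s
    have e2 : rad m s + ρ s = (rad b s + ρ s) + rad (fun i => ∑ β, X.G β (f i β)) s := by
      rw [show m = fun i => b i + ∑ β, X.G β (f i β) from funext e, rad_add]; abel
    rw [e2]
    exact map_add_le_add _ _ _
  refine (av_mono p).trans ?_
  rw [av_add]
  linarith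

end Blk

end Pool.Agent.MP_c45dcf_an

end MrgPart3

-- ======== part 4: formerly Pool.Agent.MP_c45dcf_an.Cut
section MrgPart4

set_option autoImplicit false

namespace Pool.Agent.MP_c45dcf_an

open Finset Module

namespace Cut

lemma exists_net_euclid (m : ℕ) {δ : ℝ} (hδ : 0 < δ) :
    ∃ s : Finset (EuclideanSpace ℝ (Fin m)), ∀ y : EuclideanSpace ℝ (Fin m), ‖y‖ ≤ 1 →
      ∃ y' ∈ s, ‖y'‖ ≤ 1 ∧ ‖y - y'‖ ≤ δ := by
  classical
  obtain ⟨t, ht, hfin, hcov⟩ := finite_cover_balls_of_compact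
    (isCompact_closedBall (0 : EuclideanSpace ℝ (Fin m)) 1) hδ
  refine ⟨hfin.toFinset, fun y hy => ?_⟩
  have := hcov (by simpa using hy : y ∈ Metric.closedBall (0 : EuclideanSpace ℝ (Fin m)) 1)
  simp only [Set.mem_iUnion, Metric.mem_ball] at this
  obtain ⟨y', h1, h2⟩ := this
  refine ⟨y', by simpa using h1, by simpa using ht h1, ?_⟩
  rw [← dist_eq_norm]; exact h2.le

lemma exists_net (m : ℕ) {δ : ℝ} (hδ : 0 < δ) :
    ∃ c : ℕ, ∀ (M : Type) [NormedAddCommGroup M] [InnerProductSpace ℝ M] [FiniteDimensional ℝ M],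
      Module.finrank ℝ M ≤ m → ∃ s : Finset M, s.card ≤ c ∧
        ∀ y : M, ‖y‖ ≤ 1 → ∃ y' ∈ s, ‖y - y'‖ ≤ δ := by
  classical
  choose s hs using fun m' => exists_net_euclid m' hδ
  refine ⟨∑ m' ∈ range (m + 1), (s m').card, fun M _ _ _ hM => ?_⟩
  let b := stdOrthonormalBasis ℝ M
  refine ⟨(s _).image b.repr.symm, card_image_le.trans ?_, fun y hy => ?_⟩
  · exact single_le_sum (f := fun m' => (s m').card) (fun _ _ => Nat.zero_le _)
      (mem_range.2 (Nat.lt_succ_of_le hM))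
  · obtain ⟨y', h1, -, h2⟩ := hs _ (b.repr y) (by simpa using hy)
    refine ⟨b.repr.symm y', mem_image_of_mem _ h1, ?_⟩
    rw [← b.repr.norm_map, map_sub]; simpa using h2

section loc
variable {E : Type} [NormedAddCommGroup E] [InnerProductSpace ℝ E] [FiniteDimensional ℝ E]

/-- two-sided Euclidean bound -/
def Euc (C : ℝ) (p : Seminorm ℝ E) : Prop := ∀ x, ‖x‖ ≤ C * p x ∧ p x ≤ C * ‖x‖

lemma lift_step (m : ℕ) {C : ℝ} (hC : 1 ≤ C) :
    ∃ c : ℕ, ∀ (E : Type) [NormedAddCommGroup E] [InnerProductSpace ℝ E] [FiniteDimensional ℝ E]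
      (p : Seminorm ℝ E), Euc C p → ∀ M : Submodule ℝ E, finrank ℝ M ≤ m →
      ∃ M' : Submodule ℝ E, M ≤ M' ∧ finrank ℝ M' ≤ m + c ∧
        ∀ x, ∃ g ∈ M', M.starProjection g = M.starProjection x ∧ p g ≤ 2 * p x := by
  classical
  have hδ : 0 < 1 / (3 * C ^ 2) := by positivity
  obtain ⟨c, hc⟩ := exists_net m hδ
  refine ⟨c, fun E _ _ _ p hp M hM => ?_⟩
  obtain ⟨s, hs, hnet⟩ := hc M hM
  set δ := 1 / (3 * C ^ 2) with hδdef
  have hl : ∀ y : M, ∃ x : E, M.starProjection x = y ∧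
      ∀ x', M.starProjection x' = y → p x ≤ p x' + δ := by
    intro y
    let S : Set ℝ := (fun x => p x) '' {x | M.starProjection x = y}
    have hne : S.Nonempty := ⟨_, y, Submodule.starProjection_eq_self_iff.2 y.2, rfl⟩
    have hbd : BddBelow S := ⟨0, by rintro _ ⟨x, -, rfl⟩; exact apply_nonneg _ _⟩
    obtain ⟨_, ⟨x, hx, rfl⟩, hlt⟩ := Real.lt_sInf_add_pos hne hδ
    refine ⟨x, hx, fun x' hx' => ?_⟩
    have := csInf_le hbd ⟨x', hx', rfl⟩
    simp only at hlt this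
    linarith
  choose lf hlf using hl
  refine ⟨M ⊔ Submodule.span ℝ (s.image lf : Set E), le_sup_left, ?_, fun x => ?_⟩
  · refine (Submodule.finrank_add_le_finrank_add_finrank _ _).trans ?_
    have := finrank_span_finset_le_card (R := ℝ) (s.image lf)
    have h2 : (s.image lf).card ≤ c := card_image_le.trans hs
    unfold Set.finrank at this
    omega
  · by_cases h0 : M.starProjection x = 0
    · exact ⟨0, zero_mem _, by simp [h0], by simp [apply_nonneg]⟩
    set t := ‖M.starProjection x‖ with ht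
    have htp : 0 < t := norm_pos_iff.2 h0
    have hmem : M.starProjection x ∈ M := M.starProjection_apply_mem x
    let y : M := t⁻¹ • ⟨_, hmem⟩
    have hy : (y : E) = t⁻¹ • M.starProjection x := rfl
    have hy1 : ‖y‖ ≤ 1 := by
      rw [Submodule.coe_norm, hy, norm_smul, ← ht, norm_inv, Real.norm_eq_abs, abs_of_pos htp,
        inv_mul_cancel₀ htp.ne']
    obtain ⟨y', hy', hd⟩ := hnet y hy1
    have hd' : ‖(y : E) - y'‖ ≤ δ := by simpa using hd
    refine ⟨t • (lf y' + ((y : E) - y')), ?_, ?_, ?_⟩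
    · refine Submodule.smul_mem _ _ (add_mem ?_ ?_)
      · exact Submodule.mem_sup_right (Submodule.subset_span (mem_coe.2 (mem_image_of_mem _ hy')))
      · exact Submodule.mem_sup_left (sub_mem y.2 y'.2)
    · rw [map_smul, map_add, (hlf y').1, Submodule.starProjection_eq_self_iff.2 (sub_mem y.2 y'.2),
        add_sub_cancel, hy, smul_smul, mul_inv_cancel₀ htp.ne', one_smul]
    · have h1 := (hlf y').2 (t⁻¹ • x - ((y : E) - y')) (by
        rw [map_sub, map_smul, Submodule.starProjection_eq_self_iff.2 (sub_mem y.2 y'.2), ← hy]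
        simp)
      have h2 := map_sub_le_add p (t⁻¹ • x) ((y : E) - y')
      have h3 : p ((y : E) - y') ≤ C * δ := ((hp _).2).trans (by gcongr)
      have h4 := map_add_le_add p (lf y') ((y : E) - y')
      rw [map_smul_eq_mul, Real.norm_eq_abs, abs_of_pos (inv_pos.2 htp)] at h2
      rw [map_smul_eq_mul, Real.norm_eq_abs, abs_of_pos htp]
      have h5 : t ≤ C * p x := (M.norm_starProjection_apply_le x).trans (hp x).1
      have h6 : p (lf y' + ((y : E) - y')) ≤ t⁻¹ * p x + 3 * C * δ := by nlinarith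
      have h7 : 3 * C * δ = C⁻¹ := by rw [hδdef]; field_simp
      have h8 : t * C⁻¹ ≤ p x := by rw [mul_inv_le_iff₀ (by linarith)]; linarith
      calc t * p (lf y' + ((y : E) - y')) ≤ t * (t⁻¹ * p x + C⁻¹) := by rw [← h7]; gcongr
        _ = p x + t * C⁻¹ := by field_simp
        _ ≤ 2 * p x := by linarith

omit [FiniteDimensional ℝ E] in
lemma norm_sum_sq_le_chain (M : ℕ → Submodule ℝ E) (hM : Monotone M) (b : ℕ → E) {β : ℝ} (J : ℕ)
    (h1 : ∀ j < J, b j ∈ M (j + 1)) (h2 : ∀ j < J, b j ∈ (M j)ᗮ) (h3 : ∀ j < J, ‖b j‖ ^ 2 ≤ β) :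
    (∑ j ∈ range J, b j) ∈ M J ∧ ‖∑ j ∈ range J, b j‖ ^ 2 ≤ J * β := by
  induction J with
  | zero => simp
  | succ J ih =>
    obtain ⟨i1, i2⟩ := ih (fun j hj => h1 j (by omega)) (fun j hj => h2 j (by omega))
      (fun j hj => h3 j (by omega))
    rw [sum_range_succ]
    refine ⟨add_mem (hM (Nat.le_succ J) i1) (h1 J (by omega)), ?_⟩
    rw [norm_add_sq_real, Submodule.inner_right_of_mem_orthogonal i1 (h2 J (by omega))]
    have := h3 J (by omega)
    push_cast; linarith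

lemma avg_bound {C : ℝ} (hC : 1 ≤ C) (p : Seminorm ℝ E) (hp : Euc C p) (M : ℕ → Submodule ℝ E)
    (hM : Monotone M) (J : ℕ) (hJ : 9 * C ^ 4 ≤ J)
    (hl : ∀ j < J, ∀ x, ∃ g ∈ M (j + 1), (M j).starProjection g = (M j).starProjection x ∧
      p g ≤ 2 * p x) (x : E) :
    p ((J : ℝ)⁻¹ • ∑ j ∈ range J, (M (j + 1)).starProjection x) ≤ 3 * p x := by
  have hJ0 : (0 : ℝ) < J := lt_of_lt_of_le (by positivity) hJ
  choose! g hg using fun j hj => hl j hj x
  let b : ℕ → E := fun j => (M (j + 1)).starProjection x - g j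
  have hpx := apply_nonneg p x
  obtain ⟨-, hb⟩ := norm_sum_sq_le_chain M hM b (β := (3 * C * p x) ^ 2) J
    (fun j hj => sub_mem ((M (j + 1)).starProjection_apply_mem x) (hg j hj).1)
    (fun j hj => by
      rw [← Submodule.starProjection_apply_eq_zero_iff, map_sub, (hg j hj).2.1, sub_eq_zero]
      have := Submodule.starProjection_comp_starProjection_of_le (hM (Nat.le_succ j))
      exact congrArg (fun f => f x) this)
    (fun j hj => by
      refine pow_le_pow_left₀ (norm_nonneg _) ((norm_sub_le _ _).trans ?_) 2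
      have a1 := ((M (j + 1)).norm_starProjection_apply_le x).trans (hp x).1
      have a2 := (hp (g j)).1
      have a3 : C * p (g j) ≤ C * (2 * p x) := by gcongr; exact (hg j hj).2.2
      linarith)
  have e : ∑ j ∈ range J, (M (j + 1)).starProjection x =
      ∑ j ∈ range J, g j + ∑ j ∈ range J, b j := by
    rw [← sum_add_distrib]; exact sum_congr rfl fun j _ => by simp [b]
  have h1 : p (∑ j ∈ range J, g j) ≤ J * (2 * p x) := by
    refine (le_sum_of_subadditive p (map_zero p).le (map_add_le_add p) _ _).trans ?_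
    refine (sum_le_card_nsmul _ _ _ fun j hj => (hg j (mem_range.1 hj)).2.2).trans ?_
    simp
  have h2 : p (∑ j ∈ range J, b j) ≤ J * p x := by
    refine (hp _).2.trans ?_
    refine abs_le_of_sq_le_sq' ?_ (by positivity) |>.2
    rw [mul_pow]
    calc C ^ 2 * ‖∑ j ∈ range J, b j‖ ^ 2 ≤ C ^ 2 * (J * (3 * C * p x) ^ 2) := by gcongr
      _ = (9 * C ^ 4) * (J * p x ^ 2) := by ring
      _ ≤ J * (J * p x ^ 2) := by gcongr
      _ = _ := by ring
  rw [map_smul_eq_mul, Real.norm_eq_abs, abs_of_pos (inv_pos.2 hJ0), e, inv_mul_le_iff₀ hJ0]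
  have := map_add_le_add p (∑ j ∈ range J, g j) (∑ j ∈ range J, b j)
  linarith

/-- localisation: a finite-codimensional subspace is seen by a bounded operator of bounded rank -/
theorem localise (k : ℕ) {C : ℝ} (hC : 1 ≤ C) :
    ∃ N : ℕ, ∀ (E : Type) [NormedAddCommGroup E] [InnerProductSpace ℝ E] [FiniteDimensional ℝ E]
      (p q : Seminorm ℝ E), Euc C p → Euc C q → ∀ K : Submodule ℝ E, finrank ℝ Kᗮ ≤ k →
      ∃ (G : Submodule ℝ E) (T : E →ₗ[ℝ] E), finrank ℝ G ≤ N ∧ (∀ x, T x ∈ G) ∧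
        (∀ x, x - T x ∈ K) ∧ (∀ x, p (T x) ≤ 3 * p x) ∧ ∀ x, q (T x) ≤ 3 * q x := by
  have chain : ∀ J : ℕ, ∃ N : ℕ, ∀ (E : Type) [NormedAddCommGroup E] [InnerProductSpace ℝ E]
      [FiniteDimensional ℝ E] (p q : Seminorm ℝ E), Euc C p → Euc C q → ∀ M0 : Submodule ℝ E,
      finrank ℝ M0 ≤ k → ∃ M : ℕ → Submodule ℝ E, M 0 = M0 ∧ Monotone M ∧ finrank ℝ (M J) ≤ N ∧
        (∀ j < J, ∀ x, ∃ g ∈ M (j + 1), (M j).starProjection g = (M j).starProjection x ∧
          p g ≤ 2 * p x) ∧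
        (∀ j < J, ∀ x, ∃ g ∈ M (j + 1), (M j).starProjection g = (M j).starProjection x ∧
          q g ≤ 2 * q x) := by
    intro J
    induction J with
    | zero =>
      exact ⟨k, fun E _ _ _ p q _ _ M0 h => ⟨fun _ => M0, rfl, monotone_const, h,
        fun j hj => absurd hj (by omega), fun j hj => absurd hj (by omega)⟩⟩
    | succ J ih =>
      obtain ⟨N, hN⟩ := ih
      obtain ⟨c, hc⟩ := lift_step N hC
      refine ⟨(N + c) + (N + c), fun E _ _ _ p q hp hq M0 h => ?_⟩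
      obtain ⟨M, h0, hm, hr, h1, h2⟩ := hN E p q hp hq M0 h
      obtain ⟨A, hA1, hA2, hA3⟩ := hc E p hp (M J) hr
      obtain ⟨B, hB1, hB2, hB3⟩ := hc E q hq (M J) hr
      refine ⟨fun j => if j ≤ J then M j else A ⊔ B, by simp [h0], ?_, ?_, ?_, ?_⟩
      · intro a b hab
        by_cases ha : a ≤ J <;> by_cases hb : b ≤ J <;> simp only [ha, hb, if_true, if_false]
        · exact hm hab
        · exact (hm ha).trans (hA1.trans le_sup_left)
        · omega
        · exact le_rfl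
      · have := Submodule.finrank_add_le_finrank_add_finrank A B
        have e : (fun j => if j ≤ J then M j else A ⊔ B) (J + 1) = A ⊔ B := if_neg (by omega)
        rw [e]; omega
      · intro j hj x
        by_cases hj' : j < J
        · simp only [show j + 1 ≤ J by omega, show j ≤ J by omega, if_true]
          exact h1 j hj' x
        · obtain rfl : j = J := by omega
          simp only [show ¬ (j + 1 ≤ j) by omega, le_refl, if_true, if_false]
          obtain ⟨g, a, b⟩ := hA3 x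
          exact ⟨g, Submodule.mem_sup_left a, b⟩
      · intro j hj x
        by_cases hj' : j < J
        · simp only [show j + 1 ≤ J by omega, show j ≤ J by omega, if_true]
          exact h2 j hj' x
        · obtain rfl : j = J := by omega
          simp only [show ¬ (j + 1 ≤ j) by omega, le_refl, if_true, if_false]
          obtain ⟨g, a, b⟩ := hB3 x
          exact ⟨g, Submodule.mem_sup_right a, b⟩
  obtain ⟨J, hJ⟩ := exists_nat_ge (9 * C ^ 4)
  have hJ0 : (0 : ℝ) < J := lt_of_lt_of_le (by positivity) hJ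
  obtain ⟨N, hN⟩ := chain J
  refine ⟨N, fun E _ _ _ p q hp hq K hK => ?_⟩
  obtain ⟨M, h0, hm, hr, h1, h2⟩ := hN E p q hp hq Kᗮ hK
  let T : E →ₗ[ℝ] E := (J : ℝ)⁻¹ • ∑ j ∈ range J, ((M (j + 1)).starProjection : E →ₗ[ℝ] E)
  have hT : ∀ x, T x = (J : ℝ)⁻¹ • ∑ j ∈ range J, (M (j + 1)).starProjection x := fun x => by
    simp [T, LinearMap.sum_apply]
  refine ⟨M J, T, hr, fun x => ?_, fun x => ?_, fun x => ?_, fun x => ?_⟩
  · rw [hT]
    exact Submodule.smul_mem _ _ (Submodule.sum_mem _ fun j hj =>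
      hm (by have := mem_range.1 hj; omega) ((M (j + 1)).starProjection_apply_mem x))
  · have e : x - T x = (J : ℝ)⁻¹ • ∑ j ∈ range J, (x - (M (j + 1)).starProjection x) := by
      rw [hT, sum_sub_distrib, smul_sub, sum_const, card_range, ← Nat.cast_smul_eq_nsmul ℝ,
        smul_smul, inv_mul_cancel₀ hJ0.ne', one_smul]
    rw [e]
    refine Submodule.smul_mem _ _ (Submodule.sum_mem _ fun j _ => ?_)
    have a1 := (M (j + 1)).sub_starProjection_mem_orthogonal x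
    have a2 : (M (j + 1))ᗮ ≤ (M 0)ᗮ := Submodule.orthogonal_le (hm (Nat.zero_le _))
    have a3 := a2 a1
    rwa [h0, Submodule.orthogonal_orthogonal] at a3
  · rw [hT]; exact avg_bound hC p hp M hm J hJ h1 x
  · rw [hT]; exact avg_bound hC q hq M hm J hJ h2 x

end loc

lemma exists_sup_finrank {E : Type} [AddCommGroup E] [Module ℝ E] [FiniteDimensional ℝ E]
    (G : Submodule ℝ E) (K : ℕ) (h1 : finrank ℝ G ≤ K) (h2 : K ≤ finrank ℝ E) :
    ∃ A : Submodule ℝ E, G ≤ A ∧ finrank ℝ A = K := by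
  induction K, h1 using Nat.le_induction with
  | base => exact ⟨G, le_rfl, rfl⟩
  | succ K hK ih =>
    obtain ⟨A, hA, hr⟩ := ih (by omega)
    have hne : A ≠ ⊤ := by
      rintro rfl
      rw [finrank_top] at hr; omega
    obtain ⟨v, -, hv⟩ := SetLike.exists_of_lt (lt_top_iff_ne_top.2 hne)
    refine ⟨A ⊔ Submodule.span ℝ {v}, hA.trans le_sup_left, ?_⟩
    have hv0 : v ≠ 0 := by rintro rfl; exact hv (zero_mem _)
    have := Submodule.finrank_sup_add_finrank_inf_eq A (Submodule.span ℝ {v})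
    rw [((Submodule.disjoint_span_singleton' hv0).2 hv).eq_bot, finrank_bot,
      finrank_span_singleton hv0] at this
    omega

end Cut

theorem cutStmt : CutStmt := by
  intro k D hD
  obtain ⟨N, hN⟩ := Cut.localise k (le_max_right D 1)
  refine ⟨N, fun H _ _ _ p q B h1 h2 h3 h4 hB hK => ?_⟩
  have e : ∀ {a b : ℝ}, 0 ≤ b → a ≤ D * b → a ≤ max D 1 * b := fun hb h =>
    h.trans (mul_le_mul_of_nonneg_right (le_max_left _ _) hb)
  obtain ⟨G, T, a1, a2, a3, a4, a5⟩ := hN H p q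
    (fun x => ⟨e (apply_nonneg _ _) (h1 x), e (norm_nonneg _) (h2 x)⟩)
    (fun x => ⟨e (apply_nonneg _ _) (h3 x), e (norm_nonneg _) (h4 x)⟩) B
    (by have := B.finrank_add_finrank_orthogonal; omega)
  obtain ⟨A, hA, hr⟩ := Cut.exists_sup_finrank G N a1 hK
  exact ⟨A, T, hr, fun x => hA (a2 x), a3, a4, a5⟩

end Pool.Agent.MP_c45dcf_an

end MrgPart4

-- ======== part 5: formerly Pool.Agent.MP_c45dcf_an.Types
section MrgPart5

set_option autoImplicit false

namespace Pool.Agent.MP_c45dcf_an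

open Finset

namespace Types

lemma exists_dual {E : Type} [AddCommGroup E] [Module ℝ E] (p : Seminorm ℝ E) (x : E) :
    ∃ f : E →ₗ[ℝ] ℝ, f x = p x ∧ ∀ y, |f y| ≤ p y := by
  by_cases hx : x = 0
  · exact ⟨0, by simp [hx], fun y => by simp [apply_nonneg]⟩
  obtain ⟨g, h1, h2⟩ := exists_extension_of_le_sublinear
    (LinearPMap.mkSpanSingleton x (p x) hx : E →ₗ.[ℝ] ℝ) p
    (fun c hc y => by rw [map_smul_eq_mul, Real.norm_eq_abs, abs_of_pos hc])
    (map_add_le_add p) (by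
      rintro ⟨y, hy⟩
      obtain ⟨c, rfl⟩ := Submodule.mem_span_singleton.1 hy
      rw [LinearPMap.mkSpanSingleton'_apply]
      simp only [map_smul_eq_mul, RingHom.id_apply, smul_eq_mul, Real.norm_eq_abs]
      exact mul_le_mul_of_nonneg_right (le_abs_self c) (apply_nonneg _ _))
  refine ⟨g, ?_, fun y => abs_le.2 ⟨?_, h2 y⟩⟩
  · have := h1 ⟨x, Submodule.mem_span_singleton_self x⟩
    rw [LinearPMap.mkSpanSingleton_apply] at this
    exact this
  · have := h2 (-y)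
    rw [map_neg, map_neg_eq_map] at this
    linarith

end Types

theorem typesStmt : TypesStmt := by
  classical
  intro K D hD
  obtain ⟨t, ht, hfin, hcov⟩ := finite_cover_balls_of_compact
    (isCompact_closedBall (0 : EuclideanSpace ℝ (Fin K)) D) one_pos
  refine ⟨hfin.toFinset, fun φ hφ => by simpa using ht (by simpa using hφ), fun p hp => ?_⟩
  refine ⟨hfin.toFinset.filter fun φ => ∀ x, |inner ℝ φ x| ≤ p x + ‖x‖, filter_subset _ _,
    fun φ hφ => (mem_filter.1 hφ).2, fun x a _ ha => ?_⟩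
  obtain ⟨f, h1, h2⟩ := Types.exists_dual p x
  let ψ := (InnerProductSpace.toDual ℝ (EuclideanSpace ℝ (Fin K))).symm
    (LinearMap.toContinuousLinearMap f)
  have hψ : ∀ y, inner ℝ ψ y = f y := fun y => by
    simp [ψ, InnerProductSpace.toDual_symm_apply]
  have hn : ‖ψ‖ ≤ D := by
    have h3 := (le_abs_self _).trans ((h2 ψ).trans (hp ψ))
    rw [← hψ, real_inner_self_eq_norm_sq] at h3
    by_contra hc
    have := norm_nonneg ψ
    nlinarith
  have := hcov (by simpa using hn : ψ ∈ Metric.closedBall (0 : EuclideanSpace ℝ (Fin K)) D)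
  simp only [Set.mem_iUnion, Metric.mem_ball] at this
  obtain ⟨φ, m1, m2⟩ := this
  have key : ∀ y, |inner ℝ ψ y - inner ℝ φ y| ≤ ‖y‖ := fun y => by
    rw [← inner_sub_left]
    refine (abs_real_inner_le_norm _ _).trans ?_
    rw [dist_eq_norm] at m2
    exact mul_le_of_le_one_left (norm_nonneg _) m2.le
  have hmem : φ ∈ hfin.toFinset.filter fun φ => ∀ x, |inner ℝ φ x| ≤ p x + ‖x‖ := by
    refine mem_filter.2 ⟨by simpa using m1, fun y => ?_⟩
    have a1 := abs_le.1 (key y)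
    have a2 := abs_le.1 (h2 y)
    rw [hψ] at a1
    exact abs_le.2 ⟨by linarith [a1.2, a2.1], by linarith [a1.1, a2.2]⟩
  have a1 := abs_le.1 (key x)
  have a2 := abs_le.1 (ha φ hmem)
  rw [hψ, h1] at a1
  linarith [a1.2, a2.2]

end Pool.Agent.MP_c45dcf_an

end MrgPart5

-- ======== part 6: formerly Pool.Agent.MP_c45dcf_an.Swindle
section MrgPart6

set_option autoImplicit false

namespace Pool.Agent.MP_c45dcf_an

open Finset

namespace Swin

/-- the three shears exchanging the two end norms of the chain -/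
noncomputable def shear {W R V : Type} [AddCommGroup W] [Module ℝ W] [AddCommGroup R] [Module ℝ R]
    [AddCommGroup V] [Module ℝ V] (P : W →ₗ[ℝ] R) (I : R →ₗ[ℝ] W) (hPI : ∀ a, P (I a) = a)
    (ι : R →ₗ[ℝ] V) (T : V →ₗ[ℝ] R) : (W × V) ≃ₗ[ℝ] (W × V) where
  toFun z := (z.1 - I (T (z.2 + ι (P z.1))), z.2 + ι (P z.1) + ι (P z.1 - T (z.2 + ι (P z.1))))
  invFun z := (z.1 + I (T (z.2 - ι (P z.1))), z.2 - ι (P z.1) - ι (P z.1 + T (z.2 - ι (P z.1))))
  map_add' x y := by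
    refine Prod.ext ?_ ?_ <;> simp only [Prod.fst_add, Prod.snd_add, map_add, map_sub] <;> abel
  map_smul' a x := by
    refine Prod.ext ?_ ?_ <;>
      simp only [Prod.smul_fst, Prod.smul_snd, map_add, map_sub, map_smul, RingHom.id_apply,
        smul_add, smul_sub]
  left_inv z := by
    refine Prod.ext ?_ ?_ <;> simp only [map_add, map_sub, hPI] <;> abel
  right_inv z := by
    refine Prod.ext ?_ ?_ <;> simp only [map_add, map_sub, hPI] <;> abel

lemma finRotate_castSucc {J : ℕ} (j : Fin J) : finRotate (J + 1) j.castSucc = j.succ :=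
  finRotate_of_lt j.2

end Swin

theorem swindleStmt : SwindleStmt := by
  intro c hc Idx R V _ _ _ _ _ _ ντ om J s ι T N hom hs hN1 hN2 h1 h2 h3 hE hT0 hTJ
  let P : PiLp 2 (fun _ : Idx => R) →ₗ[ℝ] R := PiLp.projₗ 2 (fun _ : Idx => R) (s (Fin.last J))
  let I : R →ₗ[ℝ] PiLp 2 (fun _ : Idx => R) :=
    { toFun := fun a => PiLp.single 2 (s (Fin.last J)) a
      map_add' := fun a b => PiLp.single_add _ _
      map_smul' := fun t a => by
        ext i
        by_cases h : i = s (Fin.last J)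
        · subst h; simp
        · simp [h] }
  have hI0 : ∀ a, I a (s (Fin.last J)) = a := fun a => by simp [I]
  have hI1 : ∀ a i, i ≠ s (Fin.last J) → I a i = 0 := fun a i h => by
    simp [I, h]
  have hIn : ∀ a, ‖I a‖ = ‖a‖ := fun a => PiLp.norm_single _ _ _ _
  have hP : ∀ w, P w = w (s (Fin.last J)) := fun w => rfl
  let π : Equiv.Perm Idx := (finRotate (J + 1)).viaEmbedding ⟨s, hs⟩
  have hπ1 : ∀ j, π (s j) = s (finRotate (J + 1) j) := fun j =>
    Equiv.Perm.viaEmbedding_apply (finRotate (J + 1)) ⟨s, hs⟩ j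
  have hπ2 : ∀ i, i ∉ Set.range s → π i = i := fun i h =>
    Equiv.Perm.viaEmbedding_apply_of_notMem (finRotate (J + 1)) ⟨s, hs⟩ i h
  let ρ := LinearIsometryEquiv.piLpCongrLeft 2 ℝ R π
  have hρ : ∀ w i, ρ w (π i) = w i := fun w i => by
    simp [ρ, LinearIsometryEquiv.piLpCongrLeft]
  have hc0 : 0 ≤ c := by linarith
  have hom1 : ∀ w, ‖w‖ ≤ om w := fun w => ((hom w _).1 le_rfl).1
  have hom2 : ∀ w i, ντ i (w i) ≤ om w := fun w => ((hom w _).1 le_rfl).2
  have hblk : ∀ w (j : Fin (J + 1)), N j (ι (w (s j))) ≤ c * om w := fun w j =>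
    (h3 j _).trans (mul_le_mul_of_nonneg_left
      (max_le ((PiLp.norm_apply_le w _).trans (hom1 w)) (hom2 w _)) hc0)
  have k0 : ∀ x, N 0 (x - ι (T x)) ≤ 4 * N 0 x := fun x => by
    have := map_sub_le_add (N 0) x (ι (T x)); have := hT0 x; linarith
  have kJ : ∀ x, N J (x - ι (T x)) ≤ 4 * N J x := fun x => by
    have := map_sub_le_add (N J) x (ι (T x)); have := hTJ x; linarith
  let e := (Swin.shear P I (fun a => by rw [hP, hI0]) ι T).trans
    (ρ.toLinearEquiv.prodCongr (LinearEquiv.refl ℝ V))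
  have he1 : ∀ z, (e z).1 = ρ (z.1 - I (T (z.2 + ι (P z.1)))) := fun z => rfl
  have he2 : ∀ z, (e z).2 = z.2 + ι (P z.1) + ι (P z.1 - T (z.2 + ι (P z.1))) := fun z => rfl
  have hc2 : c ≤ c ^ 2 := by nlinarith
  have hc3 : c ^ 2 ≤ c ^ 3 := by nlinarith
  refine ⟨e, fun z => ?_, fun z => ?_⟩
  · obtain ⟨w, x⟩ := z
    simp only [he1, he2]
    set m := max (om w) (N 0 x) with hm
    have m1 : om w ≤ m := le_max_left _ _
    have m2 : N 0 x ≤ m := le_max_right _ _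
    have m0 : 0 ≤ m := (apply_nonneg _ _).trans m2
    set a := P w with ha
    have a1 : N J (ι a) ≤ c * m := by
      have := hblk w (Fin.last J)
      rw [Fin.val_last, ← hP] at this
      exact this.trans (by gcongr)
    have cm : m ≤ c * m := by nlinarith
    have ccm : c * m ≤ c ^ 2 * m := by gcongr
    have cccm : c ^ 2 * m ≤ c ^ 3 * m := by gcongr
    have b1 : N 0 (ι (a - T (x + ι a))) ≤ 7 * (c * m) := by
      have e1 : ι (a - T (x + ι a)) = (ι a - ι (T (ι a))) - ι (T x) := by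
        simp only [map_add, map_sub]; abel
      have := map_sub_le_add (N 0) (ι a - ι (T (ι a))) (ι (T x))
      have := hE (ι a); have := kJ (ι a); have := hT0 x
      rw [e1]; linarith
    have b2 : N J (x + ι a + ι (a - T (x + ι a))) ≤ 9 * (c * m) := by
      have e1 : x + ι a + ι (a - T (x + ι a)) = (x - ι (T x)) + ((ι a - ι (T (ι a))) + ι a) := by
        simp only [map_add, map_sub]; abel
      have := map_add_le_add (N J) (x - ι (T x)) ((ι a - ι (T (ι a))) + ι a)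
      have := map_add_le_add (N J) (ι a - ι (T (ι a))) (ι a)
      have := hE x; have := kJ (ι a); have := k0 x
      rw [e1]; linarith
    have b3 : c * N 0 (ι (a - T (x + ι a))) ≤ 7 * (c ^ 2 * m) :=
      (mul_le_mul_of_nonneg_left b1 hc0).trans (le_of_eq (by ring))
    refine max_le ((hom _ _).2 ⟨?_, fun i => ?_⟩) (by nlinarith)
    · rw [ρ.norm_map]
      have e1 : w - I (T (x + ι a)) = (w - I a) + I (a - T (x + ι a)) := by rw [map_sub]; abel
      have t1 := norm_add_le (w - I a) (I (a - T (x + ι a)))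
      have t2 := norm_sub_le w (I a)
      have t3 : ‖a‖ ≤ ‖w‖ := PiLp.norm_apply_le w _
      have t4 := h1 0 (a - T (x + ι a))
      have t5 := hom1 w
      rw [hIn] at t1 t2
      rw [e1]
      simp only [Fin.val_zero] at t4
      nlinarith
    · obtain ⟨i, rfl⟩ := π.surjective i
      rw [hρ]
      by_cases hi : i ∈ Set.range s
      · obtain ⟨j, rfl⟩ := hi
        rw [hπ1]
        refine Fin.lastCases ?_ (fun j => ?_) j
        · rw [finRotate_last, PiLp.sub_apply, hI0, ← hP, ← ha]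
          have t4 := h2 0 (a - T (x + ι a))
          simp only [Fin.val_zero] at t4
          nlinarith
        · rw [Swin.finRotate_castSucc, PiLp.sub_apply,
            hI1 _ _ (fun h => (Fin.castSucc_lt_last j).ne (hs h)), sub_zero]
          have t1 := h2 j.succ (w (s j.castSucc))
          have t2 := hN1 j (ι (w (s j.castSucc)))
          have t3 := hblk w j.castSucc
          simp only [Fin.val_succ, Fin.val_castSucc] at t1 t3
          have t4 : c * N (j + 1) (ι (w (s j.castSucc))) ≤ c * (c * m) :=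
            mul_le_mul_of_nonneg_left (t2.trans (t3.trans (by gcongr))) hc0
          nlinarith
      · rw [hπ2 i hi, PiLp.sub_apply, hI1 _ _ (fun h => hi ⟨_, h.symm⟩), sub_zero]
        have := hom2 w i
        nlinarith
  · obtain ⟨w, x⟩ := z
    have f1 := he1 (w, x)
    have f2 := he2 (w, x)
    simp only at f1 f2 ⊢
    set w' := (e (w, x)).1
    set x' := (e (w, x)).2
    set m := max (om w') (N J x') with hm
    have m1 : om w' ≤ m := le_max_left _ _
    have m2 : N J x' ≤ m := le_max_right _ _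
    have m0 : 0 ≤ m := (apply_nonneg _ _).trans m2
    set a := P w with ha
    set a' := a - T (x + ι a) with ha'
    have hw0 : w' (s 0) = a' := by
      rw [← finRotate_last, ← hπ1, f1, hρ, PiLp.sub_apply, hI0, ← hP]
    have a1 : N 0 (ι a') ≤ c * m := by
      have := hblk w' 0
      rw [Fin.val_zero, hw0] at this
      exact this.trans (by gcongr)
    have cm : m ≤ c * m := by nlinarith
    have ccm : c * m ≤ c ^ 2 * m := by gcongr
    have cccm : c ^ 2 * m ≤ c ^ 3 * m := by gcongr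
    have b1 : N J (ι a) ≤ 7 * (c * m) := by
      have e1 : ι a = (ι a' - ι (T (ι a'))) + ι (T x') := by
        rw [f2, ha']; simp only [map_add, map_sub]; abel
      have := map_add_le_add (N J) (ι a' - ι (T (ι a'))) (ι (T x'))
      have := hE (ι a'); have := k0 (ι a'); have := hTJ x'
      rw [e1]; linarith
    have b2 : N 0 x ≤ 9 * (c * m) := by
      have e1 : x = (x' - ι (T x')) - ((ι a' - ι (T (ι a'))) + ι a') := by
        rw [f2, ha']; simp only [map_add, map_sub]; abel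
      have := map_sub_le_add (N 0) (x' - ι (T x')) ((ι a' - ι (T (ι a'))) + ι a')
      have := map_add_le_add (N 0) (ι a' - ι (T (ι a'))) (ι a')
      have := hE x'; have := kJ x'; have := k0 (ι a')
      rw [e1]; linarith
    have b3 : c * N J (ι a) ≤ 7 * (c ^ 2 * m) :=
      (mul_le_mul_of_nonneg_left b1 hc0).trans (le_of_eq (by ring))
    refine max_le ((hom _ _).2 ⟨?_, fun i => ?_⟩) (by nlinarith)
    · have t0 : ‖w'‖ = ‖w - I (T (x + ι a))‖ := by rw [f1, ρ.norm_map]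
      have e1 : w = (w - I (T (x + ι a)) - I a') + I a := by rw [ha', map_sub]; abel
      have t1 := norm_add_le (w - I (T (x + ι a)) - I a') (I a)
      have t2 := norm_sub_le (w - I (T (x + ι a))) (I a')
      have t3 : ‖a'‖ ≤ ‖w'‖ := hw0 ▸ PiLp.norm_apply_le w' _
      have t4 := h1 (Fin.last J) a
      have t5 := hom1 w'
      rw [hIn] at t1 t2
      rw [← e1] at t1
      simp only [Fin.val_last] at t4
      nlinarith
    · by_cases hi : i ∈ Set.range s
      · obtain ⟨j, rfl⟩ := hi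
        refine Fin.lastCases ?_ (fun j => ?_) j
        · rw [← hP, ← ha]
          have t4 := h2 (Fin.last J) a
          simp only [Fin.val_last] at t4
          nlinarith
        · have e1 : w' (s j.succ) = w (s j.castSucc) := by
            rw [← Swin.finRotate_castSucc, ← hπ1, f1, hρ, PiLp.sub_apply,
              hI1 _ _ (fun h => (Fin.castSucc_lt_last j).ne (hs h)), sub_zero]
          have t1 := h2 j.castSucc (w (s j.castSucc))
          have t2 := hN2 j (ι (w (s j.castSucc)))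
          have t3 := hblk w' j.succ
          rw [e1] at t3
          simp only [Fin.val_succ, Fin.val_castSucc] at t1 t3
          have t3' : N (j + 1) (ι (w (s j.castSucc))) ≤ c * m := t3.trans (by gcongr)
          have t4 : c * N j (ι (w (s j.castSucc))) ≤ c * (2 * (c * m)) :=
            mul_le_mul_of_nonneg_left (by linarith) hc0
          nlinarith
      · have e1 : w' i = w i := by
          rw [← hπ2 i hi, f1, hρ, hπ2 i hi, PiLp.sub_apply, hI1 _ _ (fun h => hi ⟨_, h.symm⟩),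
            sub_zero]
        have := hom2 w' i
        rw [e1] at this
        nlinarith

end Pool.Agent.MP_c45dcf_an

end MrgPart6

-- ======== part 7: formerly Pool.Agent.MP_c45dcf_an.Core
section MrgPart7

/-!
Assembly of the counterexample.
-/

set_option autoImplicit false

namespace Pool.Agent.MP_c45dcf_an

open Finset

/-- the seminorm given by finitely many functionals -/
noncomputable def sa {R : Type} [NormedAddCommGroup R] [InnerProductSpace ℝ R] (τ : Finset R) :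
    Seminorm ℝ R := τ.sup fun φ => (normSeminorm ℝ ℝ).comp (innerₛₗ ℝ φ)

lemma le_sa {R : Type} [NormedAddCommGroup R] [InnerProductSpace ℝ R] {τ : Finset R} {φ : R}
    (h : φ ∈ τ) (x : R) : |inner ℝ φ x| ≤ sa τ x :=
  Seminorm.le_finset_sup_apply (p := fun φ => (normSeminorm ℝ ℝ).comp (innerₛₗ ℝ φ)) (x := x) h

lemma sa_le {R : Type} [NormedAddCommGroup R] [InnerProductSpace ℝ R] {τ : Finset R} {x : R}
    {a : ℝ} (ha : 0 ≤ a) (h : ∀ φ ∈ τ, |inner ℝ φ x| ≤ a) : sa τ x ≤ a :=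
  Seminorm.finset_sup_apply_le ha h

lemma cut_ker {H₀ M V : Type} [NormedAddCommGroup H₀] [InnerProductSpace ℝ H₀]
    [FiniteDimensional ℝ H₀] [AddCommGroup M] [Module ℝ M] [FiniteDimensional ℝ M]
    [AddCommGroup V] [Module ℝ V] [FiniteDimensional ℝ V] {K k : ℕ} {D : ℝ}
    (hcut : ∀ (H : Type) [NormedAddCommGroup H] [InnerProductSpace ℝ H] [FiniteDimensional ℝ H]
      (p q : Seminorm ℝ H) (B : Submodule ℝ H),
      (∀ x, ‖x‖ ≤ D * p x) → (∀ x, p x ≤ D * ‖x‖) →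
      (∀ x, ‖x‖ ≤ D * q x) → (∀ x, q x ≤ D * ‖x‖) →
      Module.finrank ℝ H ≤ Module.finrank ℝ B + k → K ≤ Module.finrank ℝ H →
      ∃ (A : Submodule ℝ H) (T : H →ₗ[ℝ] H), Module.finrank ℝ A = K ∧ (∀ x, T x ∈ A) ∧
        (∀ x, x - T x ∈ B) ∧ (∀ x, p (T x) ≤ 3 * p x) ∧ (∀ x, q (T x) ≤ 3 * q x))
    (E : Submodule ℝ H₀) (Q : E →ₗ[ℝ] M) (p q : Seminorm ℝ H₀) (f : H₀ →ₗ[ℝ] V)
    (h1 : ∀ x, ‖x‖ ≤ D * p x) (h2 : ∀ x, p x ≤ D * ‖x‖)
    (h3 : ∀ x, ‖x‖ ≤ D * q x) (h4 : ∀ x, q x ≤ D * ‖x‖) (hV : Module.finrank ℝ V = k)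
    (hE : K + Module.finrank ℝ M ≤ Module.finrank ℝ E) :
    ∃ (A : Submodule ℝ (LinearMap.ker Q)) (T : LinearMap.ker Q →ₗ[ℝ] LinearMap.ker Q),
      Module.finrank ℝ A = K ∧ (∀ x, T x ∈ A) ∧
      (∀ x, f ((E.subtype ∘ₗ (LinearMap.ker Q).subtype) (x - T x)) = 0) ∧
      (∀ x, p.comp (E.subtype ∘ₗ (LinearMap.ker Q).subtype) (T x) ≤
        3 * p.comp (E.subtype ∘ₗ (LinearMap.ker Q).subtype) x) ∧
      (∀ x, q.comp (E.subtype ∘ₗ (LinearMap.ker Q).subtype) (T x) ≤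
        3 * q.comp (E.subtype ∘ₗ (LinearMap.ker Q).subtype) x) := by
  let inc : LinearMap.ker Q →ₗ[ℝ] H₀ := E.subtype ∘ₗ (LinearMap.ker Q).subtype
  have a1 := finrank_le_ker_add (f ∘ₗ inc)
  have a2 := finrank_le_ker_add Q
  exact hcut (LinearMap.ker Q) (p.comp inc) (q.comp inc) (LinearMap.ker (f ∘ₗ inc))
    (fun x => h1 (inc x)) (fun x => h2 (inc x)) (fun x => h3 (inc x)) (fun x => h4 (inc x))
    (hV ▸ a1) (by omega)

variable {Z F B : Type} [NormedAddCommGroup Z] [InnerProductSpace ℝ Z]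
  [FiniteDimensional ℝ Z] [NormedAddCommGroup F] [InnerProductSpace ℝ F] [FiniteDimensional ℝ F]
  [DecidableEq B] [Fintype B]

theorem section_equi {K k J R : ℕ} (𝒩 : Finset (EuclideanSpace ℝ (Fin K)))
    (X : Blk Z F (PiLp 2 (fun _ : Fin (J + 1) × 𝒩.powerset => EuclideanSpace ℝ (Fin K))) B)
    (hsl : ∀ w (a : ℝ), 0 ≤ a →
      (X.sl w ≤ a ↔ ∀ i : Fin (J + 1) × 𝒩.powerset, sa i.2.1 (w i) ≤ a))
    (hk : (k : ℝ) = X.D ^ 2)
    (hcut : ∀ (H : Type) [NormedAddCommGroup H] [InnerProductSpace ℝ H] [FiniteDimensional ℝ H]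
      (p q : Seminorm ℝ H) (B : Submodule ℝ H),
      (∀ x, ‖x‖ ≤ 4 * X.D * p x) → (∀ x, p x ≤ 4 * X.D * ‖x‖) →
      (∀ x, ‖x‖ ≤ 4 * X.D * q x) → (∀ x, q x ≤ 4 * X.D * ‖x‖) →
      Module.finrank ℝ H ≤ Module.finrank ℝ B + k → K ≤ Module.finrank ℝ H →
      ∃ (A : Submodule ℝ H) (T : H →ₗ[ℝ] H), Module.finrank ℝ A = K ∧ (∀ x, T x ∈ A) ∧
        (∀ x, x - T x ∈ B) ∧ (∀ x, p (T x) ≤ 3 * p x) ∧ (∀ x, q (T x) ≤ 3 * q x))
    (htyp : ∀ p : Seminorm ℝ (EuclideanSpace ℝ (Fin K)), (∀ x, p x ≤ X.D * ‖x‖) →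
      ∃ τ ⊆ 𝒩, (∀ φ ∈ τ, ∀ x, |inner ℝ φ x| ≤ p x + ‖x‖) ∧
        ∀ x (a : ℝ), 0 ≤ a → (∀ φ ∈ τ, |inner ℝ φ x| ≤ a) → p x ≤ a + ‖x‖)
    (hR1 : 8 * K * X.Λ ^ 4 ≤ R + 1) (hR2 : (R + 1) * (2 * X.Λ) * X.η ≤ 1)
    (hgood : ∀ E₀ E₁, ∃ α, Good X.G X.η E₀ α ∧ Good X.G X.η E₁ α)
    (E : Submodule ℝ (WithLp 2 (Z × EuclideanSpace ℝ (Fin k))))
    (hE1 : Module.finrank ℝ Z + 3 * k ≤ 3 * Module.finrank ℝ E)
    (hE2 : 3 * Module.finrank ℝ E ≤ 2 * Module.finrank ℝ Z)
    (hE3 : K + Module.finrank ℝ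
      (PiLp 2 (fun _ : Fin (J + 1) × 𝒩.powerset => EuclideanSpace ℝ (Fin K))) ≤
        Module.finrank ℝ E) :
    Equi (fun x : E => chain X.nZ k 0 x) (fun x : E => chain X.nZ k J x)
      (145 * (100 * 8 ^ 3) * 145) := by
  classical
  obtain ⟨Q, hQ⟩ := X.split_section hgood E hE1 hE2
  refine Equi.trans (by norm_num) (by norm_num) (Equi.trans (by norm_num) (by norm_num) (hQ 0) ?_)
    (hQ J).symm
  let V := EuclideanSpace ℝ (Fin k)
  let E' := LinearMap.ker Q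
  let inc : E' →ₗ[ℝ] WithLp 2 (Z × V) := E.subtype ∘ₗ E'.subtype
  let N : ℕ → Seminorm ℝ E' := fun j => (chain X.nZ k j).comp inc
  have hN : ∀ j x, N j x = chain X.nZ k j (inc x) := fun j x => rfl
  have hD := X.one_le_D
  let f : E' →ₗ[ℝ] V := WithLp.sndₗ 2 ℝ Z V ∘ₗ inc
  obtain ⟨A, T, hA, hT1, hT2, hT3, hT4⟩ := cut_ker hcut E Q (chain X.nZ k 0) (chain X.nZ k J)
    (WithLp.sndₗ 2 ℝ Z V) (X.chain_lower k 0) (X.chain_upper hk 0) (X.chain_lower k J)
    (X.chain_upper hk J) finrank_euclideanSpace_fin hE3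
  obtain ⟨L, hL1, hL2⟩ := X.shrink (A.map (WithLp.fstₗ 2 ℝ Z V ∘ₗ inc)) K R
    ((Submodule.finrank_map_le _ _).trans hA.le) hR1 hR2
  let H' := WithLp 2 (Z × PiLp 2 (fun _ : B => F))
  let Ψ : E' →ₗ[ℝ] WithLp 2 (H' × V) := (WithLp.linearEquiv 2 ℝ (H' × V)).symm.toLinearMap ∘ₗ
    (L ∘ₗ WithLp.fstₗ 2 ℝ Z V ∘ₗ inc).prod f
  have hΨ1 : ∀ j x, N j x ≤ 4 * X.D * ‖Ψ x‖ := by
    intro j x
    have h1 : ‖L (inc x).fst‖ ≤ ‖Ψ x‖ := WithLp.norm_fst_le H' (Ψ x)
    have h2 : ‖(inc x).snd‖ ≤ ‖Ψ x‖ := WithLp.norm_snd_le H' (Ψ x)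
    have h3 := hL1 (inc x).fst
    have h4 := norm_nonneg (Ψ x)
    exact chain_le _ _ hD hk j (by nlinarith) (by nlinarith)
  have hΨ2 : ∀ j, ∀ x ∈ A, ‖Ψ x‖ ≤ 7 * N j x := by
    intro j x hx
    have h1 : ‖Ψ x‖ ≤ ‖L (inc x).fst‖ + ‖(inc x).snd‖ := norm_le_fst_add_snd (Ψ x)
    have h2 := hL2 (inc x).fst ⟨x, hx, rfl⟩
    have h3 := fst_le_chain X.nZ k j (inc x)
    have h4 := snd_le_chain X.nZ k j (inc x)
    rw [hN]; linarith
  obtain ⟨ι, g, hι1, hι2, hι3⟩ := exists_param A hA Ψ (by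
    intro x _ hx
    have h1 := hΨ1 0 x
    have h2 := X.chain_lower k 0 (inc x)
    rw [hx, norm_zero, mul_zero] at h1
    rw [← hN] at h2
    exact Subtype.ext (Subtype.ext (norm_le_zero_iff.mp
      (h2.trans (mul_nonpos_of_nonneg_of_nonpos (by linarith) h1)))))
  have hp : ∀ j y, ((N j).comp ((1 / 4 : ℝ) • ι)) y = 1 / 4 * N j (ι y) := by
    intro j y
    rw [Seminorm.comp_apply, LinearMap.smul_apply, map_smul_eq_mul, Real.norm_eq_abs,
      abs_of_pos (by norm_num)]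
  choose τ hτ1 hτ2 hτ3 using fun j : Fin (J + 1) => htyp ((N j).comp ((1 / 4 : ℝ) • ι)) (by
    intro y
    have h1 := hΨ1 j (ι y)
    rw [hι2] at h1
    rw [hp]; linarith)
  have hy : ∀ (j : ℕ) y, ‖y‖ ≤ 7 * N j (ι y) := by
    intro j y
    have := hΨ2 j (ι y) (hι1 y)
    rwa [hι2] at this
  have hT' : ∀ x, ι ((g ∘ₗ LinearMap.codRestrict A T hT1) x) = T x := fun x => hι3 _
  exact swindleStmt 8 (by norm_num) (Fin (J + 1) × 𝒩.powerset) (EuclideanSpace ℝ (Fin K)) E'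
    (fun i y => sa i.2.1 y) (fun w => max ‖w‖ (X.sl w)) J
    (fun j => (j, ⟨τ j, Finset.mem_powerset.mpr (hτ1 j)⟩)) ι
    (g ∘ₗ LinearMap.codRestrict A T hT1) N
    (fun w a => by
      rw [max_le_iff]
      exact and_congr_right fun h => hsl w a ((norm_nonneg _).trans h))
    (fun a b h => congrArg Prod.fst h)
    (fun j x => chain_succ_le _ _ j _) (fun j x => chain_le_succ _ _ j _)
    (fun j y => by linarith [hy j y, apply_nonneg (N j) (ι y)])
    (fun j y => sa_le (by positivity) fun φ hφ => by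
      have h1 := hτ2 j φ hφ y
      rw [hp] at h1
      linarith [hy j y, apply_nonneg (N j) (ι y)])
    (fun j y => by
      have h1 := hτ3 j y (sa (τ j) y) (apply_nonneg _ _) fun φ hφ => le_sa hφ y
      rw [hp] at h1
      have m1 := le_max_left ‖y‖ (sa (τ j) y)
      have m2 := le_max_right ‖y‖ (sa (τ j) y)
      show N j (ι y) ≤ 8 * max ‖y‖ (sa (τ j) y)
      linarith)
    (fun x => by
      rw [hT', hN, hN, chain_of_snd _ _ 0 (hT2 x), chain_of_snd _ _ J (hT2 x)])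
    (fun x => by rw [hT']; exact hT3 x) (fun x => by rw [hT']; exact hT4 x)

omit [FiniteDimensional ℝ Z] in
theorem far_apart {k J : ℕ} (p : Seminorm ℝ Z) {ε : ℝ} (hk : (k : ℝ) = (2 ^ J) ^ 2)
    (hε : 1 / 2 ^ J ≤ ε)
    (hlow : ∀ m : Fin k → Z, (∀ i, p (m i) ≤ 1) →
      ∃ ρ : (Fin k → Bool) → Z, (∀ i, ∑ s : Fin k → Bool, sg (s i) • ρ s = 0) ∧
        av (fun s => p (rad m s + ρ s)) ≤ 39 * ε)
    (T : WithLp 2 (Z × EuclideanSpace ℝ (Fin k)) ≃ₗ[ℝ] WithLp 2 (Z × EuclideanSpace ℝ (Fin k)))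
    (f : ℝ) (hf : 0 ≤ f) (h1 : ∀ x, chain p k J (T x) ≤ chain p k 0 x)
    (h2 : ∀ x, chain p k 0 x ≤ f * chain p k J (T x)) : 1 ≤ f * (40 * ε) := by
  let V := EuclideanSpace ℝ (Fin k)
  have hD : (0 : ℝ) < 2 ^ J := by positivity
  have hk0 : (0 : ℝ) < k := by rw [hk]; positivity
  let inl : Z →ₗ[ℝ] WithLp 2 (Z × V) :=
    (WithLp.linearEquiv 2 ℝ (Z × V)).symm.toLinearMap ∘ₗ LinearMap.inl ℝ Z V
  let e : Fin k → WithLp 2 (Z × V) := fun i => WithLp.toLp 2 (0, EuclideanSpace.single i 1)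
  have he : ∀ i, chain p k 0 (e i) ≤ 1 := by
    intro i
    rw [chain_apply, l1_apply]
    simp [e, apply_ite abs]
  have hm : ∀ i, chain p k J (T (e i)) ≤ 1 := fun i => (h1 _).trans (he i)
  obtain ⟨ρ, hρ1, hρ2⟩ := hlow (fun i => (T (e i)).fst)
    fun i => (fst_le_chain p k J _).trans (hm i)
  let x : (Fin k → Bool) → WithLp 2 (Z × V) := fun s => rad e s + T.symm (inl (ρ s))
  let co : Fin k → Z →ₗ[ℝ] ℝ := fun i => PiLp.projₗ 2 (fun _ : Fin k => ℝ) i ∘ₗ
    WithLp.sndₗ 2 ℝ Z V ∘ₗ T.symm.toLinearMap ∘ₗ inl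
  have a1 : ∀ s, 1 + ∑ i, sg (s i) * co i (ρ s) ≤ chain p k 0 (x s) := by
    intro s
    have c1 : ∀ i, (x s).snd i = 1 / k * sg (s i) + co i (ρ s) := by
      intro i
      have d1 : (rad e s).snd = rad (fun i => EuclideanSpace.single i (1 : ℝ)) s :=
        map_rad (WithLp.sndₗ 2 ℝ Z V) e s
      have d2 : (x s).snd i = (rad e s).snd i + co i (ρ s) := rfl
      rw [d2, d1]
      simp [rad, Pi.single_apply]
    have c2 : ∑ i, sg (s i) * (x s).snd i = 1 + ∑ i, sg (s i) * co i (ρ s) := by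
      simp_rw [c1, mul_add, Finset.sum_add_distrib]
      congr 1
      have : ∀ i, sg (s i) * (1 / k * sg (s i)) = 1 / k := by
        intro i; linear_combination (1 / k : ℝ) * sg_mul_self (s i)
      simp only [this, Finset.sum_const, Finset.card_univ, Fintype.card_fin, nsmul_eq_mul]
      field_simp
    rw [← c2, chain_apply, pow_zero, div_one, one_mul, l1_apply]
    refine le_trans ?_ ((le_max_right _ _).trans (le_max_right _ _))
    refine Finset.sum_le_sum fun i _ => (le_abs_self _).trans ?_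
    rw [abs_mul, abs_sg, one_mul]
  have a2 : ∀ s, chain p k J (T (x s)) ≤ p (rad (fun i => (T (e i)).fst) s + ρ s) +
      ‖rad (fun i => (T (e i)).snd) s‖ := by
    intro s
    have c0 : T (x s) = rad (fun i => T (e i)) s + inl (ρ s) := by
      simp only [x, map_add, LinearEquiv.apply_symm_apply]
      congr 1
      exact map_rad T.toLinearMap e s
    have c1 : (T (x s)).fst = rad (fun i => (T (e i)).fst) s + ρ s := by
      rw [c0, WithLp.add_fst]
      congr 1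
      exact map_rad (WithLp.fstₗ 2 ℝ Z V) _ s
    have c2 : (T (x s)).snd = rad (fun i => (T (e i)).snd) s := by
      rw [c0, WithLp.add_snd]
      refine (add_zero _).trans ?_
      exact map_rad (WithLp.sndₗ 2 ℝ Z V) _ s
    rw [chain_apply, c1, c2]
    have d1 := apply_nonneg p (rad (fun i => (T (e i)).fst) s + ρ s)
    have d2 := norm_nonneg (rad (fun i => (T (e i)).snd) s)
    have d3 := l1_le hD.le hk (rad (fun i => (T (e i)).snd) s)
    refine max_le (by linarith) (max_le (by linarith) ?_)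
    rw [one_div, inv_mul_le_iff₀ hD]
    nlinarith
  have a3 : av (fun s => ∑ i, sg (s i) * co i (ρ s)) = 0 := by
    rw [av_sum]
    refine Finset.sum_eq_zero fun i _ => ?_
    unfold av
    have : ∑ s : Fin k → Bool, sg (s i) * co i (ρ s) = co i (∑ s, sg (s i) • ρ s) := by
      rw [map_sum]; simp only [map_smul, smul_eq_mul]
    rw [this, hρ1, map_zero, zero_div]
  have a4 := av_rad_le hD hk one_pos (fun i => (T (e i)).snd)
    fun i => (snd_le_chain p k J _).trans (hm i)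
  have a5 := av_mono fun s => (a1 s).trans ((h2 _).trans (mul_le_mul_of_nonneg_left (a2 s) hf))
  rw [av_add, av_const, a3, av_const_mul, av_add] at a5
  nlinarith

theorem coreStmt : CoreStmt := by
  classical
  refine ⟨145 * (100 * 8 ^ 3) * 145, by norm_num, fun δ hδ => ?_⟩
  set ε : ℝ := δ / 40 with hε
  have hε0 : 0 < ε := by positivity
  obtain ⟨r1, hr1⟩ := exists_nat_ge (8 / ε ^ 4)
  obtain ⟨Λ, D₀, hΛ, hloc⟩ := localStmt (ε / (r1 + 1)) (min ε 1) (by positivity)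
    (lt_min hε0 one_pos) (min_le_right _ _)
  obtain ⟨J, hJ⟩ := pow_unbounded_of_one_lt (|D₀| + Λ + 4 * Λ / ε + (2 + 8 * r1) / ε + 1 / ε)
    (one_lt_two : (1 : ℝ) < 2)
  set D : ℝ := 2 ^ J with hD
  have hD0 : 0 < D := by positivity
  have q1 : 0 ≤ |D₀| := abs_nonneg _
  have q2 : 0 ≤ 4 * Λ / ε := by positivity
  have q3 : 0 ≤ (2 + 8 * r1) / ε := by positivity
  have q4 : 0 ≤ 1 / ε := by positivity
  have hk : ((4 ^ J : ℕ) : ℝ) = D ^ 2 := by
    rw [hD, ← pow_mul, mul_comm, pow_mul]; push_cast; norm_num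
  set k : ℕ := 4 ^ J
  obtain ⟨K, hcut⟩ := cutStmt k (4 * D) (by positivity)
  obtain ⟨𝒩, h𝒩, htyp⟩ := typesStmt K D hD0
  let Idx := Fin (J + 1) × 𝒩.powerset
  let M := PiLp 2 (fun _ : Idx => EuclideanSpace ℝ (Fin K))
  let sl : Seminorm ℝ M := Finset.univ.sup fun i : Idx =>
    (sa i.2.1).comp (PiLp.projₗ 2 (fun _ : Idx => EuclideanSpace ℝ (Fin K)) i)
  have hsl1 : ∀ (i : Idx) (w : M), sa i.2.1 (w i) ≤ sl w := fun i w =>
    Seminorm.le_finset_sup_apply (p := fun i : Idx =>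
      (sa i.2.1).comp (PiLp.projₗ 2 (fun _ : Idx => EuclideanSpace ℝ (Fin K)) i)) (x := w)
      (Finset.mem_univ i)
  have hsl : ∀ (w : M) (a : ℝ), 0 ≤ a → (sl w ≤ a ↔ ∀ i : Idx, sa i.2.1 (w i) ≤ a) :=
    fun w a ha => ⟨fun h i => (hsl1 i w).trans h,
      fun h => Seminorm.finset_sup_apply_le ha fun i _ => h i⟩
  let Φ : Finset M := Finset.univ.biUnion fun i : Idx => i.2.1.image fun φ => PiLp.single 2 i φ
  have hin : ∀ (i : Idx) (φ : EuclideanSpace ℝ (Fin K)) (w : M),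
      inner ℝ (PiLp.single 2 i φ : M) w = inner ℝ φ (w i) := by
    intro i φ w
    rw [PiLp.inner_apply, Finset.sum_eq_single i]
    · rw [PiLp.single_eq_same]
    · intro j _ hj; rw [PiLp.single_eq_of_ne _ hj, inner_zero_left]
    · simp
  have hΦ : ∀ ψ ∈ Φ, ∃ i : Idx, ∃ φ ∈ i.2.1, ψ = PiLp.single 2 i φ := by
    intro ψ hψ
    obtain ⟨i, -, h⟩ := Finset.mem_biUnion.mp hψ
    obtain ⟨φ, h1, h2⟩ := Finset.mem_image.mp h
    exact ⟨i, φ, h1, h2.symm⟩
  have hφD : ∀ i : Idx, ∀ φ ∈ i.2.1, ‖φ‖ ≤ D := fun i φ h =>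
    h𝒩 φ (Finset.mem_powerset.mp i.2.2 h)
  obtain ⟨F, _, _, _, pM, iM, ν, l1, l2, l3, l4, l5, l6, l7⟩ := hloc D k
    (by linarith [le_abs_self D₀]) hD0 hk M sl Φ
    (fun ψ hψ => by
      obtain ⟨i, φ, h, rfl⟩ := hΦ ψ hψ
      rw [PiLp.norm_single]; exact hφD i φ h)
    (fun ψ hψ w => by
      obtain ⟨i, φ, h, rfl⟩ := hΦ ψ hψ
      rw [hin]; exact (le_sa h _).trans (hsl1 i w))
    (fun w a ha h => (hsl w a ha).mpr fun i => sa_le ha fun φ hφ => by
      rw [← hin]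
      exact h _ (Finset.mem_biUnion.mpr ⟨i, Finset.mem_univ _, Finset.mem_image_of_mem _ hφ⟩))
  obtain ⟨r2, hr2⟩ := exists_nat_ge (8 * k / (ε / D) ^ 2)
  obtain ⟨R, hR⟩ := exists_nat_ge (8 * K * Λ ^ 4)
  set Bg : ℝ := 10 * D * Λ + Λ * D / ε + r1 * D / ε + (r1 + 1) + (r2 + 1) + (R + 1) * (2 * Λ)
    with hBg
  have s1 : 0 ≤ 10 * D * Λ := by positivity
  have s2 : 0 ≤ Λ * D / ε := by positivity
  have s3 : 0 ≤ r1 * D / ε := by positivity
  have s4 : (0 : ℝ) < r1 + 1 := by positivity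
  have s5 : (0 : ℝ) ≤ r2 + 1 := by positivity
  have s6 : 0 ≤ (R + 1) * (2 * Λ) := by positivity
  have hBg0 : 0 < Bg := by linarith
  have hη : ∀ t, t ≤ Bg → t * (1 / Bg) ≤ 1 := fun t ht => by
    rw [mul_one_div, div_le_one hBg0]; exact ht
  obtain ⟨n, hn, B, _, _, G, hG1, hG2⟩ := exists_frame F (η := 1 / Bg) (by positivity)
    (6 * k + 6 + 2 * (K + Module.finrank ℝ M))
  let X : Blk (EuclideanSpace ℝ (Fin n)) F M B :=
    { G := G, pM := pM, iM := iM, ν := ν, sl := sl, D := D, Λ := Λ, r := min ε 1, η := 1 / Bg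
      pi := l1, p_le := l2, i_le := l3, hΛ := l4, hr := l5, hs := l6
      hD := fun w => (hsl w _ (by positivity)).mpr fun i => sa_le (by positivity) fun φ hφ =>
        (abs_real_inner_le_norm _ _).trans
          (mul_le_mul (hφD i φ hφ) (PiLp.norm_apply_le w i) (norm_nonneg _) hD0.le)
      one_le := hΛ, le_D := by linarith, r_pos := lt_min hε0 one_pos, r_le := min_le_right _ _
      η_pos := by positivity
      small := by linarith [hη (10 * D * Λ) (by linarith)]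
      pos := by rw [finrank_euclideanSpace_fin]; omega
      good := hG1 }
  have hfin : Module.finrank ℝ (WithLp 2 (EuclideanSpace ℝ (Fin n) × EuclideanSpace ℝ (Fin k))) =
      n + k := by
    rw [(WithLp.linearEquiv 2 ℝ _).finrank_eq, Module.finrank_prod, finrank_euclideanSpace_fin,
      finrank_euclideanSpace_fin]
  refine ⟨WithLp 2 (EuclideanSpace ℝ (Fin n) × EuclideanSpace ℝ (Fin k)), inferInstance,
    inferInstance, inferInstance, chain X.nZ k 0, chain X.nZ k J, 4 * D, by positivity,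
    X.chain_lower k 0, X.chain_upper hk 0, X.chain_lower k J, X.chain_upper hk J,
    fun E hE => ?_, fun T f hf h1 h2 => ?_⟩
  · rw [hfin] at hE
    refine section_equi (R := R) 𝒩 X hsl hk hcut htyp (by show 8 * K * Λ ^ 4 ≤ _; linarith)
      (hη _ (by show (R + 1) * (2 * Λ) ≤ Bg; linarith)) hG2 E ?_ ?_ ?_
    · rw [finrank_euclideanSpace_fin]; omega
    · rw [finrank_euclideanSpace_fin]; omega
    · show K + Module.finrank ℝ M ≤ _
      omega
  · have e : δ = 40 * ε := by rw [hε]; ring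
    rw [e]
    have hεD : ∀ t, t / ε ≤ D → t ≤ ε * D := fun t ht => by rwa [div_le_iff₀' hε0] at ht
    refine far_apart X.nZ hk ?_ (X.lower hk hε0 (δ := ε / (r1 + 1)) (by positivity) r1 r2 l7
      ?_ ?_ ?_ (hη _ (by linarith)) (hη _ (by linarith)) (min_le_left _ _)
      (hεD _ (by show 4 * Λ / ε ≤ D; linarith)) (hεD _ (by linarith)) ?_ ?_) T f hf h1 h2
    · rw [div_le_iff₀ hD0]; exact hεD _ (by linarith)
    · rw [← mul_div_assoc, div_le_iff₀ s4]; nlinarith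
    · rw [div_le_iff₀' (by positivity)] at hr1
      have : 0 ≤ ε ^ 4 := by positivity
      linarith
    · rw [div_le_iff₀' (by positivity)] at hr2
      have : 0 ≤ (ε / D) ^ 2 := by positivity
      show 8 * (k : ℝ) ≤ (ε / D) ^ 2 * (r2 + 1)
      linarith
    · have h := hη (Λ * D / ε) (by linarith)
      rw [div_mul_eq_mul_div, div_le_one hε0] at h
      show 1 / Bg * Λ * D ≤ ε
      linarith
    · have h := hη (r1 * D / ε) (by linarith)
      rw [div_mul_eq_mul_div, div_le_one hε0] at h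
      show 1 / Bg * r1 * D ≤ ε
      linarith

end Pool.Agent.MP_c45dcf_an

end MrgPart7

-- marker of a merged file
example : 731051 + 33727 = 731051 + 33727 := rfl
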